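import Pool.Agent.H87.RL.Disc

namespace Pool.Agent.H87.RL

open MeasureTheory ProbabilityTheory Matrix Set Filter Topology
open scoped ENNReal

/-- number of large coordinates used -/
noncomputable def mm (n : ℕ) : ℕ := ⌊(n : ℝ) ^ (3 / 4 : ℝ)⌋₊

lemma mm_le (n : ℕ) : (mm n : ℝ) ≤ (n : ℝ) ^ (3 / 4 : ℝ) :=
  Nat.floor_le (Real.rpow_nonneg (Nat.cast_nonneg _) _)

lemma mm_ge {n : ℕ} (hn : 1 ≤ n) : (n : ℝ) ^ (3 / 4 : ℝ) ≤ 2 * mm n := by
  have hn' : (1 : ℝ) ≤ n := by exact_mod_cast hn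
  have h1 : (1 : ℝ) ≤ (n : ℝ) ^ (3 / 4 : ℝ) := Real.one_le_rpow hn' (by norm_num)
  have h2 : 1 ≤ mm n := Nat.le_floor (by exact_mod_cast h1)
  have h2' : (1 : ℝ) ≤ mm n := by exact_mod_cast h2
  have h3 := Nat.lt_floor_add_one ((n : ℝ) ^ (3 / 4 : ℝ))
  have h4 : (n : ℝ) ^ (3 / 4 : ℝ) < (mm n : ℝ) + 1 := h3
  linarith

/-- the count of the net is small -/
lemma net_small : ∀ᶠ n : ℕ in atTop,
    ((n * (2 * n ^ 2 + 1) : ℕ) : ℝ) ^ (2 * mm n) * (1 / 2) ^ n ≤ Real.exp (-(n / 4)) := by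
  have h1 : ∀ᶠ x : ℝ in atTop, Real.log x ≤ 1 / 100 * x ^ (1 / 4 : ℝ) := by
    have := (isLittleO_log_rpow_atTop (show (0 : ℝ) < 1 / 4 by norm_num)).bound
      (show (0 : ℝ) < 1 / 100 by norm_num)
    filter_upwards [this, eventually_ge_atTop 1] with x hx hx1
    rw [Real.norm_of_nonneg (Real.log_nonneg hx1),
      Real.norm_of_nonneg (Real.rpow_nonneg (by linarith) _)] at hx
    exact hx
  have h2 := tendsto_natCast_atTop_atTop (R := ℝ) |>.eventually h1
  filter_upwards [h2, eventually_ge_atTop 3] with n hn hn3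
  have hn' : (3 : ℝ) ≤ n := by exact_mod_cast hn3
  have hn0 : (0 : ℝ) < n := by linarith
  have h3 : ((n * (2 * n ^ 2 + 1) : ℕ) : ℝ) ≤ Real.exp (4 * Real.log n) := by
    have e : Real.exp (4 * Real.log n) = (n : ℝ) ^ 4 := by
      rw [show (4 : ℝ) * Real.log n = ((4 : ℕ) : ℝ) * Real.log n by norm_num, Real.exp_nat_mul,
        Real.exp_log hn0]
    rw [e]; push_cast
    nlinarith [sq_nonneg (n : ℝ), mul_pos hn0 hn0, mul_pos (mul_pos hn0 hn0) hn0,
      mul_nonneg (mul_pos (mul_pos hn0 hn0) hn0).le (sub_nonneg.2 hn')]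
  have h4 : ((n * (2 * n ^ 2 + 1) : ℕ) : ℝ) ^ (2 * mm n) ≤
      Real.exp (8 * (mm n * Real.log n)) := by
    calc ((n * (2 * n ^ 2 + 1) : ℕ) : ℝ) ^ (2 * mm n) ≤ Real.exp (4 * Real.log n) ^ (2 * mm n) :=
          pow_le_pow_left₀ (by positivity) h3 _
      _ = Real.exp (8 * (mm n * Real.log n)) := by
          rw [← Real.exp_nat_mul]; push_cast; congr 1; ring
  have h5 : (mm n : ℝ) * Real.log n ≤ 1 / 100 * n := by
    calc (mm n : ℝ) * Real.log n ≤ (n : ℝ) ^ (3 / 4 : ℝ) * (1 / 100 * (n : ℝ) ^ (1 / 4 : ℝ)) :=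
          mul_le_mul (mm_le n) hn (Real.log_nonneg (by linarith)) (Real.rpow_nonneg hn0.le _)
      _ = 1 / 100 * ((n : ℝ) ^ (3 / 4 : ℝ) * (n : ℝ) ^ (1 / 4 : ℝ)) := by ring
      _ = 1 / 100 * n := by
          rw [← Real.rpow_add hn0]; norm_num
  have h6 : (1 / 2 : ℝ) ^ n = Real.exp (-(n * Real.log 2)) := by
    rw [one_div, inv_pow, Real.exp_neg, Real.exp_nat_mul, Real.exp_log (by norm_num)]
  calc ((n * (2 * n ^ 2 + 1) : ℕ) : ℝ) ^ (2 * mm n) * (1 / 2) ^ n
      ≤ Real.exp (8 * (mm n * Real.log n)) * Real.exp (-(n * Real.log 2)) := by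
        rw [h6]; exact mul_le_mul_of_nonneg_right h4 (Real.exp_pos _).le
    _ = Real.exp (8 * (mm n * Real.log n) + -(n * Real.log 2)) := (Real.exp_add _ _).symm
    _ ≤ _ := by
        refine Real.exp_le_exp.2 ?_
        have := Real.log_two_gt_d9
        have h7 : (n : ℝ) * (1 / 2) ≤ n * Real.log 2 :=
          mul_le_mul_of_nonneg_left (by linarith) hn0.le
        linarith

lemma bound_eq {n m N : ℕ} (hm : 1 ≤ m) : ((N : ℕ) : ℝ≥0∞) * 2⁻¹ ^ n +
      (n : ℝ≥0∞) * ((N : ℕ) * 2⁻¹ ^ (n - 1) + ENNReal.ofReal (1 / √(2 * m + 1))) / (2 * m : ℕ) =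
    ENNReal.ofReal ((N : ℝ) * (1 / 2) ^ n +
      (n : ℝ) * ((N : ℝ) * (1 / 2) ^ (n - 1) + 1 / √(2 * m + 1)) / (2 * m : ℕ)) := by
  have hm0 : (0 : ℝ) < ((2 * m : ℕ) : ℝ) := by
    have : 0 < 2 * m := by omega
    exact_mod_cast this
  have e2 : (2⁻¹ : ℝ≥0∞) = ENNReal.ofReal (1 / 2) := by
    rw [one_div, ENNReal.ofReal_inv_of_pos (by norm_num)]; norm_num
  rw [ENNReal.ofReal_add (by positivity) (by positivity), ENNReal.ofReal_div_of_pos hm0,
    ENNReal.ofReal_mul (by positivity), ENNReal.ofReal_mul (by positivity),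
    ENNReal.ofReal_add (by positivity) (by positivity), ENNReal.ofReal_mul (by positivity),
    ENNReal.ofReal_pow (by norm_num), ENNReal.ofReal_pow (by norm_num), ENNReal.ofReal_natCast,
    ENNReal.ofReal_natCast, ENNReal.ofReal_natCast, e2]

theorem disc_good {X : Ensemble} {a w : ℝ} (hX : X.entry = mB.map (vl a w)) (hw : 1 ≤ w)
    (ha : |a| ≤ 1) (haw : |a + w| ≤ 1) : Tendsto (fun n => X.law n (good n)) atTop (𝓝 1) := by
  have key : Tendsto (fun n => mM n {M | rm a w M ∈ good n}) atTop (𝓝 1) := by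
    refine tendsto_one_of_compl (fun n => mM n) _
      (fun n => ENNReal.ofReal ((1 + 2 * n) * Real.exp (-(n / 4)) + (n : ℝ) ^ (-(1 / 8) : ℝ)))
      ?_ ?_
    · rw [← ENNReal.ofReal_zero]
      refine ENNReal.tendsto_ofReal ?_
      have t0 : Tendsto (fun n : ℕ => (n : ℝ) / 4) atTop atTop :=
        (tendsto_natCast_atTop_atTop (R := ℝ)).atTop_div_const (by norm_num)
      have t1 := (Real.tendsto_pow_mul_exp_neg_atTop_nhds_zero 0).comp t0
      have t2 := ((Real.tendsto_pow_mul_exp_neg_atTop_nhds_zero 1).comp t0).const_mul 8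
      have t3 : Tendsto (fun n : ℕ => (n : ℝ) ^ (-(1 / 8) : ℝ)) atTop (𝓝 0) :=
        (tendsto_rpow_neg_atTop (show (0 : ℝ) < 1 / 8 by norm_num)).comp
          (tendsto_natCast_atTop_atTop (R := ℝ))
      have t4 := (t1.add t2).add t3
      rw [mul_zero, add_zero, add_zero] at t4
      refine t4.congr fun n => ?_
      simp only [Function.comp, pow_zero, pow_one]
      ring
    · filter_upwards [net_small, eventually_ge_atTop 16] with n hnet hn
      have hn1 : (16 : ℝ) ≤ n := by exact_mod_cast hn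
      have hn0 : (0 : ℝ) < n := by linarith
      have hm1 := mm_ge (show 1 ≤ n by omega)
      have hmle := mm_le n
      have h1 : (1 : ℝ) ≤ (n : ℝ) ^ (3 / 4 : ℝ) := Real.one_le_rpow (by linarith) (by norm_num)
      have hm : 1 ≤ mm n := Nat.le_floor (by exact_mod_cast h1)
      have hsplit : (n : ℝ) ^ (3 / 4 : ℝ) * (n : ℝ) ^ (1 / 4 : ℝ) = n := by
        rw [← Real.rpow_add hn0]; norm_num
      have h2 : (2 : ℝ) ≤ (n : ℝ) ^ (1 / 4 : ℝ) := by
        have e : (16 : ℝ) ^ (1 / 4 : ℝ) = 2 := by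
          rw [show (16 : ℝ) = 2 ^ (4 : ℕ) by norm_num, ← Real.rpow_natCast, ← Real.rpow_mul (by norm_num)]
          norm_num
        rw [← e]
        exact Real.rpow_le_rpow (by norm_num) hn1 (by norm_num)
      have hs : 2 * mm n ≤ n := by
        have : (2 : ℝ) * mm n ≤ n := by
          calc (2 : ℝ) * mm n ≤ (n : ℝ) ^ (1 / 4 : ℝ) * (n : ℝ) ^ (3 / 4 : ℝ) :=
                mul_le_mul h2 hmle (by positivity) (by positivity)
            _ = n := by rw [mul_comm]; exact hsplit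
        exact_mod_cast this
      have hcompl : ({M | rm a w M ∈ good n} : Set (Fin n → Fin n → Bool))ᶜ =
          {M | rm a w M ∉ good n} := rfl
      rw [hcompl]
      refine (disc_bad (by omega) hw ha haw hm hs).trans ?_
      rw [bound_eq hm]
      refine ENNReal.ofReal_le_ofReal ?_
      push_cast at hnet ⊢
      set E := Real.exp (-((n : ℝ) / 4)) with hE
      set Ns : ℝ := ((n : ℝ) * (2 * (n : ℝ) ^ 2 + 1)) ^ (2 * mm n) with hNs
      have hhalf : (1 / 2 : ℝ) ^ (n - 1) = 2 * (1 / 2) ^ n := by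
        obtain ⟨k, rfl⟩ : ∃ k, n = k + 1 := ⟨n - 1, by omega⟩
        rw [Nat.add_sub_cancel, pow_succ]; ring
      have hb1 : Ns * (1 / 2) ^ (n - 1) ≤ 2 * E := by
        rw [hhalf]; linarith
      have hm2 : (0 : ℝ) < 2 * mm n := by linarith
      have hb2 : (n : ℝ) / (2 * mm n) ≤ (n : ℝ) ^ (1 / 4 : ℝ) := by
        rw [div_le_iff₀ hm2]
        calc (n : ℝ) = (n : ℝ) ^ (1 / 4 : ℝ) * (n : ℝ) ^ (3 / 4 : ℝ) := by
              rw [mul_comm]; exact hsplit.symm
          _ ≤ _ := mul_le_mul_of_nonneg_left hm1 (by positivity)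
      have hb3 : 1 / √(2 * mm n + 1) ≤ (n : ℝ) ^ (-(3 / 8) : ℝ) := by
        rw [Real.rpow_neg hn0.le, ← one_div]
        refine one_div_le_one_div_of_le (by positivity) ?_
        refine Real.le_sqrt_of_sq_le ?_
        have e : ((n : ℝ) ^ (3 / 8 : ℝ)) ^ 2 = (n : ℝ) ^ (3 / 4 : ℝ) := by
          rw [← Real.rpow_natCast, ← Real.rpow_mul hn0.le]; norm_num
        rw [e]; linarith
      have hb4 : (n : ℝ) ^ (1 / 4 : ℝ) ≤ n := by
        calc (n : ℝ) ^ (1 / 4 : ℝ) ≤ (n : ℝ) ^ (1 : ℝ) :=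
              Real.rpow_le_rpow_of_exponent_le (by linarith) (by norm_num)
          _ = n := Real.rpow_one _
      have hb5 : (n : ℝ) ^ (1 / 4 : ℝ) * (n : ℝ) ^ (-(3 / 8) : ℝ) = (n : ℝ) ^ (-(1 / 8) : ℝ) := by
        rw [← Real.rpow_add hn0]; norm_num
      have hE0 : 0 < E := Real.exp_pos _
      calc Ns * (1 / 2) ^ n + n * (Ns * (1 / 2) ^ (n - 1) + 1 / √(2 * mm n + 1)) / (2 * mm n)
          = Ns * (1 / 2) ^ n + (n / (2 * mm n)) *
            (Ns * (1 / 2) ^ (n - 1) + 1 / √(2 * mm n + 1)) := by ring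
        _ ≤ E + (n : ℝ) ^ (1 / 4 : ℝ) * (2 * E + (n : ℝ) ^ (-(3 / 8) : ℝ)) := by
            refine add_le_add hnet ?_
            refine mul_le_mul hb2 (add_le_add hb1 hb3) (by positivity) (by positivity)
        _ = E + (n : ℝ) ^ (1 / 4 : ℝ) * (2 * E) + (n : ℝ) ^ (-(1 / 8) : ℝ) := by
            rw [← hb5]; ring
        _ ≤ E + n * (2 * E) + (n : ℝ) ^ (-(1 / 8) : ℝ) := by
            have := mul_le_mul_of_nonneg_right hb4 (show 0 ≤ 2 * E by linarith)
            linarith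
        _ = _ := by ring
  refine tendsto_of_tendsto_of_tendsto_of_le_of_le key tendsto_const_nhds
    (fun n => law_ge hX n (good n)) (fun n => prob_le_one)

lemma entry_rademacher : Ensemble.rademacher.entry = mB.map (vl (-1) 2) := by
  have hv : Measurable (vl (-1) 2) := measurable_of_countable _
  rw [mB, Measure.map_smul, Measure.map_add _ _ hv, Measure.map_dirac' hv, Measure.map_dirac' hv]
  simp only [vl, Ensemble.entry]
  norm_num

lemma entry_bernoulli : Ensemble.bernoulli.entry = mB.map (vl 0 1) := by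
  have hv : Measurable (vl 0 1) := measurable_of_countable _
  rw [mB, Measure.map_smul, Measure.map_add _ _ hv, Measure.map_dirac' hv, Measure.map_dirac' hv]
  simp only [vl, Ensemble.entry]
  norm_num

/-- With probability tending to one, the random matrix is good. -/
theorem tendsto_good (X : Ensemble) : Tendsto (fun n => X.law n (good n)) atTop (𝓝 1) := by
  cases X with
  | gaussian => exact gaussian_good
  | rademacher => exact disc_good entry_rademacher (by norm_num) (by norm_num) (by norm_num)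
  | bernoulli => exact disc_good entry_bernoulli (by norm_num) (by norm_num) (by norm_num)

end Pool.Agent.H87.RL
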