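import Pool.Agent.H87.RL.Solve

namespace Pool.Agent.H87.RL

open Matrix

/-- the constant in the bound for the number of operations -/
def costC : ℝ := 4 * 561 ^ 2 * (sz1 : ℝ) + (3 + 3 * (3 + 4 * (refineC.size : ℝ)))

lemma costC_nonneg : 0 ≤ costC := by unfold costC; positivity

lemma two_log2 : 1 ≤ 2 * Real.log 2 := by
  have := Real.log_two_gt_d9
  linarith

lemma costF_le {n K J : ℕ} {ℓ : ℝ} (hn : 1 ≤ n) (hℓ : 1 ≤ ℓ) (hK : (K : ℝ) ≤ 3 * ℓ)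
    (hJ : (J : ℝ) ≤ 3 * ℓ) : (costF n K J : ℝ) ≤ costC * n ^ 2 * ℓ ^ 2 := by
  have hn' : (1 : ℝ) ≤ n := by exact_mod_cast hn
  unfold costF costC
  push_cast
  have h1 : ((n : ℝ) + 1) ^ 2 ≤ 4 * n ^ 2 := by
    calc ((n : ℝ) + 1) ^ 2 ≤ (2 * n) ^ 2 := pow_le_pow_left₀ (by positivity) (by linarith) 2
      _ = _ := by ring
  have h2 : (140 * (K : ℝ) + 140 + 1) ^ 2 ≤ 561 ^ 2 * ℓ ^ 2 := by
    calc (140 * (K : ℝ) + 140 + 1) ^ 2 ≤ (561 * ℓ) ^ 2 :=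
          pow_le_pow_left₀ (by positivity) (by linarith) 2
      _ = _ := by ring
  have h3 : (sz1 : ℝ) * (((n : ℝ) + 1) ^ 2 * (140 * (K : ℝ) + 140 + 1) ^ 2) ≤
      4 * 561 ^ 2 * (sz1 : ℝ) * (n ^ 2 * ℓ ^ 2) := by
    calc (sz1 : ℝ) * (((n : ℝ) + 1) ^ 2 * (140 * (K : ℝ) + 140 + 1) ^ 2)
        ≤ (sz1 : ℝ) * ((4 * n ^ 2) * (561 ^ 2 * ℓ ^ 2)) := by
          refine mul_le_mul_of_nonneg_left ?_ (by positivity)
          exact mul_le_mul h1 h2 (by positivity) (by positivity)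
      _ = _ := by ring
  have hnl : (1 : ℝ) ≤ n ^ 2 * ℓ ^ 2 := by
    have a1 : (1 : ℝ) ≤ n ^ 2 := one_le_pow₀ hn'
    have a2 : (1 : ℝ) ≤ ℓ ^ 2 := one_le_pow₀ hℓ
    calc (1 : ℝ) = 1 * 1 := by ring
      _ ≤ _ := mul_le_mul a1 a2 (by norm_num) (by positivity)
  have h4 : (J : ℝ) * (3 + (refineC.size : ℝ) * ((n : ℝ) + 1) ^ 2) ≤
      3 * (3 + 4 * (refineC.size : ℝ)) * (n ^ 2 * ℓ ^ 2) := by
    have b1 : 3 + (refineC.size : ℝ) * ((n : ℝ) + 1) ^ 2 ≤ (3 + 4 * (refineC.size : ℝ)) * n ^ 2 := by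
      have b2 : (refineC.size : ℝ) * ((n : ℝ) + 1) ^ 2 ≤ (refineC.size : ℝ) * (4 * n ^ 2) :=
        mul_le_mul_of_nonneg_left h1 (by positivity)
      have b3 : (1 : ℝ) ≤ n ^ 2 := one_le_pow₀ hn'
      linarith
    have b4 : ℓ ≤ ℓ ^ 2 := by nlinarith
    calc (J : ℝ) * (3 + (refineC.size : ℝ) * ((n : ℝ) + 1) ^ 2)
        ≤ (3 * ℓ) * ((3 + 4 * (refineC.size : ℝ)) * n ^ 2) :=
          mul_le_mul hJ b1 (by positivity) (by positivity)
      _ = (3 * (3 + 4 * (refineC.size : ℝ)) * n ^ 2) * ℓ := by ring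
      _ ≤ (3 * (3 + 4 * (refineC.size : ℝ)) * n ^ 2) * ℓ ^ 2 :=
          mul_le_mul_of_nonneg_left b4 (by positivity)
      _ = _ := by ring
  calc _ ≤ 4 * 561 ^ 2 * (sz1 : ℝ) * (n ^ 2 * ℓ ^ 2) + (3 * (n ^ 2 * ℓ ^ 2) +
        3 * (3 + 4 * (refineC.size : ℝ)) * (n ^ 2 * ℓ ^ 2)) := by
        refine add_le_add h3 (add_le_add ?_ h4)
        linarith
    _ = _ := by ring

/-- The algorithm solves `A x = b` for all well conditioned matrices `A`. -/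
theorem solves {n : ℕ} (hn : 3 ≤ n) (A : Fin n → Fin n → ℝ) (b : Fin n → ℝ) (ε : ℝ)
    (hAe : ∀ i j, |A i j| ≤ n) (hA : LowB (Matrix.of A) ((n : ℝ) ^ 7)) (hε : 0 < ε)
    (hε1 : ε < 1) :
    ∃ t : ℕ, algorithm.cost (input A b ε) = t ∧
      (t : ℝ) ≤ costC * n ^ 2 * Real.log (n / ε) ^ 2 ∧
      nrm (Matrix.of A *ᵥ output A b ε - b) ≤ ε * nrm b := by
  have hn' : (3 : ℝ) ≤ n := by exact_mod_cast hn
  have hn0 : (0 : ℝ) < n := by linarith
  set ℓ := Real.log (n / ε) with hℓ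
  have hlogn : 1 ≤ Real.log n := by
    rw [Real.le_log_iff_exp_le hn0]
    exact (Real.exp_one_lt_d9.le.trans (by norm_num)).trans hn'
  have hsplit : ℓ = Real.log n + Real.log (1 / ε) := by
    rw [hℓ, ← Real.log_mul hn0.ne' (by positivity)]
    congr 1; ring
  have hle : 0 ≤ Real.log (1 / ε) := Real.log_nonneg (by rw [le_div_iff₀ hε]; linarith)
  have hℓ1 : 1 ≤ ℓ := by linarith
  set J := ⌈2 * Real.log (1 / ε)⌉₊ with hJ
  have hJ1 : (J : ℝ) ≤ 3 * ℓ := by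
    have := Nat.ceil_lt_add_one (show 0 ≤ 2 * Real.log (1 / ε) by linarith)
    rw [← hJ] at this
    linarith
  have hJ2 : (1 / 2 : ℝ) ^ J ≤ ε := by
    have h1 : 2 * Real.log (1 / ε) ≤ J := Nat.le_ceil _
    have h2 : Real.log ((1 / 2 : ℝ) ^ J) ≤ Real.log ε := by
      rw [Real.log_pow, one_div, Real.log_inv]
      have h3 : Real.log (1 / ε) = - Real.log ε := by rw [one_div, Real.log_inv]
      have h4 := two_log2
      have h5 : (J : ℝ) * Real.log 2 ≥ 2 * Real.log (1 / ε) * Real.log 2 :=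
        mul_le_mul_of_nonneg_right h1 (by linarith)
      have h6 : Real.log (1 / ε) * (2 * Real.log 2) ≥ Real.log (1 / ε) * 1 :=
        mul_le_mul_of_nonneg_left h4 hle
      rw [h3] at h5 h6
      linarith
    exact (Real.log_le_log_iff (by positivity) hε).1 h2
  obtain ⟨h1, K, hK, h2⟩ := algorithm_spec (by omega) A b ε hAe hA hε J hJ2
  have hfin : algorithm.cost (input A b ε) ≠ ⊤ :=
    ne_top_of_le_ne_top (ENat.natCast_ne_top _) h2
  obtain ⟨t, ht⟩ := ENat.ne_top_iff_exists.1 hfin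
  refine ⟨t, ht.symm, ?_, h1⟩
  rw [← ht] at h2
  have h3 : t ≤ costF n K J := by exact_mod_cast h2
  have h4 : (t : ℝ) ≤ costF n K J := by exact_mod_cast h3
  refine h4.trans (costF_le (by omega) hℓ1 ?_ hJ1)
  have h5 : (2 : ℝ) ^ K ≤ 2 * n := by exact_mod_cast hK.le
  have h6 : Real.log ((2 : ℝ) ^ K) ≤ Real.log (2 * n) := Real.log_le_log (by positivity) h5
  rw [Real.log_pow, Real.log_mul (by norm_num) hn0.ne'] at h6
  have h7 := two_log2
  have h8 : Real.log 2 ≤ 1 := by linarith [Real.log_two_lt_d9]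
  have h9 : (K : ℝ) ≤ K * (2 * Real.log 2) := by
    have : (0 : ℝ) ≤ K := Nat.cast_nonneg _
    nlinarith
  -- K * log 2 ≤ log 2 + log n
  -- K ≤ 2 (log 2 + log n) ; need ≤ 3 ℓ. Use K*log2 ≤ log 2 + log n, log n ≥ 1
  by_contra hcon
  rw [not_le] at hcon
  have h10 : 3 * ℓ * Real.log 2 < Real.log 2 + Real.log n := by
    have : 3 * ℓ * Real.log 2 < K * Real.log 2 :=
      mul_lt_mul_of_pos_right hcon (by linarith)
    linarith
  have h11 : Real.log n ≤ ℓ := by linarith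
  have h12 : 3 * Real.log n * Real.log 2 ≤ 3 * ℓ * Real.log 2 := by
    have : 0 < Real.log 2 := by linarith
    nlinarith
  have h13 := Real.log_two_gt_d9
  nlinarith

end Pool.Agent.H87.RL
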