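import Pool.Agent.H87.RL.Machine

/-!
# Random linear systems in the exact real arithmetic model: the algorithm
-/

namespace Pool.Agent.H87.RL

/-! ## The algorithm -/

/-! ### index variables -/

/-- `q = 2 ^ K` is the least power of two that is at least `n` -/
abbrev iK : ℕ := 1
/-- `B = 2 ^ M` is the base used for packing -/
abbrev iM : ℕ := 2
/-- number of Newton steps -/
abbrev iT : ℕ := 3
/-- `D = 2 ^ L` is the common denominator of all rounded numbers -/
abbrev iL : ℕ := 4
abbrev iU : ℕ := 5
abbrev iV : ℕ := 6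
abbrev iW : ℕ := 7
abbrev iF : ℕ := 8
abbrev iS : ℕ := 9

/-! ### real variables -/

abbrev rP : ℕ := 1
abbrev rQ : ℕ := 2
/-- the base `B` -/
abbrev rB : ℕ := 3
/-- the denominator `D` -/
abbrev rD : ℕ := 4
/-- `B ^ (n - 1)` -/
abbrev rTop : ℕ := 5
/-- the sum of `(B / 2) B ^ j` for `j < n` -/
abbrev rSh : ℕ := 6
/-- `B / 2` -/
abbrev rHf : ℕ := 7
/-- the sum of the squares of the entries of `A` -/
abbrev rFr : ℕ := 8
abbrev rZ : ℕ := 9
abbrev rW : ℕ := 10
abbrev rH : ℕ := 11
abbrev rAcc : ℕ := 12
abbrev rPw : ℕ := 13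
abbrev rBB : ℕ := 14
abbrev rRR : ℕ := 15

/-! ### arrays -/

/-- `D A`, rounded to integers -/
abbrev aAr : ℕ := 3
/-- `D X`, where `X` is the current approximate inverse -/
abbrev aY : ℕ := 4
abbrev aP : ℕ := 5
abbrev aZ : ℕ := 6
abbrev aV : ℕ := 7
abbrev aX : ℕ := 8
/-- packed rows -/
abbrev aQ : ℕ := 9
/-- residual -/
abbrev aR : ℕ := 10
abbrev aU : ℕ := 11

/-- sequential composition of a list of programs -/
def block : List Cmd → Cmd
  | [] => .skip
  | [c] => c
  | c :: cs => .seq c (block cs)

/-- `for u < n, for v < n do c` -/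
def for2 (c : Cmd) : Cmd := .loop iU (.var iN) (.loop iV (.var iN) c)

/-- `rW := ⌊rZ⌋` if `0 ≤ rZ < B` (binary search, one comparison per bit) -/
def floorC : Cmd := block [
  .setr rW (.lit 0),
  .setr rH (.var rB),
  .loop iF (.var iM) (block [
    .setr rH (.div (.var rH) (.lit 2)),
    .ifLt (.var rZ) (.add (.var rW) (.var rH)) .skip (.setr rW (.add (.var rW) (.var rH)))])]

/-- `b[i,j] := ⌊e⌋` if `|e| < B / 2` -/
def roundC (b : ℕ) (i j : Ix) (e : Rx) : Cmd := block [
  .setr rZ (.add e (.var rHf)),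
  floorC,
  .put b i j (.sub (.var rW) (.var rHf))]

/-- pack row `iU` of the array `q` into one number -/
def packC (q : ℕ) : Cmd := block [
  .setr rAcc (.lit 0),
  .loop iV (.var iN)
    (.setr rAcc (.add (.mul (.var rAcc) (.var rB)) (.get q (.var iU)
      (.sub (.sub (.var iN) (.lit 1)) (.var iV))))),
  .put aQ (.var iU) (.lit 0) (.var rAcc)]

/-- compute row `iU` of the product `dst := p q` from the packed rows of `q` -/
def unpackC (dst p : ℕ) : Cmd := block [
  .setr rAcc (.var rSh),
  .loop iW (.var iN)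
    (.setr rAcc (.add (.var rAcc) (.mul (.get p (.var iU) (.var iW)) (.get aQ (.var iW) (.lit 0))))),
  .setr rPw (.var rTop),
  .loop iV (.var iN) (block [
    .setr rZ (.div (.var rAcc) (.var rPw)),
    floorC,
    .put dst (.var iU) (.sub (.sub (.var iN) (.lit 1)) (.var iV)) (.sub (.var rW) (.var rHf)),
    .setr rAcc (.sub (.var rAcc) (.mul (.var rW) (.var rPw))),
    .setr rPw (.div (.var rPw) (.var rB))])]

/-- product of two integer matrices with small entries: `dst := p q` -/
def prodC (dst p q : ℕ) : Cmd :=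
  .seq (.loop iU (.var iN) (packC q)) (.loop iU (.var iN) (unpackC dst p))

/-- one rounded Newton step `X := 2 X - X A X` -/
def newtonC : Cmd := block [
  prodC aP aAr aY,
  for2 (roundC aZ (.var iU) (.var iV) (.div (.get aP (.var iU) (.var iV)) (.var rD))),
  prodC aV aY aZ,
  for2 (roundC aP (.var iU) (.var iV) (.div (.get aV (.var iU) (.var iV)) (.var rD))),
  for2 (.put aY (.var iU) (.var iV)
    (.sub (.add (.get aY (.var iU) (.var iV)) (.get aY (.var iU) (.var iV)))
      (.get aP (.var iU) (.var iV))))]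

/-- compute `q = 2 ^ K`, and the numbers of bits `M`, `L` and of Newton steps `T` -/
def sizeC : Cmd := block [
  .setr rP (.lit 0),
  .loop iU (.var iN) (.setr rP (.add (.var rP) (.lit 1))),
  .setr rQ (.lit 1),
  .seti iK (.lit 0),
  .loop iU (.var iN) (.ifLt (.var rQ) (.var rP)
    (.seq (.setr rQ (.add (.var rQ) (.var rQ))) (.seti iK (.add (.var iK) (.lit 1)))) .skip),
  .seti iM (.lit 0),
  .loop iU (.lit 140) (.seti iM (.add (.var iM) (.var iK))),
  .seti iL (.lit 0),
  .loop iU (.lit 50) (.seti iL (.add (.var iL) (.var iK))),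
  .seti iT (.lit 0),
  .loop iU (.lit 100) (.seti iT (.add (.var iT) (.var iK)))]

/-- compute the powers of `B` and `D` needed, the Frobenius norm of `A`, round `A` and the
transpose of `A` divided by the square of the Frobenius norm -/
def startC : Cmd := block [
  .setr rB (.lit 1),
  .loop iU (.var iM) (.setr rB (.add (.var rB) (.var rB))),
  .setr rD (.lit 1),
  .loop iU (.var iL) (.setr rD (.add (.var rD) (.var rD))),
  .setr rHf (.div (.var rB) (.lit 2)),
  .setr rTop (.lit 1),
  .loop iU (.sub (.var iN) (.lit 1)) (.setr rTop (.mul (.var rTop) (.var rB))),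
  .setr rSh (.lit 0),
  .loop iU (.var iN) (.setr rSh (.add (.mul (.var rSh) (.var rB)) (.var rHf))),
  .setr rFr (.lit 0),
  for2 (.setr rFr (.add (.var rFr)
    (.mul (.get aA (.var iU) (.var iV)) (.get aA (.var iU) (.var iV))))),
  for2 (roundC aAr (.var iU) (.var iV) (.mul (.var rD) (.get aA (.var iU) (.var iV)))),
  for2 (roundC aY (.var iU) (.var iV)
    (.mul (.var rD) (.div (.get aA (.var iV) (.var iU)) (.var rFr))))]

/-- `rRR` := square of the norm of the residual -/
def normC : Cmd := .seq (.setr rRR (.lit 0))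
  (.loop iU (.var iN) (.setr rRR (.add (.var rRR)
    (.mul (.get aR (.var iU) (.lit 0)) (.get aR (.var iU) (.lit 0))))))

/-- matrix-vector product `aU := p * aR` or `aU := p * aU`: entry `iU` in `rAcc` -/
def dotC (p v : ℕ) : Cmd := .seq (.setr rAcc (.lit 0))
  (.loop iV (.var iN) (.setr rAcc (.add (.var rAcc)
    (.mul (.get p (.var iU) (.var iV)) (.get v (.var iV) (.lit 0))))))

/-- one step of iterative refinement: `u := X r`, `x := x + u`, `r := r - A u` -/
def refineC : Cmd := block [
  .loop iU (.var iN) (block [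
    dotC aX aR,
    .put aU (.var iU) (.lit 0) (.var rAcc),
    .put aOut (.var iU) (.lit 0) (.add (.get aOut (.var iU) (.lit 0)) (.var rAcc))]),
  .loop iU (.var iN) (block [
    dotC aA aU,
    .put aR (.var iU) (.lit 0) (.sub (.get aR (.var iU) (.lit 0)) (.var rAcc))]),
  normC]

/-- initialise the refinement: `x := 0`, `r := b`, `rBB := ε² |b|²` -/
def prepC : Cmd := block [
  for2 (.put aX (.var iU) (.var iV) (.div (.get aY (.var iU) (.var iV)) (.var rD))),
  .loop iU (.var iN) (.put aOut (.var iU) (.lit 0) (.lit 0)),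
  .loop iU (.var iN) (.put aR (.var iU) (.lit 0) (.get aB (.var iU) (.lit 0))),
  normC,
  .setr rBB (.mul (.mul (.var rE) (.var rE)) (.var rRR))]

/-- the complete algorithm -/
def algorithm : Cmd := block [
  sizeC,
  startC,
  .loop iS (.var iT) newtonC,
  prepC,
  .whileLt (.var rBB) (.var rRR) refineC]

/-- The output vector of the algorithm. -/
noncomputable def output {n : ℕ} (A : Fin n → Fin n → ℝ) (b : Fin n → ℝ) (ε : ℝ) : Fin n → ℝ :=
  fun j => (algorithm.run (input A b ε)).a aOut j 0

end Pool.Agent.H87.RL
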