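import Pool.Agent.H87.RL.Net

namespace Pool.Agent.H87.RL

open MeasureTheory ProbabilityTheory Matrix Set Filter Topology
open scoped ENNReal

/-- real matrix of a Boolean matrix -/
def rm {n : ℕ} (a w : ℝ) (M : Fin n → Fin n → Bool) : Fin n → Fin n → ℝ :=
  fun i j => vl a w (M i j)

/-- bound for the probability that a row is close to the span of the other rows -/
lemma disc_Bd {n m : ℕ} (hn : 5 ≤ n) {a w : ℝ} (hw : 1 ≤ w) (ha : |a| ≤ 1) (haw : |a + w| ≤ 1)
    (hs : 2 * m ≤ n) (k : Fin n) {τ : ℝ} (hτ : 2 * τ ≤ 1 / ((n ^ 2 : ℕ) : ℝ)) :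
    mM n {M | Bd (rm a w M) k τ} ≤
      ((n * (2 * n ^ 2 + 1)) ^ (2 * m) : ℕ) * 2⁻¹ ^ (n - 1) +
        ENNReal.ofReal (1 / √(2 * m + 1)) := by
  classical
  set C : Set (Fin n → Fin n → Bool) := {M | ∃ u, Unit1 u ∧ Comp (2 * m) (n ^ 2) u ∧
    ∀ j, j ≠ k → ∑ i, vl a w (M j i) * u i = 0} with hC
  have hsub : {M | Bd (rm a w M) k τ} ⊆ C ∪ {M | Bd (rm a w M) k τ ∧ M ∉ C} := by
    intro M hM
    by_cases h : M ∈ C
    · exact Or.inl h
    · exact Or.inr ⟨hM, h⟩
  refine (measure_mono hsub).trans ((measure_union_le _ _).trans (add_le_add ?_ ?_))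
  · exact comp_rows hn hw ha haw hs k
  · refine pi_section_le _ k MeasurableSet.of_discrete _ fun x => ?_
    obtain ⟨u, hu, hperp⟩ := exists_normal (rm a w x) k
    have hperp' : ∀ r : Fin n → Bool, ∀ j, j ≠ k →
        ∑ i, vl a w (Function.update x k r j i) * u i = 0 := by
      intro r j hj
      rw [Function.update_of_ne hj]
      exact hperp j hj
    by_cases hc : Comp (2 * m) (n ^ 2) u
    · have : {r : Fin n → Bool | Function.update x k r ∈ {M | Bd (rm a w M) k τ ∧ M ∉ C}} = ∅ := by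
        ext r
        simp only [mem_ofPred_eq, mem_empty_iff_false, iff_false, not_and, not_not]
        intro _
        exact ⟨u, hu, hc, hperp' r⟩
      rw [this, measure_empty]
      exact zero_le
    · rw [Comp, not_le] at hc
      obtain ⟨S, hS1, hS2⟩ := Finset.exists_subset_card_eq hc.le
      refine (measure_mono ?_).trans (lo_bound a w hw u (ρ := 1 / ((n ^ 2 : ℕ) : ℝ)) (τ := τ) S hS2
        (fun i hi => (Finset.mem_filter.1 (hS1 hi)).2.le) hτ)
      intro r hr
      have h1 := hr.1 u hu (fun j hj => hperp' r j hj)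
      simp only [rm, Function.update_self] at h1
      exact h1

/-- the exceptional matrices -/
lemma disc_bad {n m : ℕ} (hn : 5 ≤ n) {a w : ℝ} (hw : 1 ≤ w) (ha : |a| ≤ 1) (haw : |a + w| ≤ 1)
    (hm : 1 ≤ m) (hs : 2 * m ≤ n) :
    mM n {M | rm a w M ∉ good n} ≤
      ((n * (2 * n ^ 2 + 1)) ^ (2 * m) : ℕ) * 2⁻¹ ^ n +
      (n : ℝ≥0∞) * (((n * (2 * n ^ 2 + 1)) ^ (2 * m) : ℕ) * 2⁻¹ ^ (n - 1) +
        ENNReal.ofReal (1 / √(2 * m + 1))) / (2 * m : ℕ) := by
  classical
  have hn1 : (5 : ℝ) ≤ n := by exact_mod_cast hn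
  have hn0 : (0 : ℝ) < n := by linarith
  set τ : ℝ := 1 / (2 * (n : ℝ) ^ 2) with hτ
  have hτ2 : 2 * τ ≤ 1 / ((n ^ 2 : ℕ) : ℝ) := by
    rw [hτ]; push_cast
    refine le_of_eq ?_
    field_simp
  set f : (Fin n → Fin n → Bool) → ℝ≥0∞ :=
    fun M => ∑ k : Fin n, ({M | Bd (rm a w M) k τ} : Set (Fin n → Fin n → Bool)).indicator 1 M
    with hf
  have hsub : {M | rm a w M ∉ good n} ⊆
      {M | ∃ x, Unit1 x ∧ Comp (2 * m) (n ^ 2) x ∧
        ∀ i, |∑ k, x k * vl a w (M k i)| < 1 / (n : ℝ) ^ 6} ∪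
      {M | ((2 * m : ℕ) : ℝ≥0∞) ≤ f M} := by
    intro M hM
    have hM' : rm a w M ∉ good n := hM
    rcases not_good (by omega) hM' with ⟨i, j, h⟩ | ⟨x, hx, h⟩
    · exfalso
      have h1 : |rm a w M i j| ≤ 1 := abs_vl_le ha haw _
      linarith
    · by_cases hc : Comp (2 * m) (n ^ 2) x
      · exact Or.inl ⟨x, hx, hc, h⟩
      · right
        rw [Comp, not_le] at hc
        show ((2 * m : ℕ) : ℝ≥0∞) ≤ f M
        have h1 : ∀ k ∈ Finset.univ.filter (fun i => 1 / ((n ^ 2 : ℕ) : ℝ) < |x i|),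
            Bd (rm a w M) k τ := by
          intro k hk
          have hk' := (Finset.mem_filter.1 hk).2
          have h2 := bd_of (by omega) (rm a w M) h (ρ := 1 / ((n ^ 2 : ℕ) : ℝ)) (by positivity)
            hk'.le
          have h3 : (n : ℝ) * (1 / (n : ℝ) ^ 6) / (1 / ((n ^ 2 : ℕ) : ℝ)) ≤ τ := by
            rw [hτ]; push_cast
            have e : (n : ℝ) * (1 / (n : ℝ) ^ 6) / (1 / (n : ℝ) ^ 2) = 1 / (n : ℝ) ^ 3 := by
              field_simp
            rw [e]
            refine one_div_le_one_div_of_le (by positivity) ?_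
            have : (n : ℝ) ^ 3 = n * (n : ℝ) ^ 2 := by ring
            rw [this]
            exact mul_le_mul_of_nonneg_right (by linarith) (by positivity)
          intro u hu hp
          exact (h2 u hu hp).trans_le h3
        calc ((2 * m : ℕ) : ℝ≥0∞)
            ≤ ((Finset.univ.filter (fun i => 1 / ((n ^ 2 : ℕ) : ℝ) < |x i|)).card : ℝ≥0∞) := by
              exact_mod_cast hc.le
          _ = ∑ _k ∈ Finset.univ.filter (fun i => 1 / ((n ^ 2 : ℕ) : ℝ) < |x i|), (1 : ℝ≥0∞) := by
              simp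
          _ ≤ ∑ k ∈ Finset.univ.filter (fun i => 1 / ((n ^ 2 : ℕ) : ℝ) < |x i|),
                ({M | Bd (rm a w M) k τ} : Set (Fin n → Fin n → Bool)).indicator 1 M := by
              refine Finset.sum_le_sum fun k hk => ?_
              rw [indicator_of_mem (show M ∈ {M | Bd (rm a w M) k τ} from h1 k hk)]
              rfl
          _ ≤ f M := by
              rw [hf]
              exact Finset.sum_le_sum_of_subset (Finset.filter_subset _ _)
  refine (measure_mono hsub).trans ((measure_union_le _ _).trans (add_le_add ?_ ?_))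
  · exact comp_cols hn hw ha haw hs
  · have h0 : ((2 * m : ℕ) : ℝ≥0∞) ≠ 0 := by
      rw [Nat.cast_ne_zero]; omega
    rw [ENNReal.le_div_iff_mul_le (Or.inl h0) (Or.inl (ENNReal.natCast_ne_top _)), mul_comm]
    have hmeas : Measurable f := by
      refine Finset.measurable_sum _ fun k _ => ?_
      exact measurable_const.indicator MeasurableSet.of_discrete
    refine (mul_meas_ge_le_lintegral hmeas _).trans ?_
    rw [hf, lintegral_finsetSum _ fun k _ => by
      exact measurable_const.indicator MeasurableSet.of_discrete]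
    calc ∑ k : Fin n, ∫⁻ M, ({M | Bd (rm a w M) k τ} :
          Set (Fin n → Fin n → Bool)).indicator 1 M ∂(mM n)
        = ∑ k : Fin n, mM n {M | Bd (rm a w M) k τ} := by
          refine Finset.sum_congr rfl fun k _ => ?_
          rw [lintegral_indicator_one MeasurableSet.of_discrete]
      _ ≤ ∑ _k : Fin n, (((n * (2 * n ^ 2 + 1)) ^ (2 * m) : ℕ) * 2⁻¹ ^ (n - 1) +
            ENNReal.ofReal (1 / √(2 * m + 1))) :=
          Finset.sum_le_sum fun k _ => disc_Bd hn hw ha haw hs k hτ2
      _ = _ := by rw [Finset.sum_const, Finset.card_univ, Fintype.card_fin, nsmul_eq_mul]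

/-- transfer to the real matrix -/
lemma law_ge {X : Ensemble} {a w : ℝ} (hX : X.entry = mB.map (vl a w)) (n : ℕ) (S : Set (Fin n → Fin n → ℝ)) :
    mM n {M | rm a w M ∈ S} ≤ X.law n S := by
  have hv : Measurable (vl a w) := measurable_of_countable _
  have h1 : ∀ (ι : Type) [Fintype ι], (mC ι).map (fun r i => vl a w (r i)) =
      Measure.pi fun _ => X.entry := by
    intro ι _
    have : IsProbabilityMeasure (mB.map (vl a w)) := Measure.isProbabilityMeasure_map hv.aemeasurable
    rw [mC, Measure.pi_map_pi (fun _ => hv.aemeasurable), hX]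
  have h2 : (mM n).map (rm a w) = X.law n := by
    have hr : Measurable (fun (r : Fin n → Bool) i => vl a w (r i)) := measurable_of_countable _
    have : IsProbabilityMeasure ((mC (Fin n)).map (fun r i => vl a w (r i))) :=
      Measure.isProbabilityMeasure_map hr.aemeasurable
    have h3 := Measure.pi_map_pi (μ := fun _ : Fin n => mC (Fin n))
      (f := fun _ (r : Fin n → Bool) i => vl a w (r i)) (fun _ => hr.aemeasurable)
    unfold Ensemble.law
    rw [← h1 (Fin n), ← h3]
    rfl
  rw [← h2]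
  exact Measure.le_map_apply (measurable_of_countable _).aemeasurable S

end Pool.Agent.H87.RL
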