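import Pool.Agent.H87.RL.Sec
import Pool.Agent.H87.RL.Defs

namespace Pool.Agent.H87.RL

open MeasureTheory ProbabilityTheory Matrix Set Filter Topology
open scoped ENNReal

/-! ### the good matrices -/

/-- The set of all matrices for which the algorithm is proved to work. -/
def good (n : ℕ) : Set (Fin n → Fin n → ℝ) :=
  {A | (∀ i j, |A i j| ≤ n) ∧ ∀ v : Fin n → ℝ, nrm v ≤ (n : ℝ) ^ 7 * nrm (Matrix.of A *ᵥ v)}

lemma isClosed_good (n : ℕ) : IsClosed (good n) := by
  have h1 : IsClosed {A : Fin n → Fin n → ℝ | ∀ i j, |A i j| ≤ n} := by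
    simp only [ofPred_forall]
    refine isClosed_iInter fun i => isClosed_iInter fun j => ?_
    exact isClosed_le (by fun_prop) continuous_const
  have h2 : IsClosed {A : Fin n → Fin n → ℝ |
      ∀ v : Fin n → ℝ, nrm v ≤ (n : ℝ) ^ 7 * nrm (Matrix.of A *ᵥ v)} := by
    simp only [ofPred_forall]
    refine isClosed_iInter fun v => isClosed_le continuous_const ?_
    have : Continuous fun A : Fin n → Fin n → ℝ => nrm (Matrix.of A *ᵥ v) := by
      have e : (fun A : Fin n → Fin n → ℝ => nrm (Matrix.of A *ᵥ v)) =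
          fun A => √(∑ i, (∑ j, A i j * v j) ^ 2) := by
        funext A
        rw [nrm_eq]
        rfl
      rw [e]
      fun_prop
    fun_prop
  exact h1.inter h2

lemma tendsto_one_of_compl {Ω : ℕ → Type*} [∀ n, MeasurableSpace (Ω n)]
    (P : ∀ n, Measure (Ω n)) [∀ n, IsProbabilityMeasure (P n)] (S : ∀ n, Set (Ω n))
    (f : ℕ → ℝ≥0∞) (hf : Tendsto f atTop (𝓝 0)) (h : ∀ᶠ n in atTop, P n (S n)ᶜ ≤ f n) :
    Tendsto (fun n => P n (S n)) atTop (𝓝 1) := by
  have h1 : Tendsto (fun n => 1 - f n) atTop (𝓝 1) := by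
    have := ENNReal.Tendsto.sub (tendsto_const_nhds (x := (1 : ℝ≥0∞)) (f := atTop (α := ℕ))) hf
      (Or.inl (by simp))
    simpa using this
  refine tendsto_of_tendsto_of_tendsto_of_le_of_le' h1 tendsto_const_nhds ?_
    (Eventually.of_forall fun n => prob_le_one)
  filter_upwards [h] with n hn
  rw [tsub_le_iff_right]
  calc (1 : ℝ≥0∞) = P n univ := measure_univ.symm
    _ = P n (S n ∪ (S n)ᶜ) := by rw [union_compl_self]
    _ ≤ P n (S n) + P n (S n)ᶜ := measure_union_le _ _
    _ ≤ _ := by gcongr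

/-! ### measurability -/

lemma isOpen_Bd {n : ℕ} (k : Fin n) (τ : ℝ) : IsOpen {A : Fin n → Fin n → ℝ | Bd A k τ} := by
  rw [← isClosed_compl_iff]
  set U : Set (Fin n → ℝ) := {u | Unit1 u} with hU
  have hUc : IsCompact U := by
    have h1 : IsClosed U := by
      have e : U = (⋂ i, {u : Fin n → ℝ | |u i| ≤ 1}) ∩ ⋃ i, {u : Fin n → ℝ | |u i| = 1} := by
        ext u
        simp [hU, Unit1]
      rw [e]
      refine IsClosed.inter (isClosed_iInter fun i => isClosed_le (by fun_prop) continuous_const) ?_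
      exact isClosed_iUnion_of_finite fun i => isClosed_eq (by fun_prop) continuous_const
    refine (isCompact_univ_pi (fun _ : Fin n => isCompact_Icc (a := (-1 : ℝ)) (b := 1))).of_isClosed_subset
      h1 ?_
    intro u hu i _
    exact abs_le.1 (hu.1 i)
  have : CompactSpace U := isCompact_iff_compactSpace.1 hUc
  set Z : Set ((Fin n → Fin n → ℝ) × U) :=
    {p | (∀ j, j ≠ k → ∑ i, p.1 j i * p.2.1 i = 0) ∧ τ ≤ |∑ i, p.1 k i * p.2.1 i|} with hZ
  have hZc : IsClosed Z := by
    have e : Z = (⋂ j, ⋂ (_ : j ≠ k), {p : (Fin n → Fin n → ℝ) × U | ∑ i, p.1 j i * p.2.1 i = 0}) ∩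
        {p | τ ≤ |∑ i, p.1 k i * p.2.1 i|} := by
      ext p; simp [hZ]
    have hc : ∀ j : Fin n, Continuous fun p : (Fin n → Fin n → ℝ) × U =>
        ∑ i, p.1 j i * p.2.1 i := fun j => continuous_finsetSum _ fun i _ =>
      ((continuous_apply i).comp ((continuous_apply j).comp continuous_fst)).mul
        ((continuous_apply i).comp (continuous_subtype_val.comp continuous_snd))
    rw [e]
    refine IsClosed.inter (isClosed_iInter fun j => isClosed_iInter fun _ => ?_) ?_
    · exact isClosed_eq (hc j) continuous_const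
    · exact isClosed_le continuous_const (hc k).abs
  have e2 : {A : Fin n → Fin n → ℝ | Bd A k τ}ᶜ = Prod.fst '' Z := by
    ext A
    simp only [mem_compl_iff, mem_ofPred_eq, Bd, not_forall, not_lt, mem_image, Prod.exists]
    constructor
    · rintro ⟨u, h1, h2, h3⟩
      exact ⟨A, ⟨u, h1⟩, ⟨fun j hj => h2 j hj, h3⟩, rfl⟩
    · rintro ⟨A', u, ⟨h1, h2⟩, rfl⟩
      exact ⟨u.1, u.2, fun j hj => h1 j hj, h2⟩
  rw [e2]
  exact isClosedMap_fst_of_compactSpace _ hZc

/-! ### Gaussian entries -/

lemma gaussian_pdf_le (x : ℝ) : gaussianPDF 0 1 x ≤ ENNReal.ofReal (1 / 2) := by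
  rw [gaussianPDF]
  refine ENNReal.ofReal_le_ofReal ?_
  rw [gaussianPDFReal_def]
  have h1 : (2 : ℝ) ≤ √(2 * Real.pi * ((1 : NNReal) : ℝ)) := by
    rw [NNReal.coe_one, mul_one]
    refine Real.le_sqrt_of_sq_le ?_
    have := Real.pi_gt_three
    linarith
  have h2 : Real.exp (-(x - 0) ^ 2 / (2 * ((1 : NNReal) : ℝ))) ≤ 1 := by
    rw [Real.exp_le_one_iff, NNReal.coe_one]
    have := sq_nonneg (x - 0)
    linarith
  calc (√(2 * Real.pi * ((1 : NNReal) : ℝ)))⁻¹ * Real.exp (-(x - 0) ^ 2 / (2 * ((1 : NNReal) : ℝ)))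
      ≤ (2 : ℝ)⁻¹ * 1 := mul_le_mul (inv_anti₀ (by norm_num) h1) h2 (Real.exp_pos _).le
        (by norm_num)
    _ = _ := by norm_num

lemma gaussian_interval {a c τ : ℝ} (ha : |a| = 1) :
    gaussianReal 0 1 {t | |t * a + c| < τ} ≤ ENNReal.ofReal τ := by
  have h1 : {t : ℝ | |t * a + c| < τ} ⊆ Metric.ball (-(c * a)) τ := by
    intro t ht
    rw [Metric.mem_ball, Real.dist_eq]
    have haa : a * a = 1 := by
      have : |a| * |a| = 1 := by rw [ha]; norm_num
      rwa [abs_mul_abs_self] at this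
    have h2 : t * a + c = a * (t - -(c * a)) := by linear_combination -c * haa
    have ht' : |t * a + c| < τ := ht
    rw [h2, abs_mul, ha, one_mul] at ht'
    exact ht'
  rw [gaussianReal_apply 0 one_ne_zero]
  calc ∫⁻ x in {t : ℝ | |t * a + c| < τ}, gaussianPDF 0 1 x
      ≤ ∫⁻ _x in {t : ℝ | |t * a + c| < τ}, ENNReal.ofReal (1 / 2) :=
        lintegral_mono fun x => gaussian_pdf_le x
    _ = ENNReal.ofReal (1 / 2) * volume {t : ℝ | |t * a + c| < τ} := by
        rw [setLIntegral_const]
    _ ≤ ENNReal.ofReal (1 / 2) * volume (Metric.ball (-(c * a)) τ) := by gcongr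
    _ = ENNReal.ofReal τ := by
        rw [Real.volume_ball, ← ENNReal.ofReal_mul (by norm_num)]
        congr 1; ring

lemma gaussian_tail (m : ℝ) :
    gaussianReal 0 1 {t | m < |t|} ≤ ENNReal.ofReal (2 * Real.exp (1 / 2 - m)) := by
  have h1 : (gaussianReal 0 1).real {t | m ≤ t} ≤ Real.exp (1 / 2 - m) := by
    have h2 := measure_ge_le_exp_mul_mgf (μ := gaussianReal 0 1) (X := fun x => x) (t := 1) m
      (by norm_num) (integrable_exp_mul_gaussianReal 1)
    rw [mgf_fun_id_gaussianReal] at h2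
    refine h2.trans (le_of_eq ?_)
    rw [← Real.exp_add]
    congr 1
    norm_num
    ring
  have h3 : (gaussianReal 0 1).real {t | t ≤ -m} ≤ Real.exp (1 / 2 - m) := by
    have h2 := measure_le_le_exp_mul_mgf (μ := gaussianReal 0 1) (X := fun x => x) (t := -1) (-m)
      (by norm_num) (integrable_exp_mul_gaussianReal (-1))
    rw [mgf_fun_id_gaussianReal] at h2
    refine h2.trans (le_of_eq ?_)
    rw [← Real.exp_add]
    congr 1
    norm_num
    ring
  calc gaussianReal 0 1 {t | m < |t|} ≤ gaussianReal 0 1 ({t | m ≤ t} ∪ {t | t ≤ -m}) := by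
        refine measure_mono fun t ht => ?_
        have ht' : m < |t| := ht
        rcases lt_abs.1 ht' with h | h
        · exact Or.inl h.le
        · exact Or.inr (by show t ≤ -m; linarith)
    _ ≤ gaussianReal 0 1 {t | m ≤ t} + gaussianReal 0 1 {t | t ≤ -m} := measure_union_le _ _
    _ ≤ ENNReal.ofReal (Real.exp (1 / 2 - m)) + ENNReal.ofReal (Real.exp (1 / 2 - m)) := by
        refine add_le_add ?_ ?_
        · rw [← ofReal_measureReal]; exact ENNReal.ofReal_le_ofReal h1
        · rw [← ofReal_measureReal]; exact ENNReal.ofReal_le_ofReal h3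
    _ = _ := by
        rw [← ENNReal.ofReal_add (Real.exp_pos _).le (Real.exp_pos _).le]
        congr 1; ring

lemma measurable_row_set {n : ℕ} (u : Fin n → ℝ) (τ : ℝ) :
    MeasurableSet {r : Fin n → ℝ | |∑ i, r i * u i| < τ} := by
  refine IsOpen.measurableSet (isOpen_lt ?_ continuous_const)
  fun_prop

lemma gaussian_row {n : ℕ} {u : Fin n → ℝ} (hu : Unit1 u) (τ : ℝ) :
    Measure.pi (fun _ : Fin n => gaussianReal 0 1) {r | |∑ i, r i * u i| < τ} ≤
      ENNReal.ofReal τ := by
  obtain ⟨k, hk⟩ := hu.2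
  refine pi_section_le _ k (measurable_row_set u τ) _ fun x => ?_
  have e : {y : ℝ | Function.update x k y ∈ {r : Fin n → ℝ | |∑ i, r i * u i| < τ}} =
      {t | |t * u k + ∑ i ∈ Finset.univ.erase k, x i * u i| < τ} := by
    ext y
    simp only [mem_ofPred_eq]
    rw [← Finset.add_sum_erase _ _ (Finset.mem_univ k)]
    have h1 : ∑ i ∈ Finset.univ.erase k, Function.update x k y i * u i =
        ∑ i ∈ Finset.univ.erase k, x i * u i := by
      refine Finset.sum_congr rfl fun i hi => ?_
      rw [Function.update_of_ne (Finset.ne_of_mem_erase hi)]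
    rw [h1, Function.update_self]
  rw [e]
  exact gaussian_interval hk

lemma gaussian_Bd {n : ℕ} (k : Fin n) (τ : ℝ) :
    Ensemble.gaussian.law n {A | Bd A k τ} ≤ ENNReal.ofReal τ := by
  unfold Ensemble.law
  have : IsProbabilityMeasure (Ensemble.gaussian.entry) := by unfold Ensemble.entry; infer_instance
  refine pi_section_le _ k (isOpen_Bd k τ).measurableSet _ fun x => ?_
  obtain ⟨u, hu, hperp⟩ := exists_normal x k
  refine (measure_mono ?_).trans (gaussian_row hu τ)
  intro r hr
  have h1 := hr u hu (fun j hj => by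
    rw [Function.update_of_ne hj]; exact hperp j hj)
  rw [Function.update_self] at h1
  exact h1

lemma instProb (X : Ensemble) : IsProbabilityMeasure X.entry := by
  cases X with
  | gaussian => unfold Ensemble.entry; infer_instance
  | rademacher =>
    refine ⟨?_⟩
    simp only [Ensemble.entry, Measure.smul_apply, Measure.add_apply, measure_univ, smul_eq_mul]
    rw [one_add_one_eq_two, ENNReal.inv_mul_cancel (by norm_num) (by norm_num)]
  | bernoulli =>
    refine ⟨?_⟩
    simp only [Ensemble.entry, Measure.smul_apply, Measure.add_apply, measure_univ, smul_eq_mul]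
    rw [one_add_one_eq_two, ENNReal.inv_mul_cancel (by norm_num) (by norm_num)]

instance (X : Ensemble) : IsProbabilityMeasure X.entry := instProb X

instance (X : Ensemble) (n : ℕ) : IsProbabilityMeasure (X.law n) := by
  unfold Ensemble.law; infer_instance

lemma law_entry (X : Ensemble) {n : ℕ} (i j : Fin n) {T : Set ℝ} (hT : MeasurableSet T) :
    X.law n {A | A i j ∈ T} = X.entry T := by
  unfold Ensemble.law
  have h1 := (measurePreserving_eval (fun _ : Fin n => X.entry) j).comp
    (measurePreserving_eval (fun _ : Fin n => Measure.pi fun _ : Fin n => X.entry) i)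
  exact h1.measure_preimage hT.nullMeasurableSet

lemma not_good {n : ℕ} (hn : 1 ≤ n) {A : Fin n → Fin n → ℝ} (hA : A ∉ good n) :
    (∃ i j, (n : ℝ) < |A i j|) ∨
      ∃ x : Fin n → ℝ, Unit1 x ∧ ∀ i, |∑ k, x k * A k i| < 1 / (n : ℝ) ^ 6 := by
  by_cases h : ∀ i j, |A i j| ≤ n
  · right
    refine lowB_fail hn A fun hL => hA ⟨h, ?_⟩
    exact hL.transpose
  · left
    push Not at h
    exact h

theorem gaussian_good : Tendsto (fun n => Ensemble.gaussian.law n (good n)) atTop (𝓝 1) := by
  refine tendsto_one_of_compl _ _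
    (fun n => ENNReal.ofReal ((n : ℝ) ^ 2 * (2 * Real.exp (1 / 2 - n)) + n * (1 / (n : ℝ) ^ 5)))
    ?_ ?_
  · rw [← ENNReal.ofReal_zero]
    refine ENNReal.tendsto_ofReal ?_
    have h1 : Tendsto (fun n : ℕ => (n : ℝ) ^ 2 * (2 * Real.exp (1 / 2 - n))) atTop (𝓝 0) := by
      have h2 := (Real.tendsto_pow_mul_exp_neg_atTop_nhds_zero 2).comp
        (tendsto_natCast_atTop_atTop (R := ℝ))
      have h3 := h2.const_mul (2 * Real.exp (1 / 2))
      rw [mul_zero] at h3
      refine h3.congr fun n => ?_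
      simp only [Function.comp]
      rw [show (1 / 2 : ℝ) - n = 1 / 2 + -n by ring, Real.exp_add]
      ring
    have h4 : Tendsto (fun n : ℕ => (n : ℝ) * (1 / (n : ℝ) ^ 5)) atTop (𝓝 0) := by
      have h5 : Tendsto (fun n : ℕ => 1 / (n : ℝ)) atTop (𝓝 0) :=
        tendsto_one_div_atTop_nhds_zero_nat
      refine squeeze_zero' (Eventually.of_forall fun n => by positivity) ?_ h5
      filter_upwards [eventually_ge_atTop 1] with n hn
      have hn' : (1 : ℝ) ≤ n := by exact_mod_cast hn
      rw [mul_one_div, div_le_div_iff₀ (by positivity) (by positivity)]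
      have : (n : ℝ) ^ 2 ≤ (n : ℝ) ^ 5 := pow_le_pow_right₀ hn' (by norm_num)
      nlinarith
    have := h1.add h4
    rwa [add_zero] at this
  · filter_upwards [eventually_ge_atTop 1] with n hn
    have hn' : (1 : ℝ) ≤ n := by exact_mod_cast hn
    have hsub : (good n)ᶜ ⊆ (⋃ i : Fin n, ⋃ j : Fin n, {A | A i j ∈ {t : ℝ | (n : ℝ) < |t|}}) ∪
        ⋃ k : Fin n, {A | Bd A k (1 / (n : ℝ) ^ 5)} := by
      intro A hA
      rcases not_good hn hA with ⟨i, j, h⟩ | ⟨x, hx, h⟩
      · left
        rw [mem_iUnion]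
        exact ⟨i, mem_iUnion.2 ⟨j, h⟩⟩
      · right
        obtain ⟨k, hk⟩ := hx.2
        rw [mem_iUnion]
        refine ⟨k, ?_⟩
        have h1 := bd_of hn A h zero_lt_one hk.ge
        have e : (n : ℝ) * (1 / (n : ℝ) ^ 6) / 1 = 1 / (n : ℝ) ^ 5 := by
          field_simp
        rw [e] at h1
        exact h1
    refine (measure_mono hsub).trans ((measure_union_le _ _).trans ?_)
    rw [ENNReal.ofReal_add (by positivity) (by positivity)]
    refine add_le_add ?_ ?_
    · refine (measure_iUnion_fintype_le _ _).trans ?_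
      calc ∑ i : Fin n, Ensemble.gaussian.law n
            (⋃ j : Fin n, {A | A i j ∈ {t : ℝ | (n : ℝ) < |t|}})
          ≤ ∑ _i : Fin n, ∑ _j : Fin n, ENNReal.ofReal (2 * Real.exp (1 / 2 - n)) := by
            refine Finset.sum_le_sum fun i _ => (measure_iUnion_fintype_le _ _).trans ?_
            refine Finset.sum_le_sum fun j _ => ?_
            rw [law_entry]
            · exact gaussian_tail n
            · exact (isOpen_lt continuous_const continuous_abs).measurableSet
        _ = _ := by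
            simp only [Finset.sum_const, Finset.card_univ, Fintype.card_fin, nsmul_eq_mul]
            rw [← ENNReal.ofReal_natCast, ← mul_assoc, ← ENNReal.ofReal_mul (by positivity),
              ← ENNReal.ofReal_mul (by positivity), sq]
    · refine (measure_iUnion_fintype_le _ _).trans ?_
      calc ∑ k : Fin n, Ensemble.gaussian.law n {A | Bd A k (1 / (n : ℝ) ^ 5)}
          ≤ ∑ _k : Fin n, ENNReal.ofReal (1 / (n : ℝ) ^ 5) :=
            Finset.sum_le_sum fun k _ => gaussian_Bd k _
        _ = _ := by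
            simp only [Finset.sum_const, Finset.card_univ, Fintype.card_fin, nsmul_eq_mul]
            rw [ENNReal.ofReal_mul (by positivity), ENNReal.ofReal_natCast]

end Pool.Agent.H87.RL
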