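import Pool.Agent.H87.RL.Defs

namespace Pool.Agent.H87.RL

/-! ### simp lemmas -/

@[simp] lemma seti_r (s : Mem) (x z : ℕ) : (s.seti x z).r = s.r := rfl
@[simp] lemma seti_a (s : Mem) (x z : ℕ) : (s.seti x z).a = s.a := rfl
@[simp] lemma setr_i (s : Mem) (x : ℕ) (z : ℝ) : (s.setr x z).i = s.i := rfl
@[simp] lemma setr_a (s : Mem) (x : ℕ) (z : ℝ) : (s.setr x z).a = s.a := rfl
@[simp] lemma seta_i (s : Mem) (b i j : ℕ) (z : ℝ) : (s.seta b i j z).i = s.i := rfl
@[simp] lemma seta_r (s : Mem) (b i j : ℕ) (z : ℝ) : (s.seta b i j z).r = s.r := rfl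

lemma seti_i (s : Mem) (x z y : ℕ) : (s.seti x z).i y = if y = x then z else s.i y := rfl
lemma setr_r (s : Mem) (x : ℕ) (z : ℝ) (y : ℕ) : (s.setr x z).r y = if y = x then z else s.r y := rfl
lemma seta_a (s : Mem) (b i j : ℕ) (z : ℝ) (c i' j' : ℕ) :
    (s.seta b i j z).a c i' j' = if c = b ∧ i' = i ∧ j' = j then z else s.a c i' j' := rfl

lemma seti_ne (s : Mem) {x y : ℕ} (z : ℕ) (h : y ≠ x) : (s.seti x z).i y = s.i y := by
  simp [Mem.seti, h]
lemma setr_ne (s : Mem) {x y : ℕ} (z : ℝ) (h : y ≠ x) : (s.setr x z).r y = s.r y := by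
  simp [Mem.setr, h]
lemma seta_ne (s : Mem) {b c : ℕ} (i j : ℕ) (z : ℝ) (h : c ≠ b) :
    (s.seta b i j z).a c = s.a c := by
  funext i' j'; simp [seta_a, h]
lemma seti_self (s : Mem) (x z : ℕ) : (s.seti x z).i x = z := by simp [Mem.seti]
lemma setr_self (s : Mem) (x : ℕ) (z : ℝ) : (s.setr x z).r x = z := by simp [Mem.setr]

/-! ### frames -/

/-- does the program write index variable `x`? -/
def Cmd.wi (x : ℕ) : Cmd → Bool
  | .skip => false
  | .seti y _ => x == y
  | .setr _ _ => false
  | .put _ _ _ _ => false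
  | .seq c d => c.wi x || d.wi x
  | .ifLt _ _ c d => c.wi x || d.wi x
  | .loop y _ c => x == y || c.wi x
  | .whileLt _ _ c => c.wi x

/-- does the program write real variable `x`? -/
def Cmd.wr (x : ℕ) : Cmd → Bool
  | .skip => false
  | .seti _ _ => false
  | .setr y _ => x == y
  | .put _ _ _ _ => false
  | .seq c d => c.wr x || d.wr x
  | .ifLt _ _ c d => c.wr x || d.wr x
  | .loop _ _ c => c.wr x
  | .whileLt _ _ c => c.wr x

/-- does the program write array `b`? -/
def Cmd.wa (b : ℕ) : Cmd → Bool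
  | .skip => false
  | .seti _ _ => false
  | .setr _ _ => false
  | .put b' _ _ _ => b == b'
  | .seq c d => c.wa b || d.wa b
  | .ifLt _ _ c d => c.wa b || d.wa b
  | .loop _ _ c => c.wa b
  | .whileLt _ _ c => c.wa b

theorem iterate_inv {f : Mem → Mem} {p : Mem → Prop} (hf : ∀ s, p s → p (f s)) (N : ℕ) :
    ∀ s, p s → p (f^[N] s) := by
  induction N with
  | zero => intro s h; exact h
  | succ N ih => intro s h; rw [Function.iterate_succ_apply]; exact ih _ (hf s h)

theorem Cmd.run_i (x : ℕ) (c : Cmd) : c.wi x = false → ∀ s, (c.run s).i x = s.i x := by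
  induction c with
  | skip => intro _ s; simp [Cmd.run]
  | seti y e =>
    intro h s
    simp only [Cmd.wi, beq_eq_false_iff_ne] at h
    simp only [Cmd.run]
    exact seti_ne s _ h
  | setr y e => intro _ s; simp [Cmd.run]
  | put b i j e => intro _ s; simp [Cmd.run]
  | seq c d ihc ihd =>
    intro h s
    simp only [Cmd.wi, Bool.or_eq_false_iff] at h
    simp only [Cmd.run]
    rw [ihd h.2, ihc h.1]
  | ifLt e f c d ihc ihd =>
    intro h s
    simp only [Cmd.wi, Bool.or_eq_false_iff] at h
    simp only [Cmd.run]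
    split_ifs
    · exact ihc h.1 s
    · exact ihd h.2 s
  | loop y z c ih =>
    intro h s
    simp only [Cmd.wi, Bool.or_eq_false_iff, beq_eq_false_iff_ne] at h
    simp only [Cmd.run]
    generalize z.val s = N
    induction N with
    | zero => rfl
    | succ N ihN =>
      simp only [iter]
      rw [ih h.2, seti_ne _ _ h.1, ihN]
  | whileLt e f c ih =>
    intro h s
    simp only [Cmd.wi] at h
    simp only [Cmd.run]
    split_ifs with hN
    · exact iterate_inv (p := fun s' => s'.i x = s.i x)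
        (fun s' hs' => (ih h s').trans hs') _ s rfl
    · rfl

theorem Cmd.run_r (x : ℕ) (c : Cmd) : c.wr x = false → ∀ s, (c.run s).r x = s.r x := by
  induction c with
  | skip => intro _ s; simp [Cmd.run]
  | seti y e => intro _ s; simp [Cmd.run]
  | setr y e =>
    intro h s
    simp only [Cmd.wr, beq_eq_false_iff_ne] at h
    simp only [Cmd.run]
    exact setr_ne s _ h
  | put b i j e => intro _ s; simp [Cmd.run]
  | seq c d ihc ihd =>
    intro h s
    simp only [Cmd.wr, Bool.or_eq_false_iff] at h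
    simp only [Cmd.run]
    rw [ihd h.2, ihc h.1]
  | ifLt e f c d ihc ihd =>
    intro h s
    simp only [Cmd.wr, Bool.or_eq_false_iff] at h
    simp only [Cmd.run]
    split_ifs
    · exact ihc h.1 s
    · exact ihd h.2 s
  | loop y z c ih =>
    intro h s
    simp only [Cmd.wr] at h
    simp only [Cmd.run]
    generalize z.val s = N
    induction N with
    | zero => rfl
    | succ N ihN =>
      simp only [iter]
      rw [ih h, seti_r, ihN]
  | whileLt e f c ih =>
    intro h s
    simp only [Cmd.wr] at h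
    simp only [Cmd.run]
    split_ifs with hN
    · exact iterate_inv (p := fun s' => s'.r x = s.r x)
        (fun s' hs' => (ih h s').trans hs') _ s rfl
    · rfl

theorem Cmd.run_a (b : ℕ) (c : Cmd) : c.wa b = false → ∀ s, (c.run s).a b = s.a b := by
  induction c with
  | skip => intro _ s; simp [Cmd.run]
  | seti y e => intro _ s; simp [Cmd.run]
  | setr y e => intro _ s; simp [Cmd.run]
  | put b' i j e =>
    intro h s
    simp only [Cmd.wa, beq_eq_false_iff_ne] at h
    simp only [Cmd.run]
    exact seta_ne s _ _ _ h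
  | seq c d ihc ihd =>
    intro h s
    simp only [Cmd.wa, Bool.or_eq_false_iff] at h
    simp only [Cmd.run]
    rw [ihd h.2, ihc h.1]
  | ifLt e f c d ihc ihd =>
    intro h s
    simp only [Cmd.wa, Bool.or_eq_false_iff] at h
    simp only [Cmd.run]
    split_ifs
    · exact ihc h.1 s
    · exact ihd h.2 s
  | loop y z c ih =>
    intro h s
    simp only [Cmd.wa] at h
    simp only [Cmd.run]
    generalize z.val s = N
    induction N with
    | zero => rfl
    | succ N ihN =>
      simp only [iter]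
      rw [ih h, seti_a, ihN]
  | whileLt e f c ih =>
    intro h s
    simp only [Cmd.wa] at h
    simp only [Cmd.run]
    split_ifs with hN
    · exact iterate_inv (p := fun s' => s'.a b = s.a b)
        (fun s' hs' => (ih h s').trans hs') _ s rfl
    · rfl

/-- `s'` agrees with `s` outside the things written by `c` -/
structure Fr (c : Cmd) (s s' : Mem) : Prop where
  i : ∀ z, c.wi z = false → s'.i z = s.i z
  r : ∀ z, c.wr z = false → s'.r z = s.r z
  a : ∀ b, c.wa b = false → s'.a b = s.a b

lemma Fr.run (c : Cmd) (s : Mem) : Fr c s (c.run s) :=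
  ⟨fun z h => c.run_i z h s, fun z h => c.run_r z h s, fun b h => c.run_a b h s⟩

lemma Fr.refl (c : Cmd) (s : Mem) : Fr c s s := ⟨fun _ _ => rfl, fun _ _ => rfl, fun _ _ => rfl⟩

lemma Fr.trans {c : Cmd} {s s' s'' : Mem} (h : Fr c s s') (h' : Fr c s' s'') : Fr c s s'' :=
  ⟨fun z hz => (h'.i z hz).trans (h.i z hz), fun z hz => (h'.r z hz).trans (h.r z hz),
    fun z hz => (h'.a z hz).trans (h.a z hz)⟩

/-- Invariant rule for loops. -/
theorem loop_inv (x : ℕ) (e : Ix) (c : Cmd) (s : Mem) (N : ℕ) (hN : e.val s = N)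
    (P : ℕ → Mem → Prop) (h0 : P 0 s)
    (hstep : ∀ j < N, ∀ s' : Mem, Fr (.loop x e c) s s' → P j s' →
      P (j + 1) (c.run (s'.seti x j))) :
    P N ((Cmd.loop x e c).run s) := by
  simp only [Cmd.run]
  rw [hN]
  have key : ∀ j ≤ N, P j (iter (fun j s' => c.run (s'.seti x j)) j s) ∧
      Fr (.loop x e c) s (iter (fun j s' => c.run (s'.seti x j)) j s) := by
    intro j
    induction j with
    | zero => intro _; exact ⟨h0, Fr.refl _ _⟩
    | succ j ih =>
      intro hj
      obtain ⟨h1, h2⟩ := ih (by omega)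
      refine ⟨hstep j (by omega) _ h2 h1, ?_, ?_, ?_⟩
      · intro z hz
        have hz' := hz
        simp only [Cmd.wi, Bool.or_eq_false_iff, beq_eq_false_iff_ne] at hz'
        simp only [iter]
        rw [c.run_i z hz'.2, seti_ne _ _ hz'.1, h2.i z hz]
      · intro z hz
        simp only [iter]
        rw [c.run_r z (by simpa [Cmd.wr] using hz), seti_r, h2.r z hz]
      · intro z hz
        simp only [iter]
        rw [c.run_a z (by simpa [Cmd.wa] using hz), seti_a, h2.a z hz]
  exact (key N le_rfl).1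

/-- Invariant rule for the double loop over `iU, iV < n`. -/
theorem for2_inv (c : Cmd) (hw : c.wi iN = false) (hw1 : c.wi iU = false) (s : Mem) (n : ℕ)
    (hn : s.i iN = n) (P : ℕ → ℕ → Mem → Prop) (h0 : P 0 0 s)
    (hU : ∀ i < n, ∀ s', P i 0 s' → P i 0 (s'.seti iU i))
    (hstep : ∀ i < n, ∀ j < n, ∀ s' : Mem, Fr (for2 c) s s' → s'.i iU = i → P i j s' →
      P i (j + 1) (c.run (s'.seti iV j)))
    (hwrap : ∀ i < n, ∀ s', P i n s' → P (i + 1) 0 s') :
    P n 0 ((for2 c).run s) := by
  refine loop_inv iU (.var iN) _ s n hn (fun i s' => P i 0 s') h0 ?_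
  intro i hi s' hfr hP
  have hn' : (Ix.var iN).val (s'.seti iU i) = n := by
    change (s'.seti iU i).i iN = n
    rw [seti_ne _ _ (by decide), hfr.i iN ?_, hn]
    simp only [Cmd.wi, hw, Bool.or_false]; decide
  refine hwrap i hi _ (loop_inv iV _ _ _ n hn' (fun j s'' => P i j s'') (hU i hi _ hP) ?_)
  intro j hj s'' hfr' hP'
  refine hstep i hi j hj s'' ⟨?_, ?_, ?_⟩ ?_ hP'
  · intro z hz
    have hz' := hz
    simp only [for2, Cmd.wi, Bool.or_eq_false_iff, beq_eq_false_iff_ne] at hz'
    rw [hfr'.i z (by simp [Cmd.wi, hz'.2.2, hz'.2.1]), seti_ne _ _ hz'.1, hfr.i z hz]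
  · intro z hz
    have hz' : c.wr z = false := hz
    rw [hfr'.r z (by simpa [Cmd.wr] using hz'), seti_r, hfr.r z hz]
  · intro z hz
    have hz' : c.wa z = false := hz
    rw [hfr'.a z (by simpa [Cmd.wa] using hz'), seti_a, hfr.a z hz]
  · rw [hfr'.i iU (by simp [Cmd.wi, hw1]), seti_self]

/-- double loop over all entries, each updating its own entry of array `b` -/
theorem for2_map (c : Cmd) (hw : c.wi iN = false) (hw1 : c.wi iU = false) (s : Mem) (n : ℕ)
    (hn : s.i iN = n) (b : ℕ) (F : ℕ → ℕ → ℝ)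
    (hc : ∀ i < n, ∀ j < n, ∀ s' : Mem, Fr (for2 c) s s' → s'.i iU = i → s'.i iV = j →
      (s'.a b i j = s.a b i j) →
      ∀ i' j' : ℕ, (c.run s').a b i' j' =
        if i' = i ∧ j' = j then F i j else s'.a b i' j') :
    ∀ i < n, ∀ j < n, ((for2 c).run s).a b i j = F i j := by
  have key := for2_inv c hw hw1 s n hn
    (fun i j s' => ∀ i' < n, ∀ j' < n, s'.a b i' j' =
      if i' < i ∨ (i' = i ∧ j' < j) then F i' j' else s.a b i' j')
    (by intro i' _ j' _; simp) (by intro i _ s' h; exact h)
    (by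
      intro i hi j hj s' hfr hs hP i' hi' j' hj'
      have hfr' : Fr (for2 c) s (s'.seti iV j) := by
        refine ⟨fun z hz => ?_, fun z hz => hfr.r z hz, fun z hz => hfr.a z hz⟩
        have hz' := hz
        simp only [for2, Cmd.wi, Bool.or_eq_false_iff, beq_eq_false_iff_ne] at hz'
        rw [seti_ne _ _ hz'.2.1]; exact hfr.i z hz
      rw [hc i hi j hj (s'.seti iV j) hfr' (by rw [seti_ne _ _ (by decide), hs])
        (seti_self _ _ _) (by rw [seti_a, hP i hi j hj]; simp) i' j', seti_a, hP i' hi' j' hj']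
      by_cases h3 : i' = i
      · subst h3
        by_cases h4 : j' = j
        · subst h4; simp
        · by_cases h5 : j' < j
          · have : j' < j + 1 := by omega
            simp [h4, h5, this]
          · have : ¬ j' < j + 1 := by omega
            simp [h4, h5, this]
      · simp [h3])
    (by
      intro i hi s' hP i' hi' j' hj'
      rw [hP i' hi' j' hj']
      by_cases h3 : i' < i
      · have : i' < i + 1 := by omega
        simp [h3, this]
      · by_cases h4 : i' = i
        · subst h4; simp [hj']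
        · have : ¬ i' < i + 1 := by omega
          have h5 : ¬ (i' = i + 1 ∧ j' < 0) := by omega
          simp [h3, h4, this])
  intro i hi j hj
  have := key i hi j hj
  rw [this, if_pos (Or.inl hi)]

/-- single loop over `iU < n`, each step updating its own entry of column `0` of array `b` -/
theorem for1_map (c : Cmd) (s : Mem) (n : ℕ)
    (hn : s.i iN = n) (b : ℕ) (F : ℕ → ℝ)
    (hc : ∀ i < n, ∀ s' : Mem, Fr (.loop iU (.var iN) c) s s' → s'.i iU = i →
      (s'.a b i 0 = s.a b i 0) →
      ∀ i' : ℕ, (c.run s').a b i' 0 = if i' = i then F i else s'.a b i' 0) :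
    ∀ i < n, ((Cmd.loop iU (.var iN) c).run s).a b i 0 = F i := by
  have key := loop_inv iU (.var iN) c s n hn
    (fun i s' => ∀ i' < n, s'.a b i' 0 = if i' < i then F i' else s.a b i' 0)
    (by intro i' _; simp)
    (by
      intro i hi s' hfr hP i' hi'
      have hfr' : Fr (.loop iU (.var iN) c) s (s'.seti iU i) := by
        refine ⟨fun z hz => ?_, fun z hz => hfr.r z hz, fun z hz => hfr.a z hz⟩
        have hz' := hz
        simp only [Cmd.wi, Bool.or_eq_false_iff, beq_eq_false_iff_ne] at hz'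
        rw [seti_ne _ _ hz'.1]; exact hfr.i z hz
      rw [hc i hi (s'.seti iU i) hfr' (seti_self _ _ _) (by rw [seti_a, hP i hi]; simp) i',
        seti_a, hP i' hi']
      by_cases h3 : i' = i
      · subst h3; simp
      · by_cases h5 : i' < i
        · have : i' < i + 1 := by omega
          simp [h3, h5, this]
        · have : ¬ i' < i + 1 := by omega
          simp [h3, h5, this])
  intro i hi
  rw [key i hi, if_pos hi]

/-! ### cost -/

/-- upper bound for an index expression when the index variables are bounded by `β` -/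
def Ix.bnd (β : ℕ → ℕ) : Ix → ℕ
  | .lit k => k
  | .var x => β x
  | .add e f => e.bnd β + f.bnd β
  | .sub e _ => e.bnd β

/-- all index variables occurring in the expression satisfy `p` -/
def Ix.vars (p : ℕ → Bool) : Ix → Bool
  | .lit _ => true
  | .var x => p x
  | .add e f => e.vars p && f.vars p
  | .sub e f => e.vars p && f.vars p

lemma Ix.val_le_bnd {p : ℕ → Bool} {β : ℕ → ℕ} {s : Mem} (hs : ∀ x, p x = true → s.i x ≤ β x) :
    ∀ e : Ix, e.vars p = true → e.val s ≤ e.bnd β
  | .lit k, _ => le_refl _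
  | .var x, h => hs x h
  | .add e f, h => by
    simp only [Ix.vars, Bool.and_eq_true] at h
    exact Nat.add_le_add (Ix.val_le_bnd hs e h.1) (Ix.val_le_bnd hs f h.2)
  | .sub e f, h => by
    simp only [Ix.vars, Bool.and_eq_true] at h
    exact (Nat.sub_le _ _).trans (Ix.val_le_bnd hs e h.1)

/-- bound for the cost -/
def Cmd.costB (β : ℕ → ℕ) : Cmd → ℕ
  | .skip => 1
  | .seti _ e => e.ops + 1
  | .setr _ e => e.ops + 1
  | .put _ i j e => i.ops + j.ops + e.ops + 1
  | .seq c d => c.costB β + d.costB β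
  | .ifLt e f c d => e.ops + f.ops + 1 + (c.costB β + d.costB β)
  | .loop _ e c => e.ops + 1 + e.bnd β * (1 + c.costB β)
  | .whileLt _ _ _ => 0

/-- no `while` loops; all loop bounds use only variables satisfying `p`, which are not written -/
def Cmd.good (p : ℕ → Bool) : Cmd → Bool
  | .skip => true
  | .seti x _ => !p x
  | .setr _ _ => true
  | .put _ _ _ _ => true
  | .seq c d => c.good p && d.good p
  | .ifLt _ _ c d => c.good p && d.good p
  | .loop x e c => !p x && e.vars p && c.good p
  | .whileLt _ _ _ => false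

lemma Cmd.wi_of_good {p : ℕ → Bool} {x : ℕ} (hx : p x = true) (c : Cmd) :
    c.good p = true → c.wi x = false := by
  induction c with
  | skip => intro _; rfl
  | seti y e =>
    intro h
    simp only [Cmd.good, Bool.not_eq_true'] at h
    simp only [Cmd.wi, beq_eq_false_iff_ne]
    rintro rfl; simp [hx] at h
  | setr _ _ => intro _; rfl
  | put _ _ _ _ => intro _; rfl
  | seq c d ihc ihd =>
    intro h
    simp only [Cmd.good, Bool.and_eq_true] at h
    simp [Cmd.wi, ihc h.1, ihd h.2]
  | ifLt e f c d ihc ihd =>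
    intro h
    simp only [Cmd.good, Bool.and_eq_true] at h
    simp [Cmd.wi, ihc h.1, ihd h.2]
  | loop y z c ih =>
    intro h
    simp only [Cmd.good, Bool.and_eq_true, Bool.not_eq_true'] at h
    have : x ≠ y := by rintro rfl; simp [hx] at h
    simp [Cmd.wi, ih h.2, this]
  | whileLt _ _ _ => intro h; simp [Cmd.good] at h

theorem Cmd.cost_le (p : ℕ → Bool) (β : ℕ → ℕ) (c : Cmd) : c.good p = true →
    ∀ s : Mem, (∀ x, p x = true → s.i x ≤ β x) → c.cost s ≤ c.costB β := by
  induction c with
  | skip => intro _ s _; simp [Cmd.cost, Cmd.costB]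
  | seti y e => intro _ s _; simp [Cmd.cost, Cmd.costB]
  | setr y e => intro _ s _; simp [Cmd.cost, Cmd.costB]
  | put _ _ _ _ => intro _ s _; simp [Cmd.cost, Cmd.costB]
  | seq c d ihc ihd =>
    intro hW s hs
    simp only [Cmd.good, Bool.and_eq_true] at hW
    simp only [Cmd.cost, Cmd.costB, Nat.cast_add]
    refine add_le_add (ihc hW.1 s hs) (ihd hW.2 _ fun x hx => ?_)
    rw [c.run_i x (c.wi_of_good hx hW.1)]
    exact hs x hx
  | ifLt e f c d ihc ihd =>
    intro hW s hs
    simp only [Cmd.good, Bool.and_eq_true] at hW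
    have h1 := ihc hW.1 s hs
    have h2 := ihd hW.2 s hs
    simp only [Cmd.cost, Cmd.costB, Nat.cast_add]
    refine add_le_add le_rfl ?_
    split_ifs
    · exact h1.trans le_self_add
    · exact h2.trans le_add_self
  | loop x e c ih =>
    intro hW s hs
    simp only [Cmd.good, Bool.and_eq_true, Bool.not_eq_true'] at hW
    simp only [Cmd.cost, Cmd.costB]
    have hst : ∀ j, ∀ z, p z = true →
        (iter (fun j s' => c.run (s'.seti x j)) j s).i z = s.i z := by
      intro j z hz
      have hzx : z ≠ x := by rintro rfl; simp [hz] at hW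
      induction j with
      | zero => rfl
      | succ j ihj =>
        simp only [iter]
        rw [c.run_i z (c.wi_of_good hz hW.2), seti_ne _ _ hzx, ihj]
    have h1 : ∀ j ∈ Finset.range (e.val s),
        (1 : ℕ∞) + c.cost ((iter (fun j s' => c.run (s'.seti x j)) j s).seti x j) ≤
          ((1 + c.costB β : ℕ) : ℕ∞) := by
      intro j _
      rw [Nat.cast_add, Nat.cast_one]
      refine add_le_add le_rfl (ih hW.2 _ fun z hz => ?_)
      have hzx : z ≠ x := by rintro rfl; simp [hz] at hW
      rw [seti_ne _ _ hzx, hst j z hz]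
      exact hs z hz
    have h2 := Finset.sum_le_card_nsmul _ _ _ h1
    rw [Finset.card_range, nsmul_eq_mul] at h2
    have h3 : e.val s ≤ e.bnd β := Ix.val_le_bnd hs e hW.1.2
    calc _ ≤ ((e.ops + 1 : ℕ) : ℕ∞) + ((e.val s : ℕ) : ℕ∞) * ((1 + c.costB β : ℕ) : ℕ∞) :=
          add_le_add le_rfl h2
      _ = ((e.ops + 1 + e.val s * (1 + c.costB β) : ℕ) : ℕ∞) := by push_cast; rfl
      _ ≤ _ := by
        refine Nat.cast_le.2 (Nat.add_le_add_left (Nat.mul_le_mul_right _ h3) _)
  | whileLt _ _ _ => intro h; simp [Cmd.good] at h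

/-- Rule for `while` loops: a decreasing bound. -/
theorem while_rule (e f : Rx) (c : Cmd) (s : Mem) (N : ℕ) (I : ℕ → Mem → Prop) (h0 : I 0 s)
    (hstep : ∀ j s', I j s' → e.val s' < f.val s' → I (j + 1) (c.run s'))
    (hN : ∀ s', I N s' → ¬ e.val s' < f.val s') (B : ℕ)
    (hB : ∀ j s', I j s' → c.cost s' ≤ B) :
    (∃ j ≤ N, I j ((Cmd.whileLt e f c).run s)) ∧
      ¬ e.val ((Cmd.whileLt e f c).run s) < f.val ((Cmd.whileLt e f c).run s) ∧
      (Cmd.whileLt e f c).cost s ≤
        (((e.ops + f.ops + 1) + N * ((e.ops + f.ops + 1) + B) : ℕ) : ℕ∞) := by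
  classical
  have key : ∀ M : ℕ, (∀ j < M, e.val ((fun s' => c.run s')^[j] s) <
      f.val ((fun s' => c.run s')^[j] s)) → ∀ j ≤ M, I j ((fun s' => c.run s')^[j] s) := by
    intro M hM j
    induction j with
    | zero => intro _; exact h0
    | succ j ih =>
      intro hj
      rw [Function.iterate_succ_apply']
      exact hstep j _ (ih (by omega)) (hM j (by omega))
  have hex : ∃ M, ¬ e.val ((fun s' => c.run s')^[M] s) < f.val ((fun s' => c.run s')^[M] s) := by
    by_contra hne
    push Not at hne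
    exact hN _ (key N (fun j _ => hne j) N le_rfl) (hne N)
  have hfind : Nat.find hex ≤ N := by
    by_contra hlt
    rw [not_le] at hlt
    have h1 : ∀ j < N + 1, e.val ((fun s' => c.run s')^[j] s) <
      f.val ((fun s' => c.run s')^[j] s) := fun j hj => by
      have := Nat.find_min hex (show j < Nat.find hex by omega)
      push Not at this; exact this
    exact hN _ (key N (fun j hj => h1 j (by omega)) N le_rfl) (h1 N (by omega))
  have hmin : ∀ j < Nat.find hex, e.val ((fun s' => c.run s')^[j] s) <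
      f.val ((fun s' => c.run s')^[j] s) := fun j hj => by
      have := Nat.find_min hex hj
      push Not at this; exact this
  have hrun : (Cmd.whileLt e f c).run s = (fun s' => c.run s')^[Nat.find hex] s := by
    simp only [Cmd.run]
    rw [dif_pos hex]
  have hspec := Nat.find_spec hex
  refine ⟨⟨Nat.find hex, hfind, ?_⟩, ?_, ?_⟩
  · rw [hrun]
    exact key _ hmin _ le_rfl
  · rw [hrun]; exact hspec
  · simp only [Cmd.cost]
    rw [dif_pos hex]
    have h1 : ∀ j ∈ Finset.range (Nat.find hex),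
        (((e.ops + f.ops + 1 : ℕ) : ℕ∞) + c.cost ((fun s' => c.run s')^[j] s)) ≤
          (((e.ops + f.ops + 1) + B : ℕ) : ℕ∞) := by
      intro j hj
      rw [Finset.mem_range] at hj
      rw [Nat.cast_add (e.ops + f.ops + 1) B]
      exact add_le_add le_rfl (hB j _ (key _ hmin j hj.le))
    have h2 := Finset.sum_le_card_nsmul _ _ _ h1
    rw [Finset.card_range, nsmul_eq_mul] at h2
    calc _ ≤ ((e.ops + f.ops + 1 : ℕ) : ℕ∞) +
          ((Nat.find hex : ℕ) : ℕ∞) * (((e.ops + f.ops + 1) + B : ℕ) : ℕ∞) := add_le_add le_rfl h2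
      _ = (((e.ops + f.ops + 1) + Nat.find hex * ((e.ops + f.ops + 1) + B) : ℕ) : ℕ∞) := by
        push_cast; rfl
      _ ≤ _ := Nat.cast_le.2 (Nat.add_le_add_left (Nat.mul_le_mul_right _ hfind) _)

/-- number of nodes -/
def Cmd.size : Cmd → ℕ
  | .skip => 1
  | .seti _ e => e.ops + 1
  | .setr _ e => e.ops + 1
  | .put _ i j e => i.ops + j.ops + e.ops + 1
  | .seq c d => c.size + d.size
  | .ifLt e f c d => e.ops + f.ops + 1 + (c.size + d.size)
  | .loop _ e c => e.ops + 2 + c.size
  | .whileLt _ _ c => c.size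

/-- is the loop bound at most `iN`? -/
def Ix.isN : Ix → Bool
  | .var x => x == iN
  | .sub e _ => e.isN
  | _ => false

/-- nesting depth of loops over `n` -/
def Cmd.dn : Cmd → ℕ
  | .seq c d => max c.dn d.dn
  | .ifLt _ _ c d => max c.dn d.dn
  | .loop _ e c => c.dn + if e.isN then 1 else 0
  | _ => 0

/-- nesting depth of the other loops -/
def Cmd.dk : Cmd → ℕ
  | .seq c d => max c.dk d.dk
  | .ifLt _ _ c d => max c.dk d.dk
  | .loop _ e c => c.dk + if e.isN then 0 else 1
  | _ => 0

/-- all other loop bounds are at most `k` -/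
def Cmd.kB (β : ℕ → ℕ) (k : ℕ) : Cmd → Prop
  | .seq c d => c.kB β k ∧ d.kB β k
  | .ifLt _ _ c d => c.kB β k ∧ d.kB β k
  | .loop _ e c => (e.isN = true ∨ e.bnd β ≤ k) ∧ c.kB β k
  | _ => True

lemma Ix.bnd_of_isN {β : ℕ → ℕ} : ∀ e : Ix, e.isN = true → e.bnd β = β iN
  | .var x, h => by simp only [Ix.isN, beq_iff_eq] at h; subst h; rfl
  | .sub e f, h => Ix.bnd_of_isN e h
  | .lit _, h => by simp [Ix.isN] at h
  | .add _ _, h => by simp [Ix.isN] at h

theorem Cmd.costB_le (β : ℕ → ℕ) (k : ℕ) (c : Cmd) : c.kB β k →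
    c.costB β ≤ c.size * ((β iN + 1) ^ c.dn * (k + 1) ^ c.dk) := by
  have hmono : ∀ {a b a' b' : ℕ}, a ≤ a' → b ≤ b' →
      (β iN + 1) ^ a * (k + 1) ^ b ≤ (β iN + 1) ^ a' * (k + 1) ^ b' := fun h1 h2 =>
    Nat.mul_le_mul (Nat.pow_le_pow_right (by omega) h1) (Nat.pow_le_pow_right (by omega) h2)
  have hpos : ∀ a b : ℕ, 1 ≤ (β iN + 1) ^ a * (k + 1) ^ b := fun a b =>
    Nat.mul_pos (Nat.pow_pos (by omega)) (Nat.pow_pos (by omega))
  induction c with
  | skip => intro _; simp [Cmd.costB, Cmd.size, Cmd.dn, Cmd.dk]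
  | seti y e => intro _; simp [Cmd.costB, Cmd.size, Cmd.dn, Cmd.dk]
  | setr y e => intro _; simp [Cmd.costB, Cmd.size, Cmd.dn, Cmd.dk]
  | put _ _ _ _ => intro _; simp [Cmd.costB, Cmd.size, Cmd.dn, Cmd.dk]
  | seq c d ihc ihd =>
    intro h
    simp only [Cmd.kB] at h
    simp only [Cmd.costB, Cmd.size, Cmd.dn, Cmd.dk]
    rw [add_mul]
    refine Nat.add_le_add ((ihc h.1).trans ?_) ((ihd h.2).trans ?_)
    · exact Nat.mul_le_mul_left _ (hmono (le_max_left _ _) (le_max_left _ _))
    · exact Nat.mul_le_mul_left _ (hmono (le_max_right _ _) (le_max_right _ _))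
  | ifLt e f c d ihc ihd =>
    intro h
    simp only [Cmd.kB] at h
    simp only [Cmd.costB, Cmd.size, Cmd.dn, Cmd.dk]
    rw [add_mul, add_mul c.size]
    refine Nat.add_le_add (Nat.le_mul_of_pos_right _ (hpos _ _))
      (Nat.add_le_add ((ihc h.1).trans ?_) ((ihd h.2).trans ?_))
    · exact Nat.mul_le_mul_left _ (hmono (le_max_left _ _) (le_max_left _ _))
    · exact Nat.mul_le_mul_left _ (hmono (le_max_right _ _) (le_max_right _ _))
  | loop x e c ih =>
    intro h
    simp only [Cmd.kB] at h
    simp only [Cmd.costB, Cmd.size, Cmd.dn, Cmd.dk]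
    have h1 := ih h.2
    set X := (β iN + 1) ^ c.dn * (k + 1) ^ c.dk with hX
    have hX1 : 1 ≤ X := hpos _ _
    by_cases hN : e.isN = true
    · rw [if_pos hN, if_pos hN, Ix.bnd_of_isN e hN, pow_succ, add_zero]
      have h2 : (β iN + 1) ^ c.dn * (β iN + 1) * (k + 1) ^ c.dk = (β iN + 1) * X := by
        rw [hX]; ring
      rw [h2]
      calc e.ops + 1 + β iN * (1 + c.costB β) ≤ e.ops + 1 + β iN * (1 + c.size * X) :=
            Nat.add_le_add_left (Nat.mul_le_mul_left _ (by omega)) _
        _ ≤ _ := by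
          nlinarith [Nat.zero_le (β iN * X), Nat.zero_le (c.size * X),
            Nat.zero_le (e.ops * X), Nat.mul_le_mul_left (e.ops) hX1,
            Nat.zero_le (e.ops * β iN * X), Nat.mul_le_mul_left (β iN) hX1]
    · have hb : e.bnd β ≤ k := by rcases h.1 with h3 | h3; exact absurd h3 hN; exact h3
      rw [if_neg hN, if_neg hN, pow_succ, add_zero]
      have h2 : (β iN + 1) ^ c.dn * ((k + 1) ^ c.dk * (k + 1)) = (k + 1) * X := by
        rw [hX]; ring
      rw [h2]
      calc e.ops + 1 + e.bnd β * (1 + c.costB β) ≤ e.ops + 1 + k * (1 + c.size * X) :=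
            Nat.add_le_add_left (Nat.mul_le_mul hb (by omega)) _
        _ ≤ _ := by
          nlinarith [Nat.zero_le (k * X), Nat.zero_le (c.size * X),
            Nat.zero_le (e.ops * X), Nat.mul_le_mul_left (e.ops) hX1,
            Nat.zero_le (e.ops * k * X), Nat.mul_le_mul_left k hX1]
  | whileLt _ _ _ => intro _; simp [Cmd.costB]

end Pool.Agent.H87.RL
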