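import Mathlib

/-!
# Random linear systems in the exact real arithmetic model: the machine model

All definitions used in the statement of the main theorem: the machine (programs, their effect on
the memory and their cost), the input and output conventions and the random matrices.
-/

namespace Pool.Agent.H87.RL

open MeasureTheory ProbabilityTheory
open scoped ENNReal

/-! ## The machine model -/

/-- Memory of the machine: natural-number index variables, real variables and two-dimensional
real arrays. -/
structure Mem where
  i : ℕ → ℕ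
  r : ℕ → ℝ
  a : ℕ → ℕ → ℕ → ℝ

/-- write an index variable -/
def Mem.seti (s : Mem) (x : ℕ) (z : ℕ) : Mem :=
  ⟨fun y => if y = x then z else s.i y, s.r, s.a⟩

/-- write a real variable -/
def Mem.setr (s : Mem) (x : ℕ) (z : ℝ) : Mem :=
  ⟨s.i, fun y => if y = x then z else s.r y, s.a⟩

/-- write an array entry -/
def Mem.seta (s : Mem) (b i j : ℕ) (z : ℝ) : Mem :=
  ⟨s.i, s.r, fun c i' j' => if c = b ∧ i' = i ∧ j' = j then z else s.a c i' j'⟩

/-- Index expressions: natural numbers, index variables, sums and (truncated) differences. -/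
inductive Ix
  | lit (k : ℕ)
  | var (x : ℕ)
  | add (e f : Ix)
  | sub (e f : Ix)

/-- value of an index expression -/
def Ix.val (s : Mem) : Ix → ℕ
  | .lit k => k
  | .var x => s.i x
  | .add e f => e.val s + f.val s
  | .sub e f => e.val s - f.val s

/-- number of operations in evaluating an index expression -/
def Ix.ops : Ix → ℕ
  | .lit _ => 1
  | .var _ => 1
  | .add e f => e.ops + f.ops + 1
  | .sub e f => e.ops + f.ops + 1

/-- Real expressions: natural-number constants, real variables, array entries and the four exact
arithmetic operations. -/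
inductive Rx
  | lit (k : ℕ)
  | var (x : ℕ)
  | get (b : ℕ) (i j : Ix)
  | add (e f : Rx)
  | sub (e f : Rx)
  | mul (e f : Rx)
  | div (e f : Rx)

/-- value of a real expression -/
noncomputable def Rx.val (s : Mem) : Rx → ℝ
  | .lit k => k
  | .var x => s.r x
  | .get b i j => s.a b (i.val s) (j.val s)
  | .add e f => e.val s + f.val s
  | .sub e f => e.val s - f.val s
  | .mul e f => e.val s * f.val s
  | .div e f => e.val s / f.val s

/-- number of operations in evaluating a real expression (one per node) -/
def Rx.ops : Rx → ℕ
  | .lit _ => 1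
  | .var _ => 1
  | .get _ i j => i.ops + j.ops + 1
  | .add e f => e.ops + f.ops + 1
  | .sub e f => e.ops + f.ops + 1
  | .mul e f => e.ops + f.ops + 1
  | .div e f => e.ops + f.ops + 1

/-- Programs. `seti x e` and `setr x e` are assignments to an index variable and to a real
variable, `put b i j e` is `b[i,j] := e`, `ifLt e f c d` is `if e < f then c else d` (comparison of
real numbers), `loop x e c` is `for x := 0, 1, ..., e₀ - 1 do c` (`e₀` the value of the index
expression `e` when the loop is entered), `whileLt e f c` is `while e < f do c`. -/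
inductive Cmd
  | skip
  | seti (x : ℕ) (e : Ix)
  | setr (x : ℕ) (e : Rx)
  | put (b : ℕ) (i j : Ix) (e : Rx)
  | seq (c d : Cmd)
  | ifLt (e f : Rx) (c d : Cmd)
  | loop (x : ℕ) (e : Ix) (c : Cmd)
  | whileLt (e f : Rx) (c : Cmd)

/-- iterate `f 0`, `f 1`, ..., `f (N-1)` -/
def iter (f : ℕ → Mem → Mem) : ℕ → Mem → Mem
  | 0, s => s
  | N + 1, s => f N (iter f N s)

open Classical in
/-- Effect of a program on the memory. (If a `while` loop does not terminate, the cost below is
infinite and the value here is irrelevant.) -/
noncomputable def Cmd.run : Cmd → Mem → Mem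
  | .skip, s => s
  | .seti x e, s => s.seti x (e.val s)
  | .setr x e, s => s.setr x (e.val s)
  | .put b i j e, s => s.seta b (i.val s) (j.val s) (e.val s)
  | .seq c d, s => d.run (c.run s)
  | .ifLt e f c d, s => if e.val s < f.val s then c.run s else d.run s
  | .loop x e c, s => iter (fun j s' => c.run (s'.seti x j)) (e.val s) s
  | .whileLt e f c, s =>
      if h : ∃ N, ¬ e.val ((fun s' => c.run s')^[N] s) < f.val ((fun s' => c.run s')^[N] s)
      then (fun s' => c.run s')^[Nat.find h] s else s

open Classical in
/-- Number of operations (arithmetic operations, comparisons, memory accesses, loop steps)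
performed by a program; `⊤` if it does not terminate. -/
noncomputable def Cmd.cost : Cmd → Mem → ℕ∞
  | .skip, _ => 1
  | .seti _ e, _ => ((e.ops + 1 : ℕ) : ℕ∞)
  | .setr _ e, _ => ((e.ops + 1 : ℕ) : ℕ∞)
  | .put _ i j e, _ => ((i.ops + j.ops + e.ops + 1 : ℕ) : ℕ∞)
  | .seq c d, s => c.cost s + d.cost (c.run s)
  | .ifLt e f c d, s => ((e.ops + f.ops + 1 : ℕ) : ℕ∞) +
      if e.val s < f.val s then c.cost s else d.cost s
  | .loop x e c, s => ((e.ops + 1 : ℕ) : ℕ∞) + ∑ j ∈ Finset.range (e.val s),
      (1 + c.cost ((iter (fun j s' => c.run (s'.seti x j)) j s).seti x j))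
  | .whileLt e f c, s =>
      if h : ∃ N, ¬ e.val ((fun s' => c.run s')^[N] s) < f.val ((fun s' => c.run s')^[N] s)
      then ((e.ops + f.ops + 1 : ℕ) : ℕ∞) + ∑ j ∈ Finset.range (Nat.find h),
        (((e.ops + f.ops + 1 : ℕ) : ℕ∞) + c.cost ((fun s' => c.run s')^[j] s))
      else ⊤

/-! ## Input and output conventions -/

/-- input, index variable: the dimension `n` -/
abbrev iN : ℕ := 0
/-- input, real variable: the accuracy `ε` -/
abbrev rE : ℕ := 0
/-- input, array: the matrix `A` -/
abbrev aA : ℕ := 0
/-- input, array: the right-hand side `b` (column 0) -/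
abbrev aB : ℕ := 1
/-- output, array: the approximate solution `x` (column 0) -/
abbrev aOut : ℕ := 2

open Classical in
/-- The input: a matrix `A`, a right-hand side `b` and the accuracy `ε`. -/
noncomputable def input {n : ℕ} (A : Fin n → Fin n → ℝ) (b : Fin n → ℝ) (ε : ℝ) : Mem where
  i x := if x = iN then n else 0
  r x := if x = rE then ε else 0
  a c i j :=
    if h : c = aA ∧ i < n ∧ j < n then A ⟨i, h.2.1⟩ ⟨j, h.2.2⟩
    else if h : c = aB ∧ i < n ∧ j = 0 then b ⟨i, h.2.1⟩
    else 0

/-! ## The random matrices -/

/-- the three laws of the entries -/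
inductive Ensemble
  | gaussian
  | rademacher
  | bernoulli

/-- law of one entry -/
noncomputable def Ensemble.entry : Ensemble → Measure ℝ
  | .gaussian => gaussianReal 0 1
  | .rademacher => (2⁻¹ : ℝ≥0∞) • (Measure.dirac (-1) + Measure.dirac 1)
  | .bernoulli => (2⁻¹ : ℝ≥0∞) • (Measure.dirac 0 + Measure.dirac 1)

/-- law of the random `n × n` matrix with independent entries -/
noncomputable def Ensemble.law (X : Ensemble) (n : ℕ) : Measure (Fin n → Fin n → ℝ) :=
  Measure.pi fun _ => Measure.pi fun _ => X.entry

end Pool.Agent.H87.RL
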