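import Pool.Agent.H87.RL.Step

namespace Pool.Agent.H87.RL

open Matrix
open scoped Matrix.Norms.L2Operator

lemma run_seq3 (c d e : Cmd) (s : Mem) : (c.seq (d.seq e)).run s = e.run ((c.seq d).run s) := by
  simp only [Cmd.run]

/-! ### sizes -/

lemma addLoop_spec (x : ℕ) (hx : x ≠ iU) (hxK : x ≠ iK) (c : ℕ) (s : Mem) (K : ℕ)
    (hK : s.i iK = K) :
    (((Cmd.seti x (.lit 0)).seq (.loop iU (.lit c) (.seti x (.add (.var x) (.var iK))))).run s).i x
      = c * K := by
  rw [run_seq, run_seti]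
  have key := loop_inv iU (.lit c) (.seti x (.add (.var x) (.var iK)))
    (s.seti x ((Ix.lit 0).val s)) c rfl (fun j s' => s'.i x = j * K ∧ s'.i iK = K)
    ⟨by rw [seti_self]; simp [Ix.val], by rw [seti_ne _ _ (Ne.symm hxK), hK]⟩ (by
      intro j hj s' hfr hP
      rw [run_seti]
      refine ⟨?_, ?_⟩
      · rw [seti_self]
        simp only [Ix.val]
        rw [seti_ne _ _ hx, seti_ne _ _ (show iK ≠ iU by decide), hP.1, hP.2]
        ring
      · rw [seti_ne _ _ (Ne.symm hxK), seti_ne _ _ (by decide), hP.2])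
  exact key.1

/-- result of `sizeC` -/
theorem size_spec (s : Mem) (n : ℕ) (hn : s.i iN = n) (hn1 : 1 ≤ n) :
    ∃ K : ℕ, n ≤ 2 ^ K ∧ 2 ^ K < 2 * n ∧ (sizeC.run s).i iM = 140 * K ∧
      (sizeC.run s).i iL = 50 * K ∧ (sizeC.run s).i iT = 100 * K := by
  unfold sizeC
  simp only [block]
  rw [run_seq, run_seq, run_seq, run_seq]
  -- rP = n
  have h1 := loop_inv iU (.var iN) (.setr rP (.add (.var rP) (.lit 1)))
    ((Cmd.setr rP (.lit 0)).run s) n (by simp [Ix.val, run_setr, hn])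
    (fun j s' => s'.r rP = j) (by simp [run_setr, setr_self, Rx.val]) (by
      intro j hj s' hfr hP
      rw [run_setr, setr_self]; simp [Rx.val, hP])
  have f1 := Fr.run (.seq (.setr rP (.lit 0))
    (.loop iU (.var iN) (.setr rP (.add (.var rP) (.lit 1))))) s
  rw [run_seq] at f1
  set s1 := (Cmd.loop iU (.var iN) (.setr rP (.add (.var rP) (.lit 1)))).run
    ((Cmd.setr rP (.lit 0)).run s) with hs1
  have hn1' : s1.i iN = n := (f1.i iN (by rfl)).trans hn
  clear_value s1
  set s2 := (Cmd.seti iK (.lit 0)).run ((Cmd.setr rQ (.lit 1)).run s1) with hs2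
  have hn2 : s2.i iN = n := by rw [hs2, run_seti, seti_ne _ _ (by decide), run_setr, setr_i, hn1']
  have hP2 : s2.r rP = n := by rw [hs2, run_seti, seti_r, run_setr, setr_ne _ _ (by decide), h1]
  have hQ2 : s2.r rQ = 1 := by rw [hs2, run_seti, seti_r, run_setr, setr_self]; simp [Rx.val]
  have hK2 : s2.i iK = 0 := by rw [hs2, run_seti, seti_self]; rfl
  clear_value s2
  rw [run_seq]
  have h3 := loop_inv iU (.var iN) (.ifLt (.var rQ) (.var rP)
    (.seq (.setr rQ (.add (.var rQ) (.var rQ))) (.seti iK (.add (.var iK) (.lit 1)))) .skip)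
    s2 n hn2 (fun j s' => ∃ K : ℕ, s'.i iK = K ∧ s'.r rQ = 2 ^ K ∧ 2 ^ K < 2 * n ∧
      (n ≤ 2 ^ K ∨ K = j)) ⟨0, hK2, by simpa using hQ2, by omega, Or.inr rfl⟩ (by
      intro j hj s' hfr hP
      obtain ⟨K, k1, k2, k3, k4⟩ := hP
      rw [run_ifLt]
      have e1 : (Rx.var rQ).val (s'.seti iU j) = 2 ^ K := k2
      have e2 : (Rx.var rP).val (s'.seti iU j) = n := by
        change s'.r rP = n
        rw [hfr.r rP (by rfl), hP2]
      rw [e1, e2]
      by_cases hc : (2 : ℝ) ^ K < n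
      · rw [if_pos hc, run_seq, run_seti, run_setr]
        have hc' : 2 ^ K < n := by exact_mod_cast hc
        refine ⟨K + 1, ?_, ?_, ?_, ?_⟩
        · rw [seti_self]
          simp only [Ix.val, setr_i]
          rw [seti_ne _ _ (by decide), k1]
        · rw [seti_r, setr_self]
          simp only [Rx.val, seti_r, k2]
          ring
        · rw [pow_succ]; omega
        · right
          rcases k4 with k4 | k4 <;> omega
      · rw [if_neg hc, run_skip]
        have hc' : n ≤ 2 ^ K := by exact_mod_cast not_lt.1 hc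
        exact ⟨K, by rw [seti_ne _ _ (by decide), k1], k2, k3, Or.inl hc'⟩)
  obtain ⟨K, k1, k2, k3, k4⟩ := h3
  set s3 := (Cmd.loop iU (.var iN) (.ifLt (.var rQ) (.var rP)
    (.seq (.setr rQ (.add (.var rQ) (.var rQ))) (.seti iK (.add (.var iK) (.lit 1)))) .skip)).run s2
    with hs3
  clear_value s3
  have hKn : n ≤ 2 ^ K := by
    rcases k4 with k4 | k4
    · exact k4
    · rw [k4]; exact Nat.lt_two_pow_self.le
  refine ⟨K, hKn, k3, ?_⟩
  rw [run_seq3]
  have a1 := addLoop_spec iM (by decide) (by decide) 140 s3 K k1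
  have g1 := Fr.run ((Cmd.seti iM (.lit 0)).seq (.loop iU (.lit 140)
    (.seti iM (.add (.var iM) (.var iK))))) s3
  set s4 := ((Cmd.seti iM (.lit 0)).seq (.loop iU (.lit 140)
    (.seti iM (.add (.var iM) (.var iK))))).run s3 with hs4
  clear_value s4
  have hK4 : s4.i iK = K := (g1.i iK (by rfl)).trans k1
  rw [run_seq3]
  have a2 := addLoop_spec iL (by decide) (by decide) 50 s4 K hK4
  have g2 := Fr.run ((Cmd.seti iL (.lit 0)).seq (.loop iU (.lit 50)
    (.seti iL (.add (.var iL) (.var iK))))) s4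
  set s5 := ((Cmd.seti iL (.lit 0)).seq (.loop iU (.lit 50)
    (.seti iL (.add (.var iL) (.var iK))))).run s4 with hs5
  clear_value s5
  have hK5 : s5.i iK = K := (g2.i iK (by rfl)).trans hK4
  have a3 := addLoop_spec iT (by decide) (by decide) 100 s5 K hK5
  have g3 := Fr.run ((Cmd.seti iT (.lit 0)).seq (.loop iU (.lit 100)
    (.seti iT (.add (.var iT) (.var iK))))) s5
  refine ⟨?_, ?_, a3⟩
  · rw [g3.i iM (by rfl), g2.i iM (by rfl), a1]
  · rw [g3.i iL (by rfl), a2]

/-! ### start -/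

lemma dbl_spec (x y : ℕ) (s : Mem) (m : ℕ) (hm : s.i y = m) :
    (((Cmd.setr x (.lit 1)).seq (.loop iU (.var y) (.setr x (.add (.var x) (.var x))))).run s).r x
      = 2 ^ m := by
  rw [run_seq, run_setr]
  have key := loop_inv iU (.var y) (.setr x (.add (.var x) (.var x)))
    (s.setr x ((Rx.lit 1).val s)) m hm (fun j s' => s'.r x = 2 ^ j)
    (by rw [setr_self]; simp [Rx.val]) (by
      intro j hj s' hfr hP
      rw [run_setr, setr_self]
      simp only [Rx.val, seti_r, hP]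
      ring)
  exact key

/-- result of `startC` -/
theorem startC_spec (s : Mem) (n m l : ℕ) (hn : s.i iN = n) (hM : s.i iM = m) (hm : 1 ≤ m)
    (hl : s.i iL = l) (A : Matrix (Fin n) (Fin n) ℝ) (hA : mat n (s.a aA) = A) (F : ℝ)
    (hF : F = ∑ i, ∑ j, A i j ^ 2)
    (hb1 : ‖(2 : ℝ) ^ l • A‖ < 2 ^ m / 2) (hb2 : ‖(2 : ℝ) ^ l • (F⁻¹ • Aᵀ)‖ < 2 ^ m / 2) :
    Cst2 n m (startC.run s) ∧ (startC.run s).r rD = 2 ^ l ∧
      mat n ((startC.run s).a aAr) = flo ((2 : ℝ) ^ l • A) ∧
      mat n ((startC.run s).a aY) = flo ((2 : ℝ) ^ l • (F⁻¹ • Aᵀ)) := by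
  unfold startC
  simp only [block]
  rw [run_seq3]
  -- B
  have b1 := dbl_spec rB iM s m hM
  have g1 := Fr.run ((Cmd.setr rB (.lit 1)).seq (.loop iU (.var iM)
    (.setr rB (.add (.var rB) (.var rB))))) s
  set s1 := ((Cmd.setr rB (.lit 1)).seq (.loop iU (.var iM)
    (.setr rB (.add (.var rB) (.var rB))))).run s with hs1
  clear_value s1
  rw [run_seq3]
  -- D
  have b2 := dbl_spec rD iL s1 l ((g1.i iL (by rfl)).trans hl)
  have g2 := Fr.run ((Cmd.setr rD (.lit 1)).seq (.loop iU (.var iL)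
    (.setr rD (.add (.var rD) (.var rD))))) s1
  set s2 := ((Cmd.setr rD (.lit 1)).seq (.loop iU (.var iL)
    (.setr rD (.add (.var rD) (.var rD))))).run s1 with hs2
  clear_value s2
  have i2 : ∀ z, z ≠ iU → s2.i z = s.i z := fun z hz => by
    rw [g2.i z (by simpa [Cmd.wi] using hz), g1.i z (by simpa [Cmd.wi] using hz)]
  have a2 : ∀ b, s2.a b = s.a b := fun b => (g2.a b (by rfl)).trans (g1.a b (by rfl))
  have hB2 : s2.r rB = 2 ^ m := (g2.r rB (by rfl)).trans b1
  rw [run_seq, run_seq, run_seq]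
  -- half, top
  set s3 := (Cmd.setr rTop (.lit 1)).run ((Cmd.setr rHf (.div (.var rB) (.lit 2))).run s2) with hs3
  have i3 : ∀ z, s3.i z = s2.i z := fun z => by rw [hs3, run_setr, run_setr]; rfl
  have a3 : ∀ b, s3.a b = s2.a b := fun b => by rw [hs3, run_setr, run_setr]; rfl
  have hB3 : s3.r rB = 2 ^ m := by
    rw [hs3, run_setr, run_setr, setr_ne _ _ (by decide), setr_ne _ _ (by decide), hB2]
  have hD3 : s3.r rD = 2 ^ l := by
    rw [hs3, run_setr, run_setr, setr_ne _ _ (by decide), setr_ne _ _ (by decide), b2]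
  have hH3 : s3.r rHf = 2 ^ m / 2 := by
    rw [hs3, run_setr, run_setr, setr_ne _ _ (by decide), setr_self]
    simp [Rx.val, hB2]
  have hT3 : s3.r rTop = 1 := by
    rw [hs3, run_setr, setr_self]; simp [Rx.val]
  clear_value s3
  have hn3 : s3.i iN = n := by rw [i3, i2 iN (by decide), hn]
  rw [run_seq]
  have k4 := loop_inv iU (.sub (.var iN) (.lit 1)) (.setr rTop (.mul (.var rTop) (.var rB))) s3
    (n - 1) (by simp only [Ix.val]; rw [hn3]) (fun j s' => s'.r rTop = (2 ^ m) ^ j)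
    (by simpa using hT3) (by
      intro j hj s' hfr hP
      rw [run_setr, setr_self]
      simp only [Rx.val, seti_r]
      rw [hP, hfr.r rB (by rfl), hB3, pow_succ])
  have g4 := Fr.run (.loop iU (.sub (.var iN) (.lit 1))
    (.setr rTop (.mul (.var rTop) (.var rB)))) s3
  set s4 := (Cmd.loop iU (.sub (.var iN) (.lit 1))
    (.setr rTop (.mul (.var rTop) (.var rB)))).run s3 with hs4
  clear_value s4
  rw [run_seq]
  set s5 := (Cmd.setr rSh (.lit 0)).run s4 with hs5
  have hS5 : s5.r rSh = 0 := by rw [hs5, run_setr, setr_self]; simp [Rx.val]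
  have r5 : ∀ z, z ≠ rSh → s5.r z = s4.r z := fun z hz => by rw [hs5, run_setr, setr_ne _ _ hz]
  have i5 : ∀ z, s5.i z = s4.i z := fun z => by rw [hs5, run_setr]; rfl
  have a5 : ∀ b, s5.a b = s4.a b := fun b => by rw [hs5, run_setr]; rfl
  clear_value s5
  have hn5 : s5.i iN = n := by rw [i5, g4.i iN (by rfl), hn3]
  have hB5 : s5.r rB = 2 ^ m := by rw [r5 _ (by decide), g4.r rB (by rfl), hB3]
  have hH5 : s5.r rHf = 2 ^ m / 2 := by rw [r5 _ (by decide), g4.r rHf (by rfl), hH3]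
  rw [run_seq]
  have k6 := loop_inv iU (.var iN) (.setr rSh (.add (.mul (.var rSh) (.var rB)) (.var rHf))) s5 n
    hn5 (fun j s' => s'.r rSh = ∑ i ∈ Finset.range j, 2 ^ m / 2 * (2 ^ m) ^ i)
    (by simpa using hS5) (by
      intro j hj s' hfr hP
      rw [run_setr, setr_self]
      simp only [Rx.val, seti_r]
      rw [hP, hfr.r rB (by rfl), hB5, hfr.r rHf (by rfl), hH5, Finset.sum_range_succ', pow_zero,
        mul_one, Finset.sum_mul]
      congr 1
      exact Finset.sum_congr rfl fun i _ => by rw [pow_succ]; ring)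
  have g6 := Fr.run (.loop iU (.var iN) (.setr rSh (.add (.mul (.var rSh) (.var rB))
    (.var rHf)))) s5
  set s6 := (Cmd.loop iU (.var iN) (.setr rSh (.add (.mul (.var rSh) (.var rB))
    (.var rHf)))).run s5 with hs6
  clear_value s6
  rw [run_seq]
  -- Frobenius norm
  set s7 := (Cmd.setr rFr (.lit 0)).run s6 with hs7
  have hF7 : s7.r rFr = 0 := by rw [hs7, run_setr, setr_self]; simp [Rx.val]
  have r7 : ∀ z, z ≠ rFr → s7.r z = s6.r z := fun z hz => by rw [hs7, run_setr, setr_ne _ _ hz]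
  have i7 : ∀ z, s7.i z = s6.i z := fun z => by rw [hs7, run_setr]; rfl
  have a7 : ∀ b, s7.a b = s6.a b := fun b => by rw [hs7, run_setr]; rfl
  clear_value s7
  have hn7 : s7.i iN = n := by rw [i7, g6.i iN (by rfl), hn5]
  have hM7 : s7.i iM = m := by
    rw [i7, g6.i iM (by rfl), i5, g4.i iM (by rfl), i3, i2 iM (by decide), hM]
  have ha7 : ∀ b, s7.a b = s.a b := fun b => by
    rw [a7, g6.a b (by rfl), a5, g4.a b (by rfl), a3, a2]
  have hc7 : Cst2 n m s7 := by
    refine ⟨⟨hm, hM7, ?_, ?_⟩, hn7, ?_, ?_⟩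
    · rw [r7 _ (by decide), g6.r rB (by rfl), hB5]
    · rw [r7 _ (by decide), g6.r rHf (by rfl), hH5]
    · rw [r7 _ (by decide), g6.r rTop (by rfl), r5 _ (by decide), k4]
    · rw [r7 _ (by decide), k6]
  have hD7 : s7.r rD = 2 ^ l := by
    rw [r7 _ (by decide), g6.r rD (by rfl), r5 _ (by decide), g4.r rD (by rfl), hD3]
  rw [run_seq]
  set c8 : Cmd := .setr rFr (.add (.var rFr)
    (.mul (.get aA (.var iU) (.var iV)) (.get aA (.var iU) (.var iV)))) with hc8
  have k8 := for2_inv c8 (by rfl) (by rfl) s7 n hn7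
    (fun i j s' => s'.r rFr = (∑ u ∈ Finset.range i, ∑ v ∈ Finset.range n, s.a aA u v ^ 2) +
      ∑ v ∈ Finset.range j, s.a aA i v ^ 2)
    (by simpa using hF7) (by intro i _ s' h; simpa using h) (by
      intro i hi j hj s' hfr hU hP
      rw [hc8, run_setr, setr_self]
      simp only [Rx.val, Ix.val, seti_r, seti_a, seti_self]
      rw [seti_ne _ _ (by decide), hU, hP, hfr.a aA (by rfl), ha7, Finset.sum_range_succ]
      ring) (by
      intro i hi s' hP
      rw [hP, Finset.sum_range_succ]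
      simp)
  have g8 := Fr.run (for2 c8) s7
  set s8 := (for2 c8).run s7 with hs8
  clear_value s8
  have hF8 : s8.r rFr = F := by
    rw [k8, hF, ← hA]
    simp only [Finset.range_zero, Finset.sum_empty, add_zero]
    rw [Finset.sum_range]
    refine Finset.sum_congr rfl fun i _ => ?_
    rw [Finset.sum_range]
    rfl
  have hc8' : Cst2 n m s8 := hc7.congr (g8.i _ (by rfl)) (g8.r _ (by rfl)) (g8.r _ (by rfl))
    (g8.i _ (by rfl)) (g8.r _ (by rfl)) (g8.r _ (by rfl))
  have hD8 : s8.r rD = 2 ^ l := (g8.r rD (by rfl)).trans hD7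
  have ha8 : ∀ b, s8.a b = s.a b := fun b => (g8.a b (by rfl)).trans (ha7 b)
  -- round A
  have k9 := for2_round aAr (.mul (.var rD) (.get aA (.var iU) (.var iV))) s8 n m hc8'.hn
    hc8'.toCst (fun i j => 2 ^ l * s.a aA i j) (by
      intro i hi j hj s' h1 h2 h3 h4
      simp only [Rx.val, Ix.val]
      rw [h1 rD (by decide) (by decide) (by decide), h2 aA (by decide), h3, h4, hD8, ha8]) (by
      intro i hi j hj
      refine lt_of_le_of_lt ?_ hb1
      have := entry_le_norm ((2 : ℝ) ^ l • A) ⟨i, hi⟩ ⟨j, hj⟩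
      rw [Matrix.smul_apply, ← hA, mat_apply, smul_eq_mul] at this
      rwa [hA] at this)
  have g9 := Fr.run (for2 (roundC aAr (.var iU) (.var iV)
    (.mul (.var rD) (.get aA (.var iU) (.var iV))))) s8
  set s9 := (for2 (roundC aAr (.var iU) (.var iV)
    (.mul (.var rD) (.get aA (.var iU) (.var iV))))).run s8 with hs9
  clear_value s9
  have hc9 : Cst2 n m s9 := hc8'.congr (g9.i _ (by rfl)) (g9.r _ (by rfl)) (g9.r _ (by rfl))
    (g9.i _ (by rfl)) (g9.r _ (by rfl)) (g9.r _ (by rfl))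
  have hD9 : s9.r rD = 2 ^ l := (g9.r rD (by rfl)).trans hD8
  have hF9 : s9.r rFr = F := (g9.r rFr (by rfl)).trans hF8
  have ha9 : s9.a aA = s.a aA := (g9.a aA (by rfl)).trans (ha8 aA)
  -- round transpose
  have k10 := for2_round aY (.mul (.var rD) (.div (.get aA (.var iV) (.var iU)) (.var rFr))) s9 n m
    hc9.hn hc9.toCst (fun i j => 2 ^ l * (s.a aA j i / F)) (by
      intro i hi j hj s' h1 h2 h3 h4
      simp only [Rx.val, Ix.val]
      rw [h1 rD (by decide) (by decide) (by decide), h1 rFr (by decide) (by decide) (by decide),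
        h2 aA (by decide), h3, h4, hD9, hF9, ha9]) (by
      intro i hi j hj
      refine lt_of_le_of_lt ?_ hb2
      have := entry_le_norm ((2 : ℝ) ^ l • (F⁻¹ • Aᵀ)) ⟨i, hi⟩ ⟨j, hj⟩
      rw [Matrix.smul_apply, Matrix.smul_apply, Matrix.transpose_apply, ← hA, mat_apply,
        smul_eq_mul, smul_eq_mul, inv_mul_eq_div] at this
      rwa [hA] at this)
  have g10 := Fr.run (for2 (roundC aY (.var iU) (.var iV)
    (.mul (.var rD) (.div (.get aA (.var iV) (.var iU)) (.var rFr))))) s9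
  set s10 := (for2 (roundC aY (.var iU) (.var iV)
    (.mul (.var rD) (.div (.get aA (.var iV) (.var iU)) (.var rFr))))).run s9 with hs10
  clear_value s10
  refine ⟨hc9.congr (g10.i _ (by rfl)) (g10.r _ (by rfl)) (g10.r _ (by rfl))
    (g10.i _ (by rfl)) (g10.r _ (by rfl)) (g10.r _ (by rfl)), (g10.r rD (by rfl)).trans hD9, ?_, ?_⟩
  · rw [g10.a aAr (by rfl)]
    ext i j
    rw [mat_apply, k9 i i.2 j j.2, ← hA]
    rfl
  · ext i j
    rw [mat_apply, k10 i i.2 j j.2, ← hA]
    change _ = (⌊(2 : ℝ) ^ l • (F⁻¹ • s.a aA j i)⌋ : ℝ)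
    rw [smul_eq_mul, smul_eq_mul, inv_mul_eq_div]

end Pool.Agent.H87.RL
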