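import Pool.Agent.H87.RL.TwoVal

namespace Pool.Agent.H87.RL

open MeasureTheory ProbabilityTheory Matrix Set Filter Topology
open scoped ENNReal

/-! ### nets for vectors with few large entries -/

/-- the net -/
noncomputable def netPt {n s N : ℕ} (g : Fin s → Fin n × Fin (2 * N + 1)) : Fin n → ℝ :=
  fun i => ∑ t, if (g t).1 = i then (((g t).2 : ℕ) - (N : ℝ)) / N else 0

lemma exists_net {n s N : ℕ} (hN : 1 ≤ N) (hs : s ≤ n) {u : Fin n → ℝ} (hu : Unit1 u)
    (hc : (Finset.univ.filter fun i => 1 / (N : ℝ) < |u i|).card ≤ s) :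
    ∃ g : Fin s → Fin n × Fin (2 * N + 1), ∀ i, |u i - netPt g i| ≤ 1 / N := by
  classical
  obtain ⟨L, hL1, hL2⟩ := Finset.exists_superset_card_eq hc (by simpa using hs)
  have hN' : (0 : ℝ) < N := by exact_mod_cast hN
  set e : L ≃ Fin s := L.equivFinOfCardEq hL2 with he
  have hfl : ∀ i, -(N : ℤ) ≤ ⌊u i * N⌋ ∧ ⌊u i * N⌋ ≤ N := by
    intro i
    have h1 := abs_le.1 (hu.1 i)
    constructor
    · rw [Int.le_floor]; push_cast; nlinarith
    · have : (⌊u i * N⌋ : ℝ) ≤ N := (Int.floor_le _).trans (by nlinarith)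
      exact_mod_cast this
  have hnat : ∀ i, (⌊u i * N⌋ + N).toNat < 2 * N + 1 := by
    intro i
    have := hfl i
    omega
  refine ⟨fun t => ((e.symm t).1, ⟨(⌊u (e.symm t).1 * N⌋ + N).toNat, hnat _⟩), fun i => ?_⟩
  unfold netPt
  simp only
  have hcast : ∀ i, (((⌊u i * N⌋ + N).toNat : ℕ) : ℝ) - (N : ℝ) = (⌊u i * N⌋ : ℝ) := by
    intro i
    have h1 : (((⌊u i * N⌋ + N).toNat : ℤ)) = ⌊u i * N⌋ + N :=
      Int.toNat_of_nonneg (by have := hfl i; omega)
    have h2 : (((⌊u i * N⌋ + N).toNat : ℤ) : ℝ) = ((⌊u i * N⌋ + N : ℤ) : ℝ) := by rw [h1]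
    rw [Int.cast_natCast] at h2
    rw [h2]; push_cast; ring
  simp only [hcast]
  by_cases hi : i ∈ L
  · have h1 : ∑ t, (if (e.symm t).1 = i then (⌊u (e.symm t).1 * N⌋ : ℝ) / N else 0) =
        (⌊u i * N⌋ : ℝ) / N := by
      rw [Finset.sum_eq_single (e ⟨i, hi⟩)]
      · simp
      · intro t _ ht
        rw [if_neg]
        intro h
        apply ht
        have : e.symm t = ⟨i, hi⟩ := Subtype.ext h
        rw [← this, Equiv.apply_symm_apply]
      · intro h; exact absurd (Finset.mem_univ _) h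
    rw [h1]
    have h2 : u i - (⌊u i * N⌋ : ℝ) / N = (u i * N - ⌊u i * N⌋) / N := by
      field_simp
    rw [h2, abs_div, abs_of_pos hN']
    refine div_le_div_of_nonneg_right ?_ hN'.le
    rw [abs_of_nonneg (by linarith [Int.floor_le (u i * N)])]
    linarith [Int.lt_floor_add_one (u i * N)]
  · have h1 : ∑ t, (if (e.symm t).1 = i then (⌊u (e.symm t).1 * N⌋ : ℝ) / N else 0) = 0 := by
      refine Finset.sum_eq_zero fun t _ => ?_
      rw [if_neg]
      intro h
      exact hi (h ▸ (e.symm t).2)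
    rw [h1, sub_zero]
    by_contra hcon
    rw [not_le] at hcon
    exact hi (hL1 (Finset.mem_filter.2 ⟨Finset.mem_univ _, hcon⟩))

lemma abs_vl_le {a w : ℝ} (ha : |a| ≤ 1) (haw : |a + w| ≤ 1) (x : Bool) : |vl a w x| ≤ 1 := by
  cases x
  · simpa [vl] using ha
  · simpa [vl] using haw

lemma coin_flip {a w : ℝ} (hw : 1 ≤ w) {y c δ : ℝ} (hy : 2 * δ < |y|) :
    mB {x | |y * vl a w x + c| ≤ δ} ≤ 2⁻¹ := by
  refine mB_le ?_
  rintro ⟨h1, h2⟩
  have h1' : |y * a + c| ≤ δ := by simpa [vl] using h1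
  have h2' : |y * (a + w) + c| ≤ δ := by simpa [vl] using h2
  have h3 : |y * w| ≤ 2 * δ := by
    have e : y * w = (y * (a + w) + c) - (y * a + c) := by ring
    rw [e]
    exact (abs_sub _ _).trans (by linarith)
  rw [abs_mul, abs_of_pos (show 0 < w by linarith)] at h3
  nlinarith [abs_nonneg y]

/-- one row -/
lemma row_half {n : ℕ} {a w : ℝ} (hw : 1 ≤ w) {y : Fin n → ℝ} {δ : ℝ} {k : Fin n}
    (hy : 2 * δ < |y k|) : mC (Fin n) {r | |∑ i, vl a w (r i) * y i| ≤ δ} ≤ 2⁻¹ := by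
  refine pi_section_le _ k MeasurableSet.of_discrete _ fun x => ?_
  refine le_trans (le_of_eq (congrArg mB ?_)) (coin_flip (a := a) hw
    (c := ∑ i ∈ Finset.univ.erase k, vl a w (x i) * y i) hy)
  ext z
  simp only [mem_ofPred_eq]
  rw [← Finset.add_sum_erase _ _ (Finset.mem_univ k)]
  have h1 : ∑ i ∈ Finset.univ.erase k, vl a w (Function.update x k z i) * y i =
      ∑ i ∈ Finset.univ.erase k, vl a w (x i) * y i := by
    refine Finset.sum_congr rfl fun i hi => ?_
    rw [Function.update_of_ne (Finset.ne_of_mem_erase hi)]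
  rw [h1, Function.update_self, mul_comm (y k)]

/-- uniform measure on Boolean matrices -/
noncomputable def mM (n : ℕ) : Measure (Fin n → Fin n → Bool) := Measure.pi fun _ => mC (Fin n)

instance (n : ℕ) : IsProbabilityMeasure (mM n) := by unfold mM; infer_instance

/-- many rows -/
lemma rows_half {n : ℕ} {a w : ℝ} (hw : 1 ≤ w) {y : Fin n → ℝ} {δ : ℝ} {l : Fin n}
    (hy : 2 * δ < |y l|) (k : Fin n) :
    mM n {M | ∀ j, j ≠ k → |∑ i, vl a w (M j i) * y i| ≤ δ} ≤ 2⁻¹ ^ (n - 1) := by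
  classical
  have e : {M : Fin n → Fin n → Bool | ∀ j, j ≠ k → |∑ i, vl a w (M j i) * y i| ≤ δ} =
      Set.pi univ fun j => if j = k then univ else {r | |∑ i, vl a w (r i) * y i| ≤ δ} := by
    ext M
    simp only [mem_ofPred_eq, Set.mem_pi, mem_univ, forall_true_left]
    refine forall_congr' fun j => ?_
    by_cases hj : j = k
    · simp [hj]
    · simp [hj]
  rw [e, mM, Measure.pi_pi, ← Finset.mul_prod_erase _ _ (Finset.mem_univ k), if_pos rfl,
    measure_univ, one_mul]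
  calc ∏ j ∈ Finset.univ.erase k, mC (Fin n)
        (if j = k then univ else {r | |∑ i, vl a w (r i) * y i| ≤ δ})
      ≤ ∏ _j ∈ Finset.univ.erase k, (2⁻¹ : ℝ≥0∞) := by
        refine Finset.prod_le_prod' fun j hj => ?_
        rw [if_neg (Finset.ne_of_mem_erase hj)]
        exact row_half hw hy
    _ = 2⁻¹ ^ (n - 1) := by
        rw [Finset.prod_const, Finset.card_erase_of_mem (Finset.mem_univ k)]
        simp

/-- all columns -/
lemma cols_half {n : ℕ} {a w : ℝ} (hw : 1 ≤ w) {y : Fin n → ℝ} {δ : ℝ} {l : Fin n}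
    (hy : 2 * δ < |y l|) :
    mM n {M | ∀ i, |∑ k, y k * vl a w (M k i)| ≤ δ} ≤ 2⁻¹ ^ n := by
  refine pi_section_le _ l MeasurableSet.of_discrete _ fun x => ?_
  have e : {z : Fin n → Bool | Function.update x l z ∈
      {M : Fin n → Fin n → Bool | ∀ i, |∑ k, y k * vl a w (M k i)| ≤ δ}} =
      Set.pi univ fun i => {b | |y l * vl a w b +
        ∑ k ∈ Finset.univ.erase l, y k * vl a w (x k i)| ≤ δ} := by
    ext z
    simp only [mem_ofPred_eq, Set.mem_pi, mem_univ, forall_true_left]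
    refine forall_congr' fun i => ?_
    rw [← Finset.add_sum_erase _ _ (Finset.mem_univ l)]
    have h1 : ∑ k ∈ Finset.univ.erase l, y k * vl a w (Function.update x l z k i) =
        ∑ k ∈ Finset.univ.erase l, y k * vl a w (x k i) := by
      refine Finset.sum_congr rfl fun k hk => ?_
      rw [Function.update_of_ne (Finset.ne_of_mem_erase hk)]
    rw [h1, Function.update_self]
  rw [e, mC, Measure.pi_pi]
  calc ∏ i : Fin n, mB {b | |y l * vl a w b +
        ∑ k ∈ Finset.univ.erase l, y k * vl a w (x k i)| ≤ δ}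
      ≤ ∏ _i : Fin n, (2⁻¹ : ℝ≥0∞) := Finset.prod_le_prod' fun i _ => coin_flip hw hy
    _ = _ := by simp

/-- vectors with few large entries -/
def Comp {n : ℕ} (s N : ℕ) (u : Fin n → ℝ) : Prop :=
  (Finset.univ.filter fun i => 1 / (N : ℝ) < |u i|).card ≤ s

lemma net_card (n s N : ℕ) :
    Fintype.card (Fin s → Fin n × Fin (2 * N + 1)) = (n * (2 * N + 1)) ^ s := by
  simp

/-- transfer of a linear form to the net -/
lemma form_net {n : ℕ} {N : ℕ} {c u y : Fin n → ℝ} (hc : ∀ i, |c i| ≤ 1)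
    (hy : ∀ i, |u i - y i| ≤ 1 / N) : |∑ i, c i * y i| ≤ |∑ i, c i * u i| + n / N := by
  have e : ∑ i, c i * y i = ∑ i, c i * u i - ∑ i, c i * (u i - y i) := by
    rw [← Finset.sum_sub_distrib]
    exact Finset.sum_congr rfl fun i _ => by ring
  have h1 : |∑ i, c i * (u i - y i)| ≤ n / N := by
    calc |∑ i, c i * (u i - y i)| ≤ ∑ i, |c i * (u i - y i)| := Finset.abs_sum_le_sum_abs _ _
      _ ≤ ∑ _i : Fin n, (1 / (N : ℝ)) := by
          refine Finset.sum_le_sum fun i _ => ?_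
          rw [abs_mul]
          calc |c i| * |u i - y i| ≤ 1 * (1 / N) :=
                mul_le_mul (hc i) (hy i) (abs_nonneg _) zero_le_one
            _ = _ := one_mul _
      _ = n / N := by simp; ring
  rw [e]
  exact (abs_sub _ _).trans (add_le_add le_rfl h1)

lemma net_big {n N : ℕ} (hn : 5 ≤ n) (hN : N = n ^ 2) {u y : Fin n → ℝ} (hu : Unit1 u)
    (hy : ∀ i, |u i - y i| ≤ 1 / N) : ∃ l, 2 * (2 / (n : ℝ)) < |y l| := by
  obtain ⟨l, hl⟩ := hu.2
  refine ⟨l, ?_⟩
  have hn' : (5 : ℝ) ≤ n := by exact_mod_cast hn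
  have h1 := hy l
  have h2 : |u l| ≤ |y l| + |u l - y l| := by
    have := abs_add_le (y l) (u l - y l)
    rwa [add_sub_cancel] at this
  have h3 : 2 * (2 / (n : ℝ)) ≤ 4 / 5 := by
    rw [← mul_div_assoc, div_le_div_iff₀ (by linarith) (by norm_num)]
    linarith
  have h4 : 1 / (N : ℝ) ≤ 1 / 25 := by
    rw [hN]
    push_cast
    refine one_div_le_one_div_of_le (by norm_num) ?_
    nlinarith
  rw [hl] at h2
  linarith

/-- no normal vector with few large entries -/
lemma comp_rows {n : ℕ} (hn : 5 ≤ n) {a w : ℝ} (hw : 1 ≤ w) (ha : |a| ≤ 1) (haw : |a + w| ≤ 1)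
    {s : ℕ} (hs : s ≤ n) (k : Fin n) :
    mM n {M | ∃ u, Unit1 u ∧ Comp s (n ^ 2) u ∧ ∀ j, j ≠ k → ∑ i, vl a w (M j i) * u i = 0} ≤
      ((n * (2 * n ^ 2 + 1)) ^ s : ℕ) * 2⁻¹ ^ (n - 1) := by
  classical
  have hn0 : (0 : ℝ) < n := by have : (5 : ℝ) ≤ n := by exact_mod_cast hn
                               linarith
  set G := Fin s → Fin n × Fin (2 * n ^ 2 + 1) with hG
  have hsub : {M : Fin n → Fin n → Bool | ∃ u, Unit1 u ∧ Comp s (n ^ 2) u ∧
      ∀ j, j ≠ k → ∑ i, vl a w (M j i) * u i = 0} ⊆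
      ⋃ g : G, {M | (∃ l, 2 * (2 / (n : ℝ)) < |netPt g l|) ∧
        ∀ j, j ≠ k → |∑ i, vl a w (M j i) * netPt g i| ≤ 2 / n} := by
    rintro M ⟨u, hu, hcu, hperp⟩
    obtain ⟨g, hg⟩ := exists_net (N := n ^ 2) (Nat.one_le_pow 2 n (by omega)) hs hu hcu
    rw [mem_iUnion]
    refine ⟨g, net_big hn rfl hu hg, fun j hj => ?_⟩
    refine (form_net (fun i => abs_vl_le ha haw (M j i)) hg).trans ?_
    rw [hperp j hj, abs_zero, zero_add]
    push_cast
    rw [div_le_div_iff₀ (by positivity) hn0]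
    nlinarith [sq_nonneg (n : ℝ)]
  refine (measure_mono hsub).trans ((measure_iUnion_fintype_le _ _).trans ?_)
  calc ∑ g : G, mM n {M | (∃ l, 2 * (2 / (n : ℝ)) < |netPt g l|) ∧
        ∀ j, j ≠ k → |∑ i, vl a w (M j i) * netPt g i| ≤ 2 / n}
      ≤ ∑ _g : G, (2⁻¹ : ℝ≥0∞) ^ (n - 1) := by
        refine Finset.sum_le_sum fun g _ => ?_
        by_cases h : ∃ l, 2 * (2 / (n : ℝ)) < |netPt g l|
        · obtain ⟨l, hl⟩ := h
          refine (measure_mono ?_).trans (rows_half (a := a) hw hl k)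
          intro M hM
          exact hM.2
        · have : {M : Fin n → Fin n → Bool | (∃ l, 2 * (2 / (n : ℝ)) < |netPt g l|) ∧
              ∀ j, j ≠ k → |∑ i, vl a w (M j i) * netPt g i| ≤ 2 / n} = ∅ := by
            ext M
            simp only [mem_ofPred_eq, mem_empty_iff_false, iff_false]
            exact fun hM => h hM.1
          rw [this, measure_empty]
          exact zero_le
    _ = _ := by
        rw [Finset.sum_const, Finset.card_univ, net_card, nsmul_eq_mul]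

/-- no vector with few large entries is almost in the kernel -/
lemma comp_cols {n : ℕ} (hn : 5 ≤ n) {a w : ℝ} (hw : 1 ≤ w) (ha : |a| ≤ 1) (haw : |a + w| ≤ 1)
    {s : ℕ} (hs : s ≤ n) :
    mM n {M | ∃ x, Unit1 x ∧ Comp s (n ^ 2) x ∧
      ∀ i, |∑ k, x k * vl a w (M k i)| < 1 / (n : ℝ) ^ 6} ≤
      ((n * (2 * n ^ 2 + 1)) ^ s : ℕ) * 2⁻¹ ^ n := by
  classical
  have hn1 : (5 : ℝ) ≤ n := by exact_mod_cast hn
  have hn0 : (0 : ℝ) < n := by linarith
  set G := Fin s → Fin n × Fin (2 * n ^ 2 + 1) with hG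
  have hsub : {M : Fin n → Fin n → Bool | ∃ x, Unit1 x ∧ Comp s (n ^ 2) x ∧
      ∀ i, |∑ k, x k * vl a w (M k i)| < 1 / (n : ℝ) ^ 6} ⊆
      ⋃ g : G, {M | (∃ l, 2 * (2 / (n : ℝ)) < |netPt g l|) ∧
        ∀ i, |∑ k, netPt g k * vl a w (M k i)| ≤ 2 / n} := by
    rintro M ⟨u, hu, hcu, hperp⟩
    obtain ⟨g, hg⟩ := exists_net (N := n ^ 2) (Nat.one_le_pow 2 n (by omega)) hs hu hcu
    rw [mem_iUnion]
    refine ⟨g, net_big hn rfl hu hg, fun i => ?_⟩
    have h1 := form_net (fun k => abs_vl_le ha haw (M k i)) hg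
    have e1 : ∑ k, netPt g k * vl a w (M k i) = ∑ k, vl a w (M k i) * netPt g k :=
      Finset.sum_congr rfl fun k _ => mul_comm _ _
    have e2 : ∑ k, u k * vl a w (M k i) = ∑ k, vl a w (M k i) * u k :=
      Finset.sum_congr rfl fun k _ => mul_comm _ _
    have h2 := hperp i
    rw [e2] at h2
    rw [e1]
    refine h1.trans ?_
    have h3 : 1 / (n : ℝ) ^ 6 ≤ 1 / n := by
      refine one_div_le_one_div_of_le hn0 ?_
      calc (n : ℝ) = (n : ℝ) ^ 1 := (pow_one _).symm
        _ ≤ (n : ℝ) ^ 6 := pow_le_pow_right₀ (by linarith) (by norm_num)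
    have h4 : (n : ℝ) / ((n ^ 2 : ℕ) : ℝ) = 1 / n := by
      push_cast; field_simp
    rw [h4]
    have h5 : 2 / (n : ℝ) = 1 / n + 1 / n := by ring
    rw [h5]
    linarith
  refine (measure_mono hsub).trans ((measure_iUnion_fintype_le _ _).trans ?_)
  calc ∑ g : G, mM n {M | (∃ l, 2 * (2 / (n : ℝ)) < |netPt g l|) ∧
        ∀ i, |∑ k, netPt g k * vl a w (M k i)| ≤ 2 / n}
      ≤ ∑ _g : G, (2⁻¹ : ℝ≥0∞) ^ n := by
        refine Finset.sum_le_sum fun g _ => ?_
        by_cases h : ∃ l, 2 * (2 / (n : ℝ)) < |netPt g l|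
        · obtain ⟨l, hl⟩ := h
          refine (measure_mono ?_).trans (cols_half (a := a) hw hl)
          intro M hM
          exact hM.2
        · have : {M : Fin n → Fin n → Bool | (∃ l, 2 * (2 / (n : ℝ)) < |netPt g l|) ∧
              ∀ i, |∑ k, netPt g k * vl a w (M k i)| ≤ 2 / n} = ∅ := by
            ext M
            simp only [mem_ofPred_eq, mem_empty_iff_false, iff_false]
            exact fun hM => h hM.1
          rw [this, measure_empty]
          exact zero_le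
    _ = _ := by
        rw [Finset.sum_const, Finset.card_univ, net_card, nsmul_eq_mul]

end Pool.Agent.H87.RL
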