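import Mathlib

/-!
# Numerical analysis of the rounded Newton iteration
-/

namespace Pool.Agent.H87.RL

open Matrix
open scoped Matrix.Norms.L2Operator

variable {n : ℕ}

/-- Euclidean norm -/
noncomputable def nrm (v : Fin n → ℝ) : ℝ := ‖(WithLp.toLp 2 v : EuclideanSpace ℝ (Fin n))‖

lemma nrm_eq (v : Fin n → ℝ) : nrm v = √(∑ i, v i ^ 2) := by
  unfold nrm
  rw [EuclideanSpace.norm_eq]
  simp

lemma nrm_sq (v : Fin n → ℝ) : nrm v ^ 2 = ∑ i, v i ^ 2 := by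
  rw [nrm_eq, Real.sq_sqrt (Finset.sum_nonneg fun i _ => sq_nonneg _)]

lemma nrm_nonneg (v : Fin n → ℝ) : 0 ≤ nrm v := norm_nonneg _

lemma nrm_mulVec_le (M : Matrix (Fin n) (Fin n) ℝ) (v : Fin n → ℝ) :
    nrm (M *ᵥ v) ≤ ‖M‖ * nrm v := by
  have := Matrix.l2_opNorm_mulVec M (WithLp.toLp 2 v : EuclideanSpace ℝ (Fin n))
  exact this

lemma norm_le_of_nrm (M : Matrix (Fin n) (Fin n) ℝ) {c : ℝ} (hc : 0 ≤ c)
    (h : ∀ v, nrm (M *ᵥ v) ≤ c * nrm v) : ‖M‖ ≤ c := by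
  rw [Matrix.l2_opNorm_def]
  refine ContinuousLinearMap.opNorm_le_bound _ hc fun x => ?_
  exact h x.ofLp

lemma nrm_mulVec_sq_le (M : Matrix (Fin n) (Fin n) ℝ) (v : Fin n → ℝ) :
    nrm (M *ᵥ v) ^ 2 ≤ (∑ i, ∑ j, M i j ^ 2) * nrm v ^ 2 := by
  rw [nrm_sq, nrm_sq, Finset.sum_mul]
  refine Finset.sum_le_sum fun i _ => ?_
  exact Finset.sum_mul_sq_le_sq_mul_sq Finset.univ (M i) v

lemma norm_le_frob (M : Matrix (Fin n) (Fin n) ℝ) : ‖M‖ ≤ √(∑ i, ∑ j, M i j ^ 2) := by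
  refine norm_le_of_nrm M (Real.sqrt_nonneg _) fun v => ?_
  have h0 : 0 ≤ ∑ i, ∑ j, M i j ^ 2 :=
    Finset.sum_nonneg fun i _ => Finset.sum_nonneg fun j _ => sq_nonneg _
  refine abs_le_of_sq_le_sq' ?_ (mul_nonneg (Real.sqrt_nonneg _) (nrm_nonneg _)) |>.2
  rw [mul_pow, Real.sq_sqrt h0]
  exact nrm_mulVec_sq_le M v

lemma norm_sq_le_frob (M : Matrix (Fin n) (Fin n) ℝ) : ‖M‖ ^ 2 ≤ ∑ i, ∑ j, M i j ^ 2 := by
  have h0 : 0 ≤ ∑ i, ∑ j, M i j ^ 2 :=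
    Finset.sum_nonneg fun i _ => Finset.sum_nonneg fun j _ => sq_nonneg _
  calc ‖M‖ ^ 2 ≤ √(∑ i, ∑ j, M i j ^ 2) ^ 2 :=
        pow_le_pow_left₀ (norm_nonneg _) (norm_le_frob M) 2
    _ = _ := Real.sq_sqrt h0

lemma frob_le (M : Matrix (Fin n) (Fin n) ℝ) {c : ℝ} (hc : 0 ≤ c) (h : ∀ i j, |M i j| ≤ c) :
    ∑ i, ∑ j, M i j ^ 2 ≤ (n * c) ^ 2 := by
  calc ∑ i, ∑ j, M i j ^ 2 ≤ ∑ _i : Fin n, ∑ _j : Fin n, c ^ 2 := by
        refine Finset.sum_le_sum fun i _ => Finset.sum_le_sum fun j _ => ?_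
        rw [← sq_abs]
        exact pow_le_pow_left₀ (abs_nonneg _) (h i j) 2
    _ = _ := by simp; ring

lemma norm_le_of_entries (M : Matrix (Fin n) (Fin n) ℝ) {c : ℝ} (hc : 0 ≤ c)
    (h : ∀ i j, |M i j| ≤ c) : ‖M‖ ≤ n * c := by
  refine (norm_le_frob M).trans ?_
  rw [Real.sqrt_le_left (by positivity)]
  exact frob_le M hc h

lemma entry_le_norm (M : Matrix (Fin n) (Fin n) ℝ) (i j : Fin n) : |M i j| ≤ ‖M‖ := by
  have h1 := nrm_mulVec_le M (Pi.single j 1)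
  have h2 : nrm (Pi.single j (1 : ℝ) : Fin n → ℝ) = 1 := by
    rw [nrm_eq]
    simp [Pi.single_apply]
  rw [h2, mul_one] at h1
  refine le_trans ?_ h1
  rw [nrm_eq, ← Real.sqrt_sq_eq_abs]
  refine Real.sqrt_le_sqrt ?_
  have : (M *ᵥ Pi.single j 1) i = M i j := by simp [Matrix.mulVec_single]
  rw [← this]
  exact Finset.single_le_sum (f := fun i => (M *ᵥ Pi.single j 1) i ^ 2)
    (fun _ _ => sq_nonneg _) (Finset.mem_univ i)

/-- `A` is bounded below by `1 / L` -/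
def LowB (A : Matrix (Fin n) (Fin n) ℝ) (L : ℝ) : Prop := ∀ v, nrm v ≤ L * nrm (A *ᵥ v)

lemma LowB.norm_le {A : Matrix (Fin n) (Fin n) ℝ} {L : ℝ} (hA : LowB A L) (hL : 0 ≤ L)
    (M : Matrix (Fin n) (Fin n) ℝ) : ‖M‖ ≤ L * ‖A * M‖ := by
  refine norm_le_of_nrm M (by positivity) fun v => ?_
  refine (hA _).trans ?_
  rw [mul_assoc, Matrix.mulVec_mulVec]
  exact mul_le_mul_of_nonneg_left (nrm_mulVec_le _ _) hL

lemma nrm_one_le : ‖(1 : Matrix (Fin n) (Fin n) ℝ)‖ ≤ 1 :=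
  norm_le_of_nrm _ zero_le_one fun v => by rw [Matrix.one_mulVec, one_mul]

lemma LowB.norm_le' {A : Matrix (Fin n) (Fin n) ℝ} {L : ℝ} (hA : LowB A L) (hL : 0 ≤ L)
    (X : Matrix (Fin n) (Fin n) ℝ) {ρ : ℝ} (h : ‖1 - A * X‖ ≤ ρ) : ‖A * X‖ ≤ 1 + ρ ∧
      ‖X‖ ≤ L * (1 + ρ) := by
  have h1 : ‖A * X‖ ≤ 1 + ρ := by
    have : A * X = 1 - (1 - A * X) := by abel
    rw [this]
    exact (norm_sub_le _ _).trans (add_le_add nrm_one_le h)
  exact ⟨h1, (hA.norm_le hL X).trans (mul_le_mul_of_nonneg_left h1 hL)⟩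

lemma dot_eq (u v : Fin n → ℝ) : u ⬝ᵥ v ≤ nrm u * nrm v := by
  rw [nrm_eq, nrm_eq]
  exact Real.sum_mul_le_sqrt_mul_sqrt _ _ _

lemma nrm_sq_dot (u : Fin n → ℝ) : nrm u ^ 2 = u ⬝ᵥ u := by
  rw [nrm_sq]; simp [dotProduct, sq]

/-- the transpose has the same lower bound -/
lemma LowB.transpose {A : Matrix (Fin n) (Fin n) ℝ} {L : ℝ} (hA : LowB A L) :
    LowB Aᵀ L := by
  have hinj : Function.Injective A.mulVec := by
    intro u v huv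
    have h1 := hA (u - v)
    rw [Matrix.mulVec_sub] at h1
    have h2 : A *ᵥ u - A *ᵥ v = 0 := sub_eq_zero.2 huv
    rw [h2] at h1
    have h3 : nrm (0 : Fin n → ℝ) = 0 := by rw [nrm_eq]; simp
    rw [h3, mul_zero] at h1
    have h4 : nrm (u - v) ^ 2 = 0 := by
      rw [le_antisymm h1 (nrm_nonneg _)]; simp
    rw [nrm_sq, Finset.sum_eq_zero_iff_of_nonneg (fun _ _ => sq_nonneg _)] at h4
    funext i
    have := h4 i (Finset.mem_univ i)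
    simp only [Pi.sub_apply, ne_eq, OfNat.ofNat_ne_zero, not_false_eq_true, pow_eq_zero_iff] at this
    linarith
  have hsurj : Function.Surjective A.mulVec :=
    (LinearMap.injective_iff_surjective (f := Matrix.mulVecLin A)).1 hinj
  intro v
  obtain ⟨u, hu⟩ := hsurj v
  have h1 : nrm v ^ 2 = u ⬝ᵥ (Aᵀ *ᵥ v) := by
    rw [nrm_sq_dot, Matrix.mulVec_transpose, dotProduct_comm u, ← Matrix.dotProduct_mulVec, hu]
  have h2 : nrm u ≤ L * nrm v := by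
    have := hA u
    rwa [hu] at this
  have h3 : nrm v ^ 2 ≤ (L * nrm v) * nrm (Aᵀ *ᵥ v) := by
    rw [h1]
    exact (dot_eq _ _).trans (mul_le_mul_of_nonneg_right h2 (nrm_nonneg _))
  by_cases h0 : nrm v = 0
  · rw [h0] at h2 ⊢
    by_contra hlt
    push Not at hlt
    have h5 : v = 0 := by
      have h4 : nrm v ^ 2 = 0 := by rw [h0]; simp
      rw [nrm_sq, Finset.sum_eq_zero_iff_of_nonneg (fun _ _ => sq_nonneg _)] at h4
      funext i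
      simpa using h4 i (Finset.mem_univ i)
    rw [h5, Matrix.mulVec_zero] at hlt
    have h3 : nrm (0 : Fin n → ℝ) = 0 := by rw [nrm_eq]; simp
    rw [h3, mul_zero] at hlt
    exact lt_irrefl _ hlt
  · have hpos : 0 < nrm v := lt_of_le_of_ne (nrm_nonneg _) (Ne.symm h0)
    have : nrm v * nrm v ≤ nrm v * (L * nrm (Aᵀ *ᵥ v)) := by
      calc nrm v * nrm v = nrm v ^ 2 := (sq _).symm
        _ ≤ _ := h3
        _ = _ := by ring
    exact le_of_mul_le_mul_left this hpos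

/-- the starting point of the Newton iteration -/
theorem start_bound {A : Matrix (Fin n) (Fin n) ℝ} {L F : ℝ} (hA : LowB A L) (hL : 0 < L)
    (hF : ∑ i, ∑ j, A i j ^ 2 ≤ F) (hF0 : 0 < F) (hFL : 1 ≤ F * L ^ 2) :
    ‖1 - A * (F⁻¹ • Aᵀ)‖ ≤ 1 - 1 / (2 * (F * L ^ 2)) := by
  have hx : 0 < 1 / (F * L ^ 2) := by positivity
  have hx1 : 1 / (F * L ^ 2) ≤ 1 := by
    rw [div_le_one (by positivity)]; exact hFL
  have hx2 : 1 / (2 * (F * L ^ 2)) = 1 / (F * L ^ 2) / 2 := by field_simp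
  rw [hx2]
  refine norm_le_of_nrm _ (by linarith) fun v => ?_
  set w := Aᵀ *ᵥ v with hw
  have e1 : (1 - A * (F⁻¹ • Aᵀ)) *ᵥ v = v - F⁻¹ • (A *ᵥ w) := by
    rw [Matrix.sub_mulVec, Matrix.one_mulVec, Matrix.mul_smul, Matrix.smul_mulVec,
      ← Matrix.mulVec_mulVec]
  have e2 : nrm ((1 - A * (F⁻¹ • Aᵀ)) *ᵥ v) ^ 2 =
      nrm v ^ 2 - 2 * F⁻¹ * nrm w ^ 2 + F⁻¹ ^ 2 * nrm (A *ᵥ w) ^ 2 := by
    rw [e1, nrm_sq_dot, nrm_sq_dot, nrm_sq_dot, nrm_sq_dot]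
    have e3 : v ⬝ᵥ (A *ᵥ w) = w ⬝ᵥ w := by
      rw [Matrix.dotProduct_mulVec, ← Matrix.mulVec_transpose]
    rw [sub_dotProduct, dotProduct_sub, dotProduct_sub, smul_dotProduct, dotProduct_smul,
      smul_dotProduct, dotProduct_smul, dotProduct_comm (A *ᵥ w) v, e3]
    simp only [smul_eq_mul]
    ring
  have e4 : nrm (A *ᵥ w) ^ 2 ≤ F * nrm w ^ 2 :=
    (nrm_mulVec_sq_le A w).trans (mul_le_mul_of_nonneg_right hF (sq_nonneg _))
  have e5 : nrm v ^ 2 ≤ L ^ 2 * nrm w ^ 2 := by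
    rw [← mul_pow]
    exact pow_le_pow_left₀ (nrm_nonneg _) (hA.transpose v) 2
  have e6 : nrm ((1 - A * (F⁻¹ • Aᵀ)) *ᵥ v) ^ 2 ≤ (1 - 1 / (F * L ^ 2)) * nrm v ^ 2 := by
    rw [e2]
    have h1 : F⁻¹ ^ 2 * nrm (A *ᵥ w) ^ 2 ≤ F⁻¹ * nrm w ^ 2 := by
      calc F⁻¹ ^ 2 * nrm (A *ᵥ w) ^ 2 ≤ F⁻¹ ^ 2 * (F * nrm w ^ 2) :=
            mul_le_mul_of_nonneg_left e4 (by positivity)
        _ = _ := by field_simp
    have h2 : 1 / (F * L ^ 2) * nrm v ^ 2 ≤ F⁻¹ * nrm w ^ 2 := by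
      calc 1 / (F * L ^ 2) * nrm v ^ 2 ≤ 1 / (F * L ^ 2) * (L ^ 2 * nrm w ^ 2) :=
            mul_le_mul_of_nonneg_left e5 hx.le
        _ = _ := by field_simp
    nlinarith
  refine abs_le_of_sq_le_sq' ?_ (mul_nonneg (by linarith) (nrm_nonneg _)) |>.2
  refine e6.trans ?_
  rw [mul_pow]
  refine mul_le_mul_of_nonneg_right ?_ (sq_nonneg _)
  nlinarith

/-- One rounded Newton step. -/
theorem step_bound {A X Th Ph Ps : Matrix (Fin n) (Fin n) ℝ} {L q D ρ : ℝ} (hA : LowB A L)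
    (hL : 1 ≤ L) (hq : (n : ℝ) ≤ q) (hq1 : 1 ≤ q) (hD : 0 < D) (hAe : ∀ i j, |A i j| ≤ q)
    (hTh : ∀ i j, |Th i j| ≤ 1) (hPh : ∀ i j, |Ph i j| ≤ 1) (hPs : ∀ i j, |Ps i j| ≤ 1)
    (hρ1 : ρ ≤ 1) (hX : ‖1 - A * X‖ ≤ ρ) :
    ‖1 - A * ((2 : ℝ) • X - X * A * X + D⁻¹ • (X * (Th * X + Ph) + Ps))‖ ≤
      ρ ^ 2 + 7 * q ^ 3 * L ^ 2 / D := by
  have hn0 : (0 : ℝ) ≤ n := Nat.cast_nonneg _
  have hAn : ‖A‖ ≤ q ^ 2 := by
    refine (norm_le_of_entries A (by linarith) hAe).trans ?_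
    rw [sq]; exact mul_le_mul_of_nonneg_right hq (by linarith)
  have hThn : ‖Th‖ ≤ q := by
    have := norm_le_of_entries Th zero_le_one hTh
    rw [mul_one] at this; exact this.trans hq
  have hPhn : ‖Ph‖ ≤ q := by
    have := norm_le_of_entries Ph zero_le_one hPh
    rw [mul_one] at this; exact this.trans hq
  have hPsn : ‖Ps‖ ≤ q := by
    have := norm_le_of_entries Ps zero_le_one hPs
    rw [mul_one] at this; exact this.trans hq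
  have hXn : ‖X‖ ≤ 2 * L := by
    have := (hA.norm_le' (by linarith) X hX).2
    nlinarith
  have e1 : 1 - A * ((2 : ℝ) • X - X * A * X + D⁻¹ • (X * (Th * X + Ph) + Ps)) =
      (1 - A * X) * (1 - A * X) - D⁻¹ • (A * (X * (Th * X + Ph) + Ps)) := by
    rw [mul_add, mul_sub, Matrix.mul_smul, Matrix.mul_smul, two_smul]
    noncomm_ring
  rw [e1]
  have hρ0 : 0 ≤ ρ := (norm_nonneg _).trans hX
  have h1 : ‖(1 - A * X) * (1 - A * X)‖ ≤ ρ ^ 2 := by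
    rw [sq]
    exact (norm_mul_le _ _).trans (mul_le_mul hX hX (norm_nonneg _) hρ0)
  have h2 : ‖X * (Th * X + Ph) + Ps‖ ≤ 7 * L ^ 2 * q := by
    calc ‖X * (Th * X + Ph) + Ps‖ ≤ ‖X‖ * (‖Th‖ * ‖X‖ + ‖Ph‖) + ‖Ps‖ := by
          refine (norm_add_le _ _).trans (add_le_add ((norm_mul_le _ _).trans ?_) le_rfl)
          refine mul_le_mul_of_nonneg_left ((norm_add_le _ _).trans ?_) (norm_nonneg _)
          exact add_le_add (norm_mul_le _ _) le_rfl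
      _ ≤ 2 * L * (q * (2 * L) + q) + q := by
          gcongr
      _ ≤ _ := by
          have g1 : 0 ≤ q * (L - 1) := mul_nonneg (by linarith) (by linarith)
          have g2 : 0 ≤ q * (L - 1) * L := mul_nonneg g1 (by linarith)
          nlinarith
  have h3 : ‖D⁻¹ • (A * (X * (Th * X + Ph) + Ps))‖ ≤ 7 * q ^ 3 * L ^ 2 / D := by
    rw [norm_smul, Real.norm_of_nonneg (by positivity)]
    calc D⁻¹ * ‖A * (X * (Th * X + Ph) + Ps)‖ ≤ D⁻¹ * (q ^ 2 * (7 * L ^ 2 * q)) := by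
          refine mul_le_mul_of_nonneg_left ((norm_mul_le _ _).trans ?_) (by positivity)
          exact mul_le_mul hAn h2 (norm_nonneg _) (by positivity)
      _ = _ := by field_simp
  exact (norm_sub_le _ _).trans (add_le_add h1 h3)

/-- Convergence of the recursion `ρ ↦ ρ² + δ`. -/
theorem recursion {ρ η δ : ℝ} (hη : 0 < η) (hδ : 0 ≤ δ) (hδη : δ ≤ η / 4)
    (hδ1 : δ ≤ 1 / 4) (hρ : 0 ≤ ρ) (k : ℕ)
    (h : min (1 / 2) ((5 / 4) ^ k * η) ≤ 1 - ρ) :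
    min (1 / 2) ((5 / 4) ^ (k + 1) * η) ≤ 1 - (ρ ^ 2 + δ) := by
  by_cases h1 : (1 : ℝ) / 2 ≤ 1 - ρ
  · refine (min_le_left _ _).trans ?_
    have : ρ ≤ 1 / 2 := by linarith
    nlinarith
  · push Not at h1
    have h2 : (5 / 4) ^ k * η ≤ 1 - ρ := by
      rcases le_total (1 / 2 : ℝ) ((5 / 4) ^ k * η) with h3 | h3
      · rw [min_eq_left h3] at h; linarith
      · rwa [min_eq_right h3] at h
    refine (min_le_right _ _).trans ?_
    rw [pow_succ]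
    have h4 : η ≤ (5 / 4) ^ k * η := by
      have : (1 : ℝ) ≤ (5 / 4) ^ k := one_le_pow₀ (by norm_num)
      nlinarith
    set y := 1 - ρ with hy
    have hρy : ρ = 1 - y := by rw [hy]; ring
    rw [hρy]
    have hy0 : 0 < y := lt_of_lt_of_le (by positivity) h2
    nlinarith

end Pool.Agent.H87.RL
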