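import Pool.Agent.H87.RL.Lang

namespace Pool.Agent.H87.RL

lemma run_seq (c d : Cmd) (s : Mem) : (Cmd.seq c d).run s = d.run (c.run s) := by
  simp only [Cmd.run]
lemma run_setr (x : ℕ) (e : Rx) (s : Mem) : (Cmd.setr x e).run s = s.setr x (e.val s) := by
  simp only [Cmd.run]
lemma run_seti (x : ℕ) (e : Ix) (s : Mem) : (Cmd.seti x e).run s = s.seti x (e.val s) := by
  simp only [Cmd.run]
lemma run_put (b : ℕ) (i j : Ix) (e : Rx) (s : Mem) :
    (Cmd.put b i j e).run s = s.seta b (i.val s) (j.val s) (e.val s) := by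
  simp only [Cmd.run]
lemma run_skip (s : Mem) : Cmd.skip.run s = s := by simp only [Cmd.run]
open Classical in
lemma run_ifLt (e f : Rx) (c d : Cmd) (s : Mem) :
    (Cmd.ifLt e f c d).run s = if e.val s < f.val s then c.run s else d.run s := by
  simp only [Cmd.run]
lemma run_loop (x : ℕ) (e : Ix) (c : Cmd) (s : Mem) :
    (Cmd.loop x e c).run s = iter (fun j s' => c.run (s'.seti x j)) (e.val s) s := by
  simp only [Cmd.run]

/-! ### floor -/

theorem floor_spec (s : Mem) (m : ℕ) (hM : s.i iM = m) (hB : s.r rB = 2 ^ m) (h0 : 0 ≤ s.r rZ)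
    (h1 : s.r rZ < 2 ^ m) : (floorC.run s).r rW = (⌊s.r rZ⌋ : ℝ) := by
  simp only [floorC, block, run_seq, run_setr]
  set s1 := (s.setr rW ((Rx.lit 0).val s)).setr rH ((Rx.var rB).val (s.setr rW ((Rx.lit 0).val s)))
    with hs1
  have hM1 : (Ix.var iM).val s1 = m := hM
  have hW1 : s1.r rW = 0 := by
    rw [hs1, setr_ne _ _ (by decide), setr_self]; simp [Rx.val]
  have hH1 : s1.r rH = 2 ^ m := by
    rw [hs1, setr_self]
    change (s.setr rW _).r rB = _
    rw [setr_ne _ _ (by decide), hB]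
  have hZ1 : s1.r rZ = s.r rZ := by
    rw [hs1, setr_ne _ _ (by decide), setr_ne _ _ (by decide)]
  have key := loop_inv iF (.var iM) (.seq (.setr rH (.div (.var rH) (.lit 2)))
    (.ifLt (.var rZ) (.add (.var rW) (.var rH)) .skip (.setr rW (.add (.var rW) (.var rH)))))
    s1 m hM1
    (fun j s' => s'.r rH = 2 ^ (m - j) ∧ ∃ k : ℤ, s'.r rW = k * 2 ^ (m - j) ∧
      s'.r rW ≤ s.r rZ ∧ s.r rZ < s'.r rW + s'.r rH)
    ⟨by simpa using hH1, 0, by simp [hW1], by rw [hW1]; exact h0, by rw [hW1, hH1]; simpa using h1⟩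
    ?_
  · obtain ⟨hh, k, hk, hle, hlt⟩ := key
    rw [Nat.sub_self, pow_zero] at hh hk
    rw [mul_one] at hk
    rw [hk] at hle hlt ⊢
    rw [hh] at hlt
    congr 1
    exact (Int.floor_eq_iff.2 ⟨hle, hlt⟩).symm
  · intro j hj s' hfr hP
    obtain ⟨hh, k, hk, hle, hlt⟩ := hP
    have hZ' : s'.r rZ = s.r rZ := by rw [hfr.r rZ (by decide), hZ1]
    have e1 : (m - j) = (m - (j + 1)) + 1 := by omega
    have hhalf : (2 : ℝ) ^ (m - j) / 2 = 2 ^ (m - (j + 1)) := by
      rw [e1, pow_succ]; simp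
    have hk2 : (k : ℝ) * 2 ^ (m - j) = (2 * k : ℤ) * 2 ^ (m - (j + 1)) := by
      rw [e1, pow_succ]; push_cast; ring
    simp only [run_seq, run_setr, run_ifLt, run_skip]
    set s2 := (s'.seti iF j).setr rH ((Rx.div (.var rH) (.lit 2)).val (s'.seti iF j)) with hs2
    have g1 : s2.r rH = 2 ^ (m - (j + 1)) := by
      rw [hs2, setr_self]
      simp only [Rx.val, seti_r]
      rw [hh]; exact_mod_cast hhalf
    have g2 : s2.r rW = s'.r rW := by rw [hs2, setr_ne _ _ (by decide), seti_r]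
    have g3 : s2.r rZ = s.r rZ := by rw [hs2, setr_ne _ _ (by decide), seti_r, hZ']
    clear_value s2
    have g4 : (Rx.var rZ).val s2 = s.r rZ := g3
    have g5 : (Rx.add (.var rW) (.var rH)).val s2 = s'.r rW + 2 ^ (m - (j + 1)) := by
      simp only [Rx.val]; rw [g1, g2]
    rw [g4, g5]
    by_cases hc : s.r rZ < s'.r rW + 2 ^ (m - (j + 1))
    · rw [if_pos hc]
      refine ⟨g1, 2 * k, ?_, ?_, ?_⟩
      · rw [g2, hk, hk2]
      · rw [g2]; exact hle
      · rw [g1, g2]; exact hc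
    · rw [if_neg hc]
      refine ⟨by rw [setr_ne _ _ (by decide), g1], 2 * k + 1, ?_, ?_, ?_⟩
      · rw [setr_self, hk, hk2]; push_cast; ring
      · rw [setr_self]; exact not_lt.1 hc
      · rw [setr_self, setr_ne _ _ (by decide), g1]
        rw [hh, e1, pow_succ] at hlt
        linarith


lemma Ix.val_congr {p : ℕ → Bool} {s s' : Mem} (h : ∀ x, p x = true → s'.i x = s.i x) :
    ∀ e : Ix, e.vars p = true → e.val s' = e.val s
  | .lit k, _ => rfl
  | .var x, hx => h x hx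
  | .add e f, hx => by
    simp only [Ix.vars, Bool.and_eq_true] at hx
    simp only [Ix.val, Ix.val_congr h e hx.1, Ix.val_congr h f hx.2]
  | .sub e f, hx => by
    simp only [Ix.vars, Bool.and_eq_true] at hx
    simp only [Ix.val, Ix.val_congr h e hx.1, Ix.val_congr h f hx.2]

/-- the constants used by the rounding procedure -/
structure Cst (m : ℕ) (s : Mem) : Prop where
  hm : 1 ≤ m
  hM : s.i iM = m
  hB : s.r rB = 2 ^ m
  hHf : s.r rHf = 2 ^ m / 2

theorem round_spec (b : ℕ) (i j : Ix) (e : Rx) (s : Mem) (m : ℕ) (hc : Cst m s)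
    (hi : i.vars (fun x => x != iF) = true) (hj : j.vars (fun x => x != iF) = true)
    (he : |e.val s| < 2 ^ m / 2) (i' j' : ℕ) :
    ((roundC b i j e).run s).a b i' j' =
      if i' = i.val s ∧ j' = j.val s then (⌊e.val s⌋ : ℝ) else s.a b i' j' := by
  simp only [roundC, block, run_seq, run_setr, run_put]
  set s1 := s.setr rZ ((Rx.add e (.var rHf)).val s) with hs1
  have hz : s1.r rZ = e.val s + 2 ^ m / 2 := by
    rw [hs1, setr_self]; simp only [Rx.val]; rw [hc.hHf]
  have hfl := floor_spec s1 m hc.hM (by rw [hs1, setr_ne _ _ (by decide)]; exact hc.hB)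
    (by rw [hz]; have := (abs_lt.1 he).1; linarith)
    (by rw [hz]; have := (abs_lt.1 he).2; linarith)
  have hfr := Fr.run floorC s1
  set s2 := floorC.run s1 with hs2
  clear_value s2
  have hHf2 : s2.r rHf = 2 ^ m / 2 := by
    rw [hfr.r rHf (by decide), hs1, setr_ne _ _ (by decide), hc.hHf]
  have hi2 : i.val s2 = i.val s := Ix.val_congr (p := fun x => x != iF) (by
    intro x hx
    rw [hfr.i x ?_, hs1, setr_i]
    simp only [bne_iff_ne] at hx
    simp [floorC, block, Cmd.wi, hx]) i hi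
  have hj2 : j.val s2 = j.val s := Ix.val_congr (p := fun x => x != iF) (by
    intro x hx
    rw [hfr.i x ?_, hs1, setr_i]
    simp only [bne_iff_ne] at hx
    simp [floorC, block, Cmd.wi, hx]) j hj
  have hv : (Rx.sub (.var rW) (.var rHf)).val s2 = (⌊e.val s⌋ : ℝ) := by
    simp only [Rx.val]
    rw [hfl, hHf2, hz]
    have h2 : (2 : ℝ) ^ m / 2 = ((2 ^ (m - 1) : ℤ) : ℝ) := by
      have : m = (m - 1) + 1 := by have := hc.hm; omega
      rw [this, pow_succ]; push_cast; simp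
    rw [h2, Int.floor_add_intCast]
    push_cast; ring
  rw [seta_a, hi2, hj2, hv, hfr.a b (by simp [floorC, block, Cmd.wa])]
  simp only [true_and, hs1, setr_a]

/-- frame of `roundC` -/
lemma round_fr_a (b : ℕ) (i j : Ix) (e : Rx) (c : ℕ) (h : c ≠ b) :
    (roundC b i j e).wa c = false := by
  simp [roundC, floorC, block, Cmd.wa, h]

lemma Cst.congr {m : ℕ} {s s' : Mem} (h : Cst m s) (h1 : s'.i iM = s.i iM) (h2 : s'.r rB = s.r rB)
    (h3 : s'.r rHf = s.r rHf) : Cst m s' :=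
  ⟨h.hm, h1.trans h.hM, h2.trans h.hB, h3.trans h.hHf⟩

/-- rounding all entries -/
theorem for2_round (b : ℕ) (e : Rx) (s : Mem) (n m : ℕ) (hn : s.i iN = n) (hc : Cst m s)
    (F : ℕ → ℕ → ℝ)
    (he : ∀ i < n, ∀ j < n, ∀ s' : Mem, (∀ x, x ≠ rZ → x ≠ rW → x ≠ rH → s'.r x = s.r x) →
      (∀ c, c ≠ b → s'.a c = s.a c) → s'.i iU = i → s'.i iV = j → e.val s' = F i j)
    (hF : ∀ i < n, ∀ j < n, |F i j| < 2 ^ m / 2) :
    ∀ i < n, ∀ j < n, ((for2 (roundC b (.var iU) (.var iV) e)).run s).a b i j = (⌊F i j⌋ : ℝ) := by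
  refine for2_map _ (by simp [roundC, floorC, block, Cmd.wi])
    (by simp [roundC, floorC, block, Cmd.wi]) s n hn b (fun i j => (⌊F i j⌋ : ℝ)) ?_
  intro i hi j hj s' hfr h1 h2 _ i' j'
  have hev : e.val s' = F i j := by
    refine he i hi j hj s' (fun x hx1 hx2 hx3 => hfr.r x ?_) (fun c hcb => hfr.a c ?_) h1 h2
    · simp [for2, roundC, floorC, block, Cmd.wr, hx1, hx2, hx3]
    · simp [for2, roundC, floorC, block, Cmd.wa, hcb]
  have hc' : Cst m s' := hc.congr
    (hfr.i iM (by simp [for2, roundC, floorC, block, Cmd.wi]))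
    (hfr.r rB (by simp [for2, roundC, floorC, block, Cmd.wr]))
    (hfr.r rHf (by simp [for2, roundC, floorC, block, Cmd.wr]))
  rw [round_spec b _ _ e s' m hc' (by decide) (by decide) (by rw [hev]; exact hF i hi j hj)]
  simp only [Ix.val, h1, h2, hev]

/-! ### packed products -/

lemma digits_bound (d : ℕ → ℤ) (B : ℤ) (hB : 1 ≤ B) (t : ℕ) (h0 : ∀ j < t, 0 ≤ d j)
    (h1 : ∀ j < t, d j < B) :
    0 ≤ ∑ j ∈ Finset.range t, d j * B ^ j ∧ ∑ j ∈ Finset.range t, d j * B ^ j < B ^ t := by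
  induction t with
  | zero => simp
  | succ t ih =>
    obtain ⟨i1, i2⟩ := ih (fun j hj => h0 j (by omega)) (fun j hj => h1 j (by omega))
    rw [Finset.sum_range_succ]
    have hp : 0 < B ^ t := by positivity
    have a1 := h0 t (by omega)
    have a2 := h1 t (by omega)
    refine ⟨by positivity, ?_⟩
    have : d t * B ^ t ≤ (B - 1) * B ^ t := mul_le_mul_of_nonneg_right (by omega) hp.le
    rw [pow_succ]
    nlinarith

theorem pack_spec (q : ℕ) (s : Mem) (n m : ℕ) (hn : s.i iN = n) (hB : s.r rB = 2 ^ m) (i' : ℕ) :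
    ((packC q).run s).a aQ i' 0 =
      if i' = s.i iU then ∑ j ∈ Finset.range n, s.a q (s.i iU) j * (2 ^ m) ^ j
      else s.a aQ i' 0 := by
  simp only [packC, block, run_seq, run_setr, run_put]
  set s1 := s.setr rAcc ((Rx.lit 0).val s) with hs1
  have hn1 : (Ix.var iN).val s1 = n := hn
  have key := loop_inv iV (.var iN)
    (.setr rAcc (.add (.mul (.var rAcc) (.var rB)) (.get q (.var iU)
      (.sub (.sub (.var iN) (.lit 1)) (.var iV))))) s1 n hn1
    (fun t s' => s'.r rAcc = ∑ i ∈ Finset.range t, s.a q (s.i iU) (n - 1 - i) *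
      (2 ^ m) ^ (t - 1 - i)) (by simp [hs1, setr_self, Rx.val]) (by
      intro t ht s' hfr hP
      rw [run_setr, setr_self]
      simp only [Rx.val, Ix.val, seti_r, seti_a, seti_i]
      have e1 : s'.r rB = 2 ^ m := by
        rw [hfr.r rB (by rfl), hs1, setr_ne _ _ (by decide), hB]
      have e2 : s'.i iU = s.i iU := by rw [hfr.i iU (by rfl), hs1, setr_i]
      have e3 : s'.i iN = n := by rw [hfr.i iN (by rfl), hs1, setr_i, hn]
      have e4 : s'.a q = s.a q := by rw [hfr.a q (by simp [Cmd.wa]), hs1, setr_a]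
      simp only [show (iU = iV) = False by decide, show (iN = iV) = False by decide, if_false,
        if_true]
      rw [hP, e1, e2, e3, e4, Finset.sum_range_succ, Finset.sum_mul]
      have : t + 1 - 1 - t = 0 := by omega
      rw [this, pow_zero, mul_one]
      congr 1
      refine Finset.sum_congr rfl fun i hi => ?_
      rw [Finset.mem_range] at hi
      have : t + 1 - 1 - i = (t - 1 - i) + 1 := by omega
      rw [this, pow_succ]; ring)
  have hfr := Fr.run (.loop iV (.var iN) (.setr rAcc (.add (.mul (.var rAcc) (.var rB))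
    (.get q (.var iU) (.sub (.sub (.var iN) (.lit 1)) (.var iV)))))) s1
  set s2 := (Cmd.loop iV (.var iN) (.setr rAcc (.add (.mul (.var rAcc) (.var rB))
    (.get q (.var iU) (.sub (.sub (.var iN) (.lit 1)) (.var iV)))))).run s1 with hs2
  clear_value s2
  have e2 : s2.i iU = s.i iU := by rw [hfr.i iU (by rfl), hs1, setr_i]
  have e4 : s2.a aQ = s.a aQ := by rw [hfr.a aQ (by rfl), hs1, setr_a]
  rw [seta_a]
  simp only [Ix.val, Rx.val, e2, e4, true_and, and_true]
  split_ifs with h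
  · rw [key]
    rw [← Finset.sum_range_reflect]
    refine Finset.sum_congr rfl fun i hi => ?_
    rw [Finset.mem_range] at hi
    have : n - 1 - (n - 1 - i) = i := by omega
    rw [this]
  · rfl


/-- more constants for packing -/
structure Cst2 (n m : ℕ) (s : Mem) : Prop extends Cst m s where
  hn : s.i iN = n
  hTop : s.r rTop = (2 ^ m) ^ (n - 1)
  hSh : s.r rSh = ∑ j ∈ Finset.range n, 2 ^ m / 2 * (2 ^ m) ^ j

lemma Cst2.congr {n m : ℕ} {s s' : Mem} (h : Cst2 n m s) (h1 : s'.i iM = s.i iM)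
    (h2 : s'.r rB = s.r rB) (h3 : s'.r rHf = s.r rHf) (h4 : s'.i iN = s.i iN)
    (h5 : s'.r rTop = s.r rTop) (h6 : s'.r rSh = s.r rSh) : Cst2 n m s' :=
  ⟨h.toCst.congr h1 h2 h3, h4.trans h.hn, h5.trans h.hTop, h6.trans h.hSh⟩

/-- body of the unpacking loop -/
def unpackB (dst : ℕ) : Cmd := block [
    .setr rZ (.div (.var rAcc) (.var rPw)),
    floorC,
    .put dst (.var iU) (.sub (.sub (.var iN) (.lit 1)) (.var iV)) (.sub (.var rW) (.var rHf)),
    .setr rAcc (.sub (.var rAcc) (.mul (.var rW) (.var rPw))),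
    .setr rPw (.div (.var rPw) (.var rB))]

lemma unpackB_spec (dst : ℕ) (s : Mem) (n m : ℕ) (hc : Cst2 n m s) (t : ℕ) (ht : t < n)
    (hv : s.i iV = t) (d : ℕ → ℤ) (h0 : ∀ j < n, 0 ≤ d j) (h1 : ∀ j < n, d j < 2 ^ m)
    (hacc : s.r rAcc = ∑ j ∈ Finset.range (n - t), (d j : ℝ) * (2 ^ m) ^ j)
    (hpw : s.r rPw = (2 ^ m) ^ (n - 1 - t)) :
    ((unpackB dst).run s).r rAcc = ∑ j ∈ Finset.range (n - (t + 1)), (d j : ℝ) * (2 ^ m) ^ j ∧
    (t + 1 < n → ((unpackB dst).run s).r rPw = (2 ^ m) ^ (n - 1 - (t + 1))) ∧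
    ∀ i' j', ((unpackB dst).run s).a dst i' j' =
      if i' = s.i iU ∧ j' = n - 1 - t then (d (n - 1 - t) : ℝ) - 2 ^ m / 2 else s.a dst i' j' := by
  simp only [unpackB, block, run_seq, run_setr, run_put]
  set s1 := s.setr rZ ((Rx.div (.var rAcc) (.var rPw)).val s) with hs1
  set r := n - 1 - t with hr
  have hrn : n - t = r + 1 := by omega
  have hrn' : n - (t + 1) = r := by omega
  have hBp : (0 : ℝ) < (2 ^ m) ^ r := by positivity
  obtain ⟨q0, q1⟩ := digits_bound d (2 ^ m) (one_le_pow₀ (by norm_num)) r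
    (fun j hj => h0 j (by omega)) (fun j hj => h1 j (by omega))
  have q0' : (0 : ℝ) ≤ ∑ j ∈ Finset.range r, (d j : ℝ) * (2 ^ m) ^ j := by exact_mod_cast q0
  have q1' : ∑ j ∈ Finset.range r, (d j : ℝ) * (2 ^ m) ^ j < (2 ^ m) ^ r := by exact_mod_cast q1
  set S : ℝ := ∑ j ∈ Finset.range r, (d j : ℝ) * (2 ^ m) ^ j with hS
  have hacc' : s.r rAcc = S + d r * (2 ^ m) ^ r := by
    rw [hacc, hrn, Finset.sum_range_succ]
  have hz : s1.r rZ = S / (2 ^ m) ^ r + d r := by
    rw [hs1, setr_self]; simp only [Rx.val]; rw [hacc', hpw]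
    field_simp
  have hq0 : 0 ≤ S / (2 ^ m) ^ r := div_nonneg q0' hBp.le
  have hq1 : S / (2 ^ m) ^ r < 1 := (div_lt_one hBp).2 q1'
  have d0 : (0 : ℝ) ≤ d r := by exact_mod_cast h0 r (by omega)
  have d1 : (d r : ℝ) + 1 ≤ 2 ^ m := by exact_mod_cast h1 r (by omega)
  have hfl := floor_spec s1 m hc.hM (by rw [hs1, setr_ne _ _ (by decide)]; exact hc.hB)
    (by rw [hz]; linarith) (by rw [hz]; linarith)
  have hfloor : ⌊s1.r rZ⌋ = d r := by
    rw [hz, Int.floor_add_intCast]
    have : ⌊S / (2 ^ m) ^ r⌋ = 0 := Int.floor_eq_zero_iff.2 ⟨hq0, hq1⟩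
    rw [this, zero_add]
  rw [hfloor] at hfl
  have hfr := Fr.run floorC s1
  set s2 := floorC.run s1 with hs2
  clear_value s2
  have f1 : s2.r rHf = 2 ^ m / 2 := by
    rw [hfr.r rHf (by decide), hs1, setr_ne _ _ (by decide), hc.hHf]
  have f2 : s2.r rAcc = S + d r * (2 ^ m) ^ r := by
    rw [hfr.r rAcc (by decide), hs1, setr_ne _ _ (by decide), hacc']
  have f3 : s2.r rPw = (2 ^ m) ^ r := by
    rw [hfr.r rPw (by decide), hs1, setr_ne _ _ (by decide), hpw]
  have f4 : s2.r rB = 2 ^ m := by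
    rw [hfr.r rB (by decide), hs1, setr_ne _ _ (by decide), hc.hB]
  have f5 : s2.i iU = s.i iU := by rw [hfr.i iU (by decide), hs1, setr_i]
  have f6 : s2.i iV = t := by rw [hfr.i iV (by decide), hs1, setr_i, hv]
  have f7 : s2.i iN = n := by rw [hfr.i iN (by decide), hs1, setr_i, hc.hn]
  have f8 : s2.a dst = s.a dst := by
    rw [hfr.a dst (by rfl), hs1, setr_a]
  simp only [Rx.val, Ix.val, seta_r, seta_a, setr_r, setr_a, f1, f2, f3, f4, f5, f6, f7, f8, hfl]
  refine ⟨?_, ?_, ?_⟩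
  · simp only [show (rAcc = rPw) = False by decide, if_false, if_true]
    rw [hrn']
    ring
  · intro h2
    simp only [if_true, show (rB = rAcc) = False by decide, show (rPw = rAcc) = False by decide,
      if_false]
    have : r = (n - 1 - (t + 1)) + 1 := by omega
    rw [this, pow_succ, mul_div_assoc, div_self (by positivity), mul_one]
  · intro i' j'
    simp only [true_and]
    rw [hr]

theorem unpack_spec (dst p : ℕ) (hp : p ≠ dst) (hq : aQ ≠ dst) (s : Mem) (n m : ℕ)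
    (hc : Cst2 n m s) (Q : ℕ → ℕ → ℝ)
    (hQ : ∀ k < n, s.a aQ k 0 = ∑ j ∈ Finset.range n, Q k j * (2 ^ m) ^ j)
    (C : ℕ → ℤ) (hC : ∀ j < n, ∑ k ∈ Finset.range n, s.a p (s.i iU) k * Q k j = C j)
    (hCb : ∀ j < n, |(C j : ℝ)| < 2 ^ m / 2) (i' j' : ℕ) :
    ((unpackC dst p).run s).a dst i' j' =
      if i' = s.i iU ∧ j' < n then (C j' : ℝ) else s.a dst i' j' := by
  obtain ⟨m', rfl⟩ : ∃ m', m = m' + 1 := ⟨m - 1, by have := hc.hm; omega⟩
  have hhalf : (2 : ℝ) ^ (m' + 1) / 2 = ((2 ^ m' : ℤ) : ℝ) := by rw [pow_succ]; push_cast; simp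
  change ((block [.setr rAcc (.var rSh), _, .setr rPw (.var rTop),
    .loop iV (.var iN) (unpackB dst)]).run s).a dst i' j' = _
  simp only [block, run_seq, run_setr]
  set s1 := s.setr rAcc ((Rx.var rSh).val s) with hs1
  set c1 : Cmd := .loop iW (.var iN)
    (.setr rAcc (.add (.var rAcc) (.mul (.get p (.var iU) (.var iW)) (.get aQ (.var iW) (.lit 0)))))
    with hc1
  have key1 := loop_inv iW (.var iN)
    (.setr rAcc (.add (.var rAcc) (.mul (.get p (.var iU) (.var iW)) (.get aQ (.var iW) (.lit 0)))))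
    s1 n hc.hn
    (fun t s' => s'.r rAcc = (∑ j ∈ Finset.range n, 2 ^ (m' + 1) / 2 * (2 ^ (m' + 1)) ^ j) +
      ∑ k ∈ Finset.range t, s.a p (s.i iU) k *
        ∑ j ∈ Finset.range n, Q k j * (2 ^ (m' + 1)) ^ j)
    (by simp only [hs1, setr_self, Rx.val, hc.hSh]; simp) (by
      intro t ht s' hfr hP
      rw [run_setr, setr_self]
      simp only [Rx.val, Ix.val, seti_r, seti_a, seti_i]
      have e2 : s'.i iU = s.i iU := by rw [hfr.i iU (by rfl), hs1, setr_i]
      have e4 : s'.a p = s.a p := by rw [hfr.a p (by rfl), hs1, setr_a]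
      have e5 : s'.a aQ = s.a aQ := by rw [hfr.a aQ (by rfl), hs1, setr_a]
      simp only [show (iU = iW) = False by decide, if_false, if_true]
      rw [hP, e2, e4, e5, hQ t ht, Finset.sum_range_succ, add_assoc])
  have hfr1 := Fr.run c1 s1
  change (c1.run s1).r rAcc = _ at key1
  set s2 := c1.run s1 with hs2
  clear_value s2
  set d : ℕ → ℤ := fun j => C j + 2 ^ m' with hd
  have hd0 : ∀ j < n, 0 ≤ d j := by
    intro j hj
    have h1 := (abs_lt.1 (hCb j hj)).1
    rw [hhalf] at h1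
    have h2 : -(2 ^ m' : ℤ) < C j := by exact_mod_cast h1
    simp only [hd]; omega
  have hd1 : ∀ j < n, d j < 2 ^ (m' + 1) := by
    intro j hj
    have h1 := (abs_lt.1 (hCb j hj)).2
    rw [hhalf] at h1
    have h2 : C j < (2 ^ m' : ℤ) := by exact_mod_cast h1
    simp only [hd]
    rw [pow_succ]; omega
  have hacc2 : s2.r rAcc = ∑ j ∈ Finset.range n, (d j : ℝ) * (2 ^ (m' + 1)) ^ j := by
    rw [key1]
    have h1 : ∑ k ∈ Finset.range n, s.a p (s.i iU) k *
        ∑ j ∈ Finset.range n, Q k j * (2 ^ (m' + 1)) ^ j =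
        ∑ j ∈ Finset.range n, (C j : ℝ) * (2 ^ (m' + 1)) ^ j := by
      simp only [Finset.mul_sum]
      rw [Finset.sum_comm]
      refine Finset.sum_congr rfl fun j hj => ?_
      rw [Finset.mem_range] at hj
      rw [← hC j hj, Finset.sum_mul]
      refine Finset.sum_congr rfl fun k _ => by ring
    rw [h1, ← Finset.sum_add_distrib]
    refine Finset.sum_congr rfl fun j _ => ?_
    rw [hhalf]
    simp only [hd]; push_cast; ring
  set s3 := s2.setr rPw ((Rx.var rTop).val s2) with hs3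
  have hc3 : Cst2 n (m' + 1) s3 := hc.congr
    (by rw [hs3, setr_i, hfr1.i iM (by rfl), hs1, setr_i])
    (by rw [hs3, setr_ne _ _ (by decide), hfr1.r rB (by rfl), hs1, setr_ne _ _ (by decide)])
    (by rw [hs3, setr_ne _ _ (by decide), hfr1.r rHf (by rfl), hs1, setr_ne _ _ (by decide)])
    (by rw [hs3, setr_i, hfr1.i iN (by rfl), hs1, setr_i])
    (by rw [hs3, setr_ne _ _ (by decide), hfr1.r rTop (by rfl), hs1, setr_ne _ _ (by decide)])
    (by rw [hs3, setr_ne _ _ (by decide), hfr1.r rSh (by rfl), hs1, setr_ne _ _ (by decide)])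
  have hU3 : s3.i iU = s.i iU := by rw [hs3, setr_i, hfr1.i iU (by rfl), hs1, setr_i]
  have ha3 : s3.a dst = s.a dst := by rw [hs3, setr_a, hfr1.a dst (by rfl), hs1, setr_a]
  have hacc3 : s3.r rAcc = ∑ j ∈ Finset.range n, (d j : ℝ) * (2 ^ (m' + 1)) ^ j := by
    rw [hs3, setr_ne _ _ (by decide), hacc2]
  have hpw3 : s3.r rPw = (2 ^ (m' + 1)) ^ (n - 1) := by
    rw [hs3, setr_self]; change s2.r rTop = _
    rw [hfr1.r rTop (by rfl), hs1, setr_ne _ _ (by decide), hc.hTop]
  clear_value s3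
  have key2 := loop_inv iV (.var iN) (unpackB dst) s3 n hc3.hn
    (fun t s' => s'.r rAcc = ∑ j ∈ Finset.range (n - t), (d j : ℝ) * (2 ^ (m' + 1)) ^ j ∧
      (t < n → s'.r rPw = (2 ^ (m' + 1)) ^ (n - 1 - t)) ∧
      ∀ i' j', s'.a dst i' j' = if i' = s.i iU ∧ j' < n ∧ n ≤ j' + t then (C j' : ℝ)
        else s.a dst i' j')
    ⟨by simpa using hacc3, fun _ => by simpa using hpw3, by
      intro i' j'
      rw [if_neg (by omega), ha3]⟩ (by
      intro t ht s' hfr hP
      obtain ⟨P1, P2, P3⟩ := hP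
      have hfrU : s'.i iU = s.i iU := by rw [hfr.i iU (by rfl), hU3]
      obtain ⟨R1, R2, R3⟩ := unpackB_spec dst (s'.seti iV t) n (m' + 1)
        (hc3.congr (by rw [seti_ne _ _ (by decide), hfr.i iM (by rfl)])
          (by rw [seti_r, hfr.r rB (by rfl)]) (by rw [seti_r, hfr.r rHf (by rfl)])
          (by rw [seti_ne _ _ (by decide), hfr.i iN (by rfl)])
          (by rw [seti_r, hfr.r rTop (by rfl)]) (by rw [seti_r, hfr.r rSh (by rfl)]))
        t ht (seti_self _ _ _) d hd0 hd1 (by rw [seti_r, P1]) (by rw [seti_r, P2 ht])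
      refine ⟨R1, R2, ?_⟩
      intro i' j'
      rw [R3 i' j', seti_ne _ _ (by decide), hfrU, seti_a, P3 i' j']
      by_cases h1 : i' = s.i iU
      · by_cases h2 : j' = n - 1 - t
        · rw [if_pos ⟨h1, h2⟩, if_pos ⟨h1, by omega, by omega⟩, h2, hhalf]
          simp only [hd]; push_cast; ring
        · rw [if_neg (by omega)]
          by_cases h3 : j' < n ∧ n ≤ j' + t
          · rw [if_pos ⟨h1, h3⟩, if_pos ⟨h1, by omega, by omega⟩]
          · rw [if_neg (by omega), if_neg (by omega)]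
      · rw [if_neg (by omega), if_neg (by omega), if_neg (by omega)])
  obtain ⟨-, -, K3⟩ := key2
  rw [K3 i' j']
  by_cases h : i' = s.i iU ∧ j' < n
  · rw [if_pos ⟨h.1, h.2, by omega⟩, if_pos h]
  · rw [if_neg (by omega), if_neg h]

/-- The packed product computes the product of two integer matrices. -/
theorem prod_spec (dst p q : ℕ) (hp : p ≠ dst) (hq : aQ ≠ dst) (hpq : p ≠ aQ) (hqq : q ≠ aQ)
    (s : Mem) (n m : ℕ) (hc : Cst2 n m s) (C : ℕ → ℕ → ℤ)
    (hC : ∀ i < n, ∀ j < n, ∑ k ∈ Finset.range n, s.a p i k * s.a q k j = C i j)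
    (hCb : ∀ i < n, ∀ j < n, |(C i j : ℝ)| < 2 ^ m / 2) :
    ∀ i < n, ∀ j < n, ((prodC dst p q).run s).a dst i j = C i j := by
  unfold prodC
  rw [run_seq]
  have hfr1 := Fr.run (.loop iU (.var iN) (packC q)) s
  have key1 := for1_map (packC q) s n hc.hn aQ
    (fun k => ∑ j ∈ Finset.range n, s.a q k j * (2 ^ m) ^ j) (by
      intro k hk s' hfr hU _ i'
      rw [pack_spec q s' n m (by rw [hfr.i iN (by rfl)]; exact hc.hn)
        (by rw [hfr.r rB (by rfl)]; exact hc.hB), hU, hfr.a q (by simp [packC, block, Cmd.wa, hqq])])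
  set s1 := (Cmd.loop iU (.var iN) (packC q)).run s with hs1
  clear_value s1
  have hc1 : Cst2 n m s1 := hc.congr (hfr1.i iM (by rfl)) (hfr1.r rB (by rfl))
    (hfr1.r rHf (by rfl)) (hfr1.i iN (by rfl)) (hfr1.r rTop (by rfl)) (hfr1.r rSh (by rfl))
  have hp1 : s1.a p = s.a p := hfr1.a p (by simp [packC, block, Cmd.wa, hpq])
  have key2 := loop_inv iU (.var iN) (unpackC dst p) s1 n hc1.hn
    (fun t s' => ∀ i < t, ∀ j < n, s'.a dst i j = C i j)
    (by intro i hi; omega) (by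
      intro t ht s' hfr hP i hi j hj
      have hU : (s'.seti iU t).i iU = t := seti_self _ _ _
      have hpa : (s'.seti iU t).a p = s.a p := by
        rw [seti_a, hfr.a p ?_, hp1]
        simp [unpackC, floorC, block, Cmd.wa, hp]
      have hqa : (s'.seti iU t).a aQ = s1.a aQ := by
        rw [seti_a, hfr.a aQ ?_]
        simpa [unpackC, floorC, block, Cmd.wa] using hq
      have hc' : Cst2 n m (s'.seti iU t) := hc1.congr
        (by rw [seti_ne _ _ (by decide), hfr.i iM (by rfl)])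
        (by rw [seti_r, hfr.r rB (by rfl)]) (by rw [seti_r, hfr.r rHf (by rfl)])
        (by rw [seti_ne _ _ (by decide), hfr.i iN (by rfl)])
        (by rw [seti_r, hfr.r rTop (by rfl)]) (by rw [seti_r, hfr.r rSh (by rfl)])
      rw [unpack_spec dst p hp hq (s'.seti iU t) n m hc' (fun k j => s.a q k j)
        (fun k hk => by rw [hqa, key1 k hk]) (fun j => C t j)
        (fun j hj => by rw [hU, hpa]; exact hC t ht j hj) (fun j hj => hCb t ht j hj) i j, hU]
      by_cases h1 : i = t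
      · rw [if_pos ⟨h1, hj⟩, h1]
      · rw [if_neg (by omega), seti_a]
        exact hP i (by omega) j hj)
  exact key2

end Pool.Agent.H87.RL
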