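import Pool.Agent.H87.RL.Main

namespace Pool.Agent.H87.RL

open Matrix
open scoped Matrix.Norms.L2Operator

/-- the vector stored in column `0` of an array -/
def vec (n : ℕ) (f : ℕ → ℕ → ℝ) : Fin n → ℝ := fun i => f i 0

lemma vec_apply (n : ℕ) (f : ℕ → ℕ → ℝ) (i : Fin n) : vec n f i = f i 0 := rfl

lemma norm_spec (s : Mem) (n : ℕ) (hn : s.i iN = n) :
    (normC.run s).r rRR = nrm (vec n (s.a aR)) ^ 2 := by
  unfold normC
  rw [run_seq, run_setr]
  have key := loop_inv iU (.var iN) (.setr rRR (.add (.var rRR)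
    (.mul (.get aR (.var iU) (.lit 0)) (.get aR (.var iU) (.lit 0)))))
    (s.setr rRR ((Rx.lit 0).val s)) n hn
    (fun j s' => s'.r rRR = ∑ i ∈ Finset.range j, s.a aR i 0 ^ 2)
    (by rw [setr_self]; simp [Rx.val]) (by
      intro j hj s' hfr hP
      rw [run_setr, setr_self]
      simp only [Rx.val, Ix.val, seti_r, seti_a, seti_self]
      rw [hP, hfr.a aR (by rfl), setr_a, Finset.sum_range_succ]
      ring)
  rw [key, nrm_sq, Finset.sum_range]
  rfl

lemma dot_spec (p v : ℕ) (s : Mem) (n : ℕ) (hn : s.i iN = n) :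
    ((dotC p v).run s).r rAcc = ∑ j ∈ Finset.range n, s.a p (s.i iU) j * s.a v j 0 := by
  unfold dotC
  rw [run_seq, run_setr]
  have key := loop_inv iV (.var iN) (.setr rAcc (.add (.var rAcc)
    (.mul (.get p (.var iU) (.var iV)) (.get v (.var iV) (.lit 0)))))
    (s.setr rAcc ((Rx.lit 0).val s)) n hn
    (fun j s' => s'.r rAcc = ∑ i ∈ Finset.range j, s.a p (s.i iU) i * s.a v i 0)
    (by rw [setr_self]; simp [Rx.val]) (by
      intro j hj s' hfr hP
      rw [run_setr, setr_self]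
      simp only [Rx.val, Ix.val, seti_r, seti_a, seti_self]
      rw [hP, hfr.a p (by rfl), hfr.a v (by rfl), setr_a, seti_ne _ _ (by decide),
        hfr.i iU (by rfl), setr_i, Finset.sum_range_succ])
  exact key

/-- one step of the refinement -/
theorem refine_spec (s : Mem) (n : ℕ) (hn : s.i iN = n) :
    vec n ((refineC.run s).a aOut) = vec n (s.a aOut) + mat n (s.a aX) *ᵥ vec n (s.a aR) ∧
    vec n ((refineC.run s).a aR) =
      vec n (s.a aR) - mat n (s.a aA) *ᵥ (mat n (s.a aX) *ᵥ vec n (s.a aR)) ∧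
    (refineC.run s).r rRR = nrm (vec n ((refineC.run s).a aR)) ^ 2 := by
  unfold refineC
  simp only [block, run_seq]
  set c1 : Cmd := .seq (dotC aX aR) (.seq (.put aU (.var iU) (.lit 0) (.var rAcc))
    (.put aOut (.var iU) (.lit 0) (.add (.get aOut (.var iU) (.lit 0)) (.var rAcc)))) with hc1
  have k1 := for1_map c1 s n hn aU
    (fun i => ∑ j ∈ Finset.range n, s.a aX i j * s.a aR j 0) (by
      intro i hi s' hfr hU _ i'
      rw [hc1, run_seq, run_seq, run_put, run_put]
      have hd := dot_spec aX aR s' n (by rw [hfr.i iN (by rfl), hn])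
      have hf := Fr.run (dotC aX aR) s'
      set t := (dotC aX aR).run s' with ht
      clear_value t
      rw [seta_ne _ _ _ _ (show aU ≠ aOut by decide), seta_a]
      simp only [Ix.val, Rx.val, true_and, and_true]
      rw [hf.i iU (by rfl), hU, hd, hU, hfr.a aX (by rfl), hfr.a aR (by rfl), hf.a aU (by rfl)])
  have k1' := for1_map c1 s n hn aOut
    (fun i => s.a aOut i 0 + ∑ j ∈ Finset.range n, s.a aX i j * s.a aR j 0) (by
      intro i hi s' hfr hU hun i'
      rw [hc1, run_seq, run_seq, run_put, run_put]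
      have hd := dot_spec aX aR s' n (by rw [hfr.i iN (by rfl), hn])
      have hf := Fr.run (dotC aX aR) s'
      set t := (dotC aX aR).run s' with ht
      clear_value t
      rw [seta_a]
      simp only [Ix.val, Rx.val, true_and, and_true, seta_i, seta_r]
      rw [seta_ne _ _ _ _ (show aOut ≠ aU by decide), hf.i iU (by rfl), hU, hd, hU,
        hfr.a aX (by rfl), hfr.a aR (by rfl), hf.a aOut (by rfl), hun])
  have f1 := Fr.run (.loop iU (.var iN) c1) s
  set s1 := (Cmd.loop iU (.var iN) c1).run s with hs1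
  clear_value s1
  have hn1 : s1.i iN = n := (f1.i iN (by rfl)).trans hn
  set c2 : Cmd := .seq (dotC aA aU) (.put aR (.var iU) (.lit 0)
    (.sub (.get aR (.var iU) (.lit 0)) (.var rAcc))) with hc2
  have k2 := for1_map c2 s1 n hn1 aR
    (fun i => s1.a aR i 0 - ∑ j ∈ Finset.range n, s1.a aA i j * s1.a aU j 0) (by
      intro i hi s' hfr hU hun i'
      rw [hc2, run_seq, run_put]
      have hd := dot_spec aA aU s' n (by rw [hfr.i iN (by rfl), hn1])
      have hf := Fr.run (dotC aA aU) s'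
      set t := (dotC aA aU).run s' with ht
      clear_value t
      rw [seta_a]
      simp only [Ix.val, Rx.val, true_and, and_true]
      rw [hf.i iU (by rfl), hU, hd, hU,
        hfr.a aA (by rfl), hfr.a aU (by rfl), hf.a aR (by rfl), hun])
  have f2 := Fr.run (.loop iU (.var iN) c2) s1
  set s2 := (Cmd.loop iU (.var iN) c2).run s1 with hs2
  clear_value s2
  have hn2 : s2.i iN = n := (f2.i iN (by rfl)).trans hn1
  have f3 := Fr.run normC s2
  have k3 := norm_spec s2 n hn2
  set s3 := normC.run s2 with hs3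
  clear_value s3
  have eU : vec n (s1.a aU) = mat n (s.a aX) *ᵥ vec n (s.a aR) := by
    funext i
    rw [vec_apply, k1 i i.2, Finset.sum_range]
    rfl
  refine ⟨?_, ?_, ?_⟩
  · rw [f3.a aOut (by rfl), f2.a aOut (by rfl)]
    funext i
    rw [vec_apply, k1' i i.2, Finset.sum_range]
    rfl
  · rw [f3.a aR (by rfl), ← eU]
    funext i
    rw [vec_apply, k2 i i.2, Finset.sum_range, f1.a aR (by rfl), f1.a aA (by rfl)]
    rfl
  · rw [k3, f3.a aR (by rfl)]

/-- initialisation of the refinement -/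
theorem prep_spec (s : Mem) (n : ℕ) (hn : s.i iN = n) :
    mat n ((prepC.run s).a aX) = (s.r rD)⁻¹ • mat n (s.a aY) ∧
    vec n ((prepC.run s).a aOut) = 0 ∧
    vec n ((prepC.run s).a aR) = vec n (s.a aB) ∧
    (prepC.run s).r rRR = nrm (vec n (s.a aB)) ^ 2 ∧
    (prepC.run s).r rBB = (s.r rE) ^ 2 * nrm (vec n (s.a aB)) ^ 2 := by
  unfold prepC
  simp only [block, run_seq]
  have k1 := for2_map (.put aX (.var iU) (.var iV) (.div (.get aY (.var iU) (.var iV)) (.var rD)))
    (by rfl) (by rfl) s n hn aX (fun i j => s.a aY i j / s.r rD) (by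
      intro i hi j hj s' hfr h1 h2 h3 i' j'
      rw [run_put, seta_a]
      simp only [Ix.val, Rx.val, h1, h2, true_and]
      rw [hfr.a aY (by rfl), hfr.r rD (by rfl)])
  have f1 := Fr.run (for2 (.put aX (.var iU) (.var iV)
    (.div (.get aY (.var iU) (.var iV)) (.var rD)))) s
  set s1 := (for2 (.put aX (.var iU) (.var iV)
    (.div (.get aY (.var iU) (.var iV)) (.var rD)))).run s with hs1
  clear_value s1
  have hn1 : s1.i iN = n := (f1.i iN (by rfl)).trans hn
  have k2 := for1_map (.put aOut (.var iU) (.lit 0) (.lit 0)) s1 n hn1 aOut (fun _ => 0) (by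
      intro i hi s' hfr hU _ i'
      rw [run_put, seta_a]
      simp only [Ix.val, Rx.val, hU, true_and, and_true, Nat.cast_zero])
  have f2 := Fr.run (.loop iU (.var iN) (.put aOut (.var iU) (.lit 0) (.lit 0))) s1
  set s2 := (Cmd.loop iU (.var iN) (.put aOut (.var iU) (.lit 0) (.lit 0))).run s1 with hs2
  clear_value s2
  have hn2 : s2.i iN = n := (f2.i iN (by rfl)).trans hn1
  have k3 := for1_map (.put aR (.var iU) (.lit 0) (.get aB (.var iU) (.lit 0))) s2 n hn2 aR
    (fun i => s2.a aB i 0) (by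
      intro i hi s' hfr hU _ i'
      rw [run_put, seta_a]
      simp only [Ix.val, Rx.val, hU, true_and, and_true]
      rw [hfr.a aB (by rfl)])
  have f3 := Fr.run (.loop iU (.var iN) (.put aR (.var iU) (.lit 0)
    (.get aB (.var iU) (.lit 0)))) s2
  set s3 := (Cmd.loop iU (.var iN) (.put aR (.var iU) (.lit 0)
    (.get aB (.var iU) (.lit 0)))).run s2 with hs3
  clear_value s3
  have hn3 : s3.i iN = n := (f3.i iN (by rfl)).trans hn2
  have eR : vec n (s3.a aR) = vec n (s.a aB) := by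
    funext i
    rw [vec_apply, k3 i i.2, f2.a aB (by rfl), f1.a aB (by rfl)]
    rfl
  have f4 := Fr.run normC s3
  have k4 := norm_spec s3 n hn3
  set s4 := normC.run s3 with hs4
  clear_value s4
  rw [run_setr]
  refine ⟨?_, ?_, ?_, ?_, ?_⟩
  · rw [setr_a, f4.a aX (by rfl), f3.a aX (by rfl), f2.a aX (by rfl)]
    ext i j
    rw [mat_apply, k1 i i.2 j j.2, Matrix.smul_apply, mat_apply, smul_eq_mul, inv_mul_eq_div]
  · rw [setr_a, f4.a aOut (by rfl), f3.a aOut (by rfl)]
    funext i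
    rw [vec_apply, k2 i i.2]; rfl
  · rw [setr_a, f4.a aR (by rfl), eR]
  · rw [setr_ne _ _ (by decide), k4, eR]
  · rw [setr_self]
    simp only [Rx.val]
    rw [k4, eR, f4.r rE (by rfl), f3.r rE (by rfl), f2.r rE (by rfl), f1.r rE (by rfl)]
    ring

/-- invariant of the refinement -/
structure RInv (n : ℕ) (A X : Matrix (Fin n) (Fin n) ℝ) (b : Fin n → ℝ) (ε : ℝ) (j : ℕ)
    (s : Mem) : Prop where
  hn : s.i iN = n
  hA : mat n (s.a aA) = A
  hX : mat n (s.a aX) = X
  hBB : s.r rBB = ε ^ 2 * nrm b ^ 2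
  hR : vec n (s.a aR) = b - A *ᵥ vec n (s.a aOut)
  hRR : s.r rRR = nrm (vec n (s.a aR)) ^ 2
  hle : nrm (vec n (s.a aR)) ≤ (1 / 2) ^ j * nrm b

theorem refine_inv {n : ℕ} {A X : Matrix (Fin n) (Fin n) ℝ} {b : Fin n → ℝ} {ε : ℝ} {j : ℕ}
    {s : Mem} (hAX : ‖1 - A * X‖ ≤ 1 / 2) (h : RInv n A X b ε j s) :
    RInv n A X b ε (j + 1) (refineC.run s) := by
  obtain ⟨k1, k2, k3⟩ := refine_spec s n h.hn
  have f := Fr.run refineC s
  refine ⟨(f.i iN (by rfl)).trans h.hn, by rw [f.a aA (by rfl)]; exact h.hA,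
    by rw [f.a aX (by rfl)]; exact h.hX, by rw [f.r rBB (by rfl)]; exact h.hBB, ?_, k3, ?_⟩
  · rw [k2, k1, Matrix.mulVec_add, h.hR, h.hA]
    abel
  · rw [k2, h.hA, h.hX]
    have e1 : vec n (s.a aR) - A *ᵥ (X *ᵥ vec n (s.a aR)) = (1 - A * X) *ᵥ vec n (s.a aR) := by
      rw [Matrix.sub_mulVec, Matrix.one_mulVec, ← Matrix.mulVec_mulVec]
    rw [e1, pow_succ]
    calc nrm ((1 - A * X) *ᵥ vec n (s.a aR)) ≤ ‖1 - A * X‖ * nrm (vec n (s.a aR)) :=
          nrm_mulVec_le _ _
      _ ≤ (1 / 2) * ((1 / 2) ^ j * nrm b) :=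
          mul_le_mul hAX h.hle (nrm_nonneg _) (by norm_num)
      _ = _ := by ring

end Pool.Agent.H87.RL
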