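import Pool.Agent.H87.RL.Newton

namespace Pool.Agent.H87.RL

open MeasureTheory Matrix Set
open scoped ENNReal

/-! ### sections -/

lemma pi_section_le {n : ℕ} {α : Type*} [MeasurableSpace α] (μ : Measure α)
    [IsProbabilityMeasure μ] (k : Fin n) {S : Set (Fin n → α)} (hS : MeasurableSet S) (c : ℝ≥0∞)
    (h : ∀ x : Fin n → α, μ {y | Function.update x k y ∈ S} ≤ c) :
    Measure.pi (fun _ : Fin n => μ) S ≤ c := by
  cases n with
  | zero => exact k.elim0
  | succ m =>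
    have hmp := measurePreserving_piFinSuccAbove (fun _ : Fin (m + 1) => μ) k
    set e := MeasurableEquiv.piFinSuccAbove (fun _ : Fin (m + 1) => α) k with he
    have h1 : Measure.pi (fun _ : Fin (m + 1) => μ) S =
        (μ.prod (Measure.pi fun _ : Fin m => μ)) (e.symm ⁻¹' S) := by
      rw [← hmp.measure_preimage (e.symm.measurable hS).nullMeasurableSet, ← preimage_comp]
      congr 1
      ext x
      simp
    rw [h1, Measure.prod_apply_symm (e.symm.measurable hS)]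
    calc ∫⁻ y, μ ((fun x => (x, y)) ⁻¹' (e.symm ⁻¹' S)) ∂(Measure.pi fun _ : Fin m => μ)
        ≤ ∫⁻ _, c ∂(Measure.pi fun _ : Fin m => μ) := by
          refine lintegral_mono fun y => ?_
          by_cases hα : Nonempty α
          · obtain ⟨a⟩ := hα
            refine (measure_mono ?_).trans (h (k.insertNth a y))
            intro z hz
            have hz' : k.insertNth z y ∈ S := hz
            show Function.update (k.insertNth a y) k z ∈ S
            rwa [Fin.update_insertNth]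
          · have : μ ((fun x => (x, y)) ⁻¹' (e.symm ⁻¹' S)) = 0 := by
              have hemp : ((fun x => (x, y)) ⁻¹' (e.symm ⁻¹' S) : Set α) = ∅ := by
                ext z; exact (hα ⟨z⟩).elim
              rw [hemp, measure_empty]
            rw [this]; exact zero_le
      _ = c := by simp

/-! ### normal vectors -/

/-- `u` has sup norm 1 -/
def Unit1 {n : ℕ} (u : Fin n → ℝ) : Prop := (∀ i, |u i| ≤ 1) ∧ ∃ i, |u i| = 1

lemma exists_scale {n : ℕ} {v : Fin n → ℝ} (hv : v ≠ 0) :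
    ∃ c : ℝ, 0 < c ∧ Unit1 (c • v) := by
  obtain ⟨i, hi⟩ := Function.ne_iff.1 hv
  have : Nonempty (Fin n) := ⟨i⟩
  obtain ⟨m, -, hm⟩ := Finset.exists_max_image Finset.univ (fun i => |v i|) Finset.univ_nonempty
  have hm0 : 0 < |v m| := lt_of_lt_of_le (abs_pos.2 hi) (hm i (Finset.mem_univ _))
  refine ⟨|v m|⁻¹, by positivity, fun j => ?_, m, ?_⟩
  · rw [Pi.smul_apply, smul_eq_mul, abs_mul, abs_of_pos (by positivity : 0 < |v m|⁻¹),
      inv_mul_le_iff₀ hm0, mul_one]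
    exact hm j (Finset.mem_univ _)
  · rw [Pi.smul_apply, smul_eq_mul, abs_mul, abs_of_pos (by positivity : 0 < |v m|⁻¹),
      inv_mul_cancel₀ hm0.ne']

lemma exists_normal {n : ℕ} (A : Fin n → Fin n → ℝ) (k : Fin n) :
    ∃ u : Fin n → ℝ, Unit1 u ∧ ∀ j, j ≠ k → ∑ i, A j i * u i = 0 := by
  set A' : Matrix (Fin n) (Fin n) ℝ := Matrix.of (Function.update A k 0) with hA'
  have hdet : A'.det = 0 := by
    refine Matrix.det_eq_zero_of_row_eq_zero k fun j => ?_
    simp [hA']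
  obtain ⟨v, hv0, hv⟩ := Matrix.exists_mulVec_eq_zero_iff.2 hdet
  obtain ⟨c, hc, hu⟩ := exists_scale hv0
  refine ⟨c • v, hu, fun j hj => ?_⟩
  have h1 := congrFun hv j
  simp only [Matrix.mulVec, dotProduct, hA', Matrix.of_apply, Function.update_of_ne hj,
    Pi.zero_apply] at h1
  calc ∑ i, A j i * (c • v) i = c * ∑ i, A j i * v i := by
        rw [Finset.mul_sum]
        refine Finset.sum_congr rfl fun i _ => ?_
        rw [Pi.smul_apply, smul_eq_mul]; ring
    _ = 0 := by rw [h1, mul_zero]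

/-- the distance of row `k` to the other rows is small -/
def Bd {n : ℕ} (A : Fin n → Fin n → ℝ) (k : Fin n) (τ : ℝ) : Prop :=
  ∀ u : Fin n → ℝ, Unit1 u → (∀ j, j ≠ k → ∑ i, A j i * u i = 0) → |∑ i, A k i * u i| < τ

lemma lowB_fail {n : ℕ} (hn : 1 ≤ n) (A : Fin n → Fin n → ℝ)
    (h : ¬ LowB (Matrix.of A)ᵀ ((n : ℝ) ^ 7)) :
    ∃ x : Fin n → ℝ, Unit1 x ∧ ∀ i, |∑ k, x k * A k i| < 1 / (n : ℝ) ^ 6 := by
  unfold LowB at h
  push Not at h
  obtain ⟨v, hv⟩ := h
  have hn' : (1 : ℝ) ≤ n := by exact_mod_cast hn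
  have hv0 : v ≠ 0 := by
    rintro rfl
    rw [Matrix.mulVec_zero] at hv
    have h0 : nrm (0 : Fin n → ℝ) = 0 := by rw [nrm_eq]; simp
    rw [h0] at hv
    simp at hv
  obtain ⟨c, hc, hu⟩ := exists_scale hv0
  have hsm : ∀ w : Fin n → ℝ, nrm (c • w) = c * nrm w := by
    intro w
    rw [nrm_eq, nrm_eq]
    have : ∑ i, (c • w) i ^ 2 = c ^ 2 * ∑ i, w i ^ 2 := by
      rw [Finset.mul_sum]
      exact Finset.sum_congr rfl fun i _ => by rw [Pi.smul_apply, smul_eq_mul]; ring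
    rw [this, Real.sqrt_mul (sq_nonneg _), Real.sqrt_sq hc.le]
  refine ⟨c • v, hu, fun i => ?_⟩
  have h1 : nrm (c • v) ≤ n := by
    rw [nrm_eq]
    refine (Real.sqrt_le_sqrt (?_ : ∑ i, (c • v) i ^ 2 ≤ (n : ℝ) ^ 2)).trans
      (Real.sqrt_sq (by linarith)).le
    calc ∑ i, (c • v) i ^ 2 ≤ ∑ _i : Fin n, (1 : ℝ) :=
          Finset.sum_le_sum fun i _ => (sq_le_one_iff_abs_le_one _).2 (hu.1 i)
      _ = n := by simp
      _ ≤ (n : ℝ) ^ 2 := by nlinarith
  have h2 : (n : ℝ) ^ 7 * nrm ((Matrix.of A)ᵀ *ᵥ (c • v)) < n := by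
    rw [Matrix.mulVec_smul, hsm]
    rw [hsm] at h1
    calc (n : ℝ) ^ 7 * (c * nrm ((Matrix.of A)ᵀ *ᵥ v))
        = c * ((n : ℝ) ^ 7 * nrm ((Matrix.of A)ᵀ *ᵥ v)) := by ring
      _ < c * nrm v := mul_lt_mul_of_pos_left hv hc
      _ ≤ n := h1
  have h3 : |∑ k, (c • v) k * A k i| ≤ nrm ((Matrix.of A)ᵀ *ᵥ (c • v)) := by
    have h4 : ∑ k, (c • v) k * A k i = ((Matrix.of A)ᵀ *ᵥ (c • v)) i := by
      simp only [Matrix.mulVec, dotProduct, Matrix.transpose_apply, Matrix.of_apply]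
      exact Finset.sum_congr rfl fun j _ => mul_comm _ _
    rw [h4, nrm_eq, ← Real.sqrt_sq_eq_abs]
    refine Real.sqrt_le_sqrt ?_
    exact Finset.single_le_sum (f := fun i => ((Matrix.of A)ᵀ *ᵥ (c • v)) i ^ 2)
      (fun _ _ => sq_nonneg _) (Finset.mem_univ i)
  refine lt_of_le_of_lt h3 ?_
  rw [lt_div_iff₀ (by positivity)]
  have h5 : (n : ℝ) * (nrm ((Matrix.of A)ᵀ *ᵥ (c • v)) * (n : ℝ) ^ 6) < (n : ℝ) * 1 := by
    have h6 : (n : ℝ) * (nrm ((Matrix.of A)ᵀ *ᵥ (c • v)) * (n : ℝ) ^ 6)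
        = (n : ℝ) ^ 7 * nrm ((Matrix.of A)ᵀ *ᵥ (c • v)) := by ring
    rw [h6]; linarith
  exact lt_of_mul_lt_mul_left h5 (by linarith)

lemma bd_of {n : ℕ} (hn : 1 ≤ n) (A : Fin n → Fin n → ℝ) {x : Fin n → ℝ} {δ ρ : ℝ}
    (hx : ∀ i, |∑ k, x k * A k i| < δ) {k : Fin n} (hρ : 0 < ρ) (hk : ρ ≤ |x k|) :
    Bd A k (n * δ / ρ) := by
  intro u hu hperp
  have h1 : x k * ∑ i, A k i * u i = ∑ i, (∑ j, x j * A j i) * u i := by
    have e1 : ∑ i, (∑ j, x j * A j i) * u i = ∑ j, x j * ∑ i, A j i * u i := by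
      simp_rw [Finset.sum_mul, Finset.mul_sum]
      rw [Finset.sum_comm]
      exact Finset.sum_congr rfl fun j _ => Finset.sum_congr rfl fun i _ => by ring
    rw [e1]
    refine (Finset.sum_eq_single (f := fun j => x j * ∑ i, A j i * u i) k ?_ ?_).symm
    · intro j _ hj
      rw [hperp j hj, mul_zero]
    · intro h; exact absurd (Finset.mem_univ k) h
  have : Nonempty (Fin n) := ⟨k⟩
  have h2 : |x k| * |∑ i, A k i * u i| < n * δ := by
    rw [← abs_mul, h1]
    calc |∑ i, (∑ j, x j * A j i) * u i| ≤ ∑ i, |(∑ j, x j * A j i) * u i| :=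
          Finset.abs_sum_le_sum_abs _ _
      _ < ∑ _i : Fin n, δ := by
          refine Finset.sum_lt_sum_of_nonempty Finset.univ_nonempty fun i _ => ?_
          rw [abs_mul]
          calc |∑ j, x j * A j i| * |u i| ≤ |∑ j, x j * A j i| * 1 :=
                mul_le_mul_of_nonneg_left (hu.1 i) (abs_nonneg _)
            _ < δ := by rw [mul_one]; exact hx i
      _ = n * δ := by simp
  rw [lt_div_iff₀ hρ]
  calc |∑ i, A k i * u i| * ρ ≤ |∑ i, A k i * u i| * |x k| :=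
        mul_le_mul_of_nonneg_left hk (abs_nonneg _)
    _ = |x k| * |∑ i, A k i * u i| := mul_comm _ _
    _ < _ := h2

end Pool.Agent.H87.RL
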