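import Pool.Agent.H87.RL.Refine

namespace Pool.Agent.H87.RL

open Matrix
open scoped Matrix.Norms.L2Operator

/-! ### the input -/

lemma input_A {n : ℕ} (A : Fin n → Fin n → ℝ) (b : Fin n → ℝ) (ε : ℝ) :
    mat n ((input A b ε).a aA) = Matrix.of A := by
  ext i j
  rw [mat_apply]
  simp only [input]
  rw [dif_pos ⟨by decide, i.2, j.2⟩]
  rfl

lemma input_B {n : ℕ} (A : Fin n → Fin n → ℝ) (b : Fin n → ℝ) (ε : ℝ) :
    vec n ((input A b ε).a aB) = b := by
  funext i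
  rw [vec_apply]
  simp only [input]
  rw [dif_neg (by rintro ⟨h, -⟩; exact absurd h (by decide)), dif_pos ⟨by decide, i.2, by decide⟩]

/-! ### numerics -/

/-- numerical facts about `q = 2 ^ K` -/
structure Num (n K : ℕ) (q D : ℝ) : Prop where
  hq : q = 2 ^ K
  hD : D = q ^ 50
  hq2 : 2 ≤ q
  hn : (n : ℝ) ≤ q

lemma Num.pow {n K : ℕ} {q D : ℝ} (h : Num n K q D) :
    (2 : ℝ) ^ (50 * K) = D ∧ (2 : ℝ) ^ (140 * K) = q ^ 140 := by
  rw [h.hD, h.hq, ← pow_mul, ← pow_mul, mul_comm K, mul_comm K]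
  exact ⟨rfl, rfl⟩

lemma Num.le_pow {n K : ℕ} {q D : ℝ} (h : Num n K q D) (a k : ℕ) : 2 ^ a * q ^ k ≤ q ^ (a + k) := by
  have h2 := h.hq2
  rw [pow_add]
  exact mul_le_mul_of_nonneg_right (pow_le_pow_left₀ (by norm_num) h2 a) (by positivity)

lemma Num.mono {n K : ℕ} {q D : ℝ} (h : Num n K q D) {a b : ℕ} (hab : a ≤ b) : q ^ a ≤ q ^ b :=
  pow_le_pow_right₀ (by linarith [h.hq2]) hab

lemma Num.par {n K : ℕ} {q D : ℝ} (h : Num n K q D) {A : Matrix (Fin n) (Fin n) ℝ}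
    (hA : LowB A (q ^ 7)) (hAe : ∀ i j, |A i j| ≤ q) : Par n (140 * K) A D (q ^ 7) q := by
  have h2 := h.hq2
  refine ⟨hA, one_le_pow₀ (by linarith), h.hn, by linarith, ?_, hAe, ?_⟩
  · rw [h.hD]; exact one_le_pow₀ (by linarith)
  · rw [h.pow.2, h.hD]
    have e1 : 10 * (q ^ 7) ^ 2 * (q ^ 50) ^ 2 * q ^ 2 = 10 * q ^ 116 := by ring
    rw [e1]
    have h3 := h.le_pow 5 116
    have h4 := h.mono (show 121 ≤ 140 by norm_num)
    have h5 : 0 < q ^ 116 := by positivity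
    norm_num at h3
    linarith

/-- facts about the Frobenius norm -/
lemma frob_facts {n : ℕ} (hn : 1 ≤ n) {A : Matrix (Fin n) (Fin n) ℝ} {L : ℝ} (hL : 0 < L)
    (hA : LowB A L) : 0 < ∑ i, ∑ j, A i j ^ 2 ∧ 1 ≤ (∑ i, ∑ j, A i j ^ 2) * L ^ 2 := by
  have h1 : 1 ≤ L * ‖A‖ := by
    have h2 := hA (Pi.single ⟨0, hn⟩ 1)
    have h3 : nrm (Pi.single (⟨0, hn⟩ : Fin n) (1 : ℝ) : Fin n → ℝ) = 1 := by
      rw [nrm_eq]; simp [Pi.single_apply]
    rw [h3] at h2
    refine h2.trans (mul_le_mul_of_nonneg_left ?_ hL.le)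
    have h4 := nrm_mulVec_le A (Pi.single ⟨0, hn⟩ 1)
    rwa [h3, mul_one] at h4
  have h5 := norm_sq_le_frob A
  have h6 : 1 ≤ (∑ i, ∑ j, A i j ^ 2) * L ^ 2 := by
    calc (1 : ℝ) ≤ (L * ‖A‖) ^ 2 := one_le_pow₀ h1
      _ = ‖A‖ ^ 2 * L ^ 2 := by ring
      _ ≤ _ := mul_le_mul_of_nonneg_right h5 (sq_nonneg _)
  refine ⟨?_, h6⟩
  by_contra hneg
  have h7 : (∑ i, ∑ j, A i j ^ 2) * L ^ 2 ≤ 0 :=
    mul_nonpos_of_nonpos_of_nonneg (not_lt.1 hneg) (sq_nonneg _)
  linarith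

/-- the state after `startC` -/
theorem start_state {n K : ℕ} {q D : ℝ} (h : Num n K q D) (hn : 1 ≤ n)
    {A : Matrix (Fin n) (Fin n) ℝ} (hA : LowB A (q ^ 7)) (hAe : ∀ i j, |A i j| ≤ q) (s : Mem)
    (hsn : s.i iN = n) (hsM : s.i iM = 140 * K) (hsl : s.i iL = 50 * K) (hK : 1 ≤ K)
    (hsA : mat n (s.a aA) = A) :
    NSt n (140 * K) A D (1 - 1 / (4 * q ^ 18)) (startC.run s) := by
  have h2 := h.hq2
  have hq0 : (0 : ℝ) < q := by linarith
  have hD0 : (0 : ℝ) < D := by rw [h.hD]; positivity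
  have hp := h.par hA hAe
  obtain ⟨hF0, hFL⟩ := frob_facts hn (by positivity : (0 : ℝ) < q ^ 7) hA
  set F := ∑ i, ∑ j, A i j ^ 2 with hF
  have hFle : F ≤ q ^ 4 := by
    refine (frob_le A hq0.le hAe).trans ?_
    calc ((n : ℝ) * q) ^ 2 ≤ (q * q) ^ 2 :=
          pow_le_pow_left₀ (by positivity) (mul_le_mul_of_nonneg_right h.hn hq0.le) 2
      _ = _ := by ring
  have hAn : ‖A‖ ≤ q ^ 2 := by
    refine (norm_le_of_entries A hq0.le hAe).trans ?_
    rw [sq]; exact mul_le_mul_of_nonneg_right h.hn hq0.le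
  have hAtn : ‖Aᵀ‖ ≤ q ^ 2 := by
    refine (norm_le_of_entries Aᵀ hq0.le fun i j => hAe j i).trans ?_
    rw [sq]; exact mul_le_mul_of_nonneg_right h.hn hq0.le
  have hFi : F⁻¹ ≤ q ^ 14 := by
    rw [inv_le_iff_one_le_mul₀ hF0]
    calc (1 : ℝ) ≤ F * (q ^ 7) ^ 2 := hFL
      _ = _ := by ring
  have hbig : D * q ^ 16 < 2 ^ (140 * K) / 2 := by
    rw [h.pow.2, h.hD]
    have h3 := h.le_pow 2 66
    have h4 := h.mono (show 68 ≤ 140 by norm_num)
    have h5 : 0 < q ^ 66 := by positivity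
    have h6 : q ^ 50 * q ^ 16 = q ^ 66 := by ring
    norm_num at h3
    linarith
  have hb1 : ‖(2 : ℝ) ^ (50 * K) • A‖ < 2 ^ (140 * K) / 2 := by
    rw [h.pow.1, norm_smul, Real.norm_of_nonneg hD0.le]
    refine lt_of_le_of_lt (mul_le_mul_of_nonneg_left (hAn.trans (h.mono (show 2 ≤ 16 by norm_num)))
      hD0.le) hbig
  have hb2 : ‖(2 : ℝ) ^ (50 * K) • (F⁻¹ • Aᵀ)‖ < 2 ^ (140 * K) / 2 := by
    rw [h.pow.1, norm_smul, norm_smul, Real.norm_of_nonneg hD0.le,
      Real.norm_of_nonneg (inv_nonneg.2 hF0.le)]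
    refine lt_of_le_of_lt (mul_le_mul_of_nonneg_left ?_ hD0.le) hbig
    calc F⁻¹ * ‖Aᵀ‖ ≤ q ^ 14 * q ^ 2 := mul_le_mul hFi hAtn (norm_nonneg _) (by positivity)
      _ = _ := by ring
  obtain ⟨k1, k2, k3, k4⟩ := startC_spec s n (140 * K) (50 * K) hsn hsM (by omega) hsl A hsA F hF
    hb1 hb2
  rw [h.pow.1] at k2 k3 k4
  refine ⟨k1, k2, k3, by rw [k4]; exact flo_int _, ?_⟩
  rw [k4]
  set Th := D • (F⁻¹ • Aᵀ) - flo (D • (F⁻¹ • Aᵀ)) with hTh
  have hThe : ∀ i j, |Th i j| ≤ 1 := flo_sub _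
  have hThn : ‖Th‖ ≤ q := by
    have := norm_le_of_entries Th zero_le_one hThe
    rw [mul_one] at this; exact this.trans h.hn
  have e1 : 1 - A * (D⁻¹ • flo (D • (F⁻¹ • Aᵀ))) = (1 - A * (F⁻¹ • Aᵀ)) + D⁻¹ • (A * Th) := by
    have e2 : flo (D • (F⁻¹ • Aᵀ)) = D • (F⁻¹ • Aᵀ) - Th := by rw [hTh]; abel
    rw [e2, smul_sub, smul_smul, inv_mul_cancel₀ hD0.ne', one_smul, Matrix.mul_sub,
      Matrix.mul_smul _ D⁻¹]
    abel
  rw [e1]
  have g1 := start_bound hA (by positivity) (le_refl F) hF0 hFL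
  have g2 : ‖D⁻¹ • (A * Th)‖ ≤ q ^ 3 / D := by
    rw [norm_smul, Real.norm_of_nonneg (by positivity)]
    calc D⁻¹ * ‖A * Th‖ ≤ D⁻¹ * (q ^ 2 * q) := by
          refine mul_le_mul_of_nonneg_left ((norm_mul_le _ _).trans ?_) (by positivity)
          exact mul_le_mul hAn hThn (norm_nonneg _) (by positivity)
      _ = _ := by field_simp
  have g3 : 1 / (2 * q ^ 18) ≤ 1 / (2 * (F * (q ^ 7) ^ 2)) := by
    refine one_div_le_one_div_of_le (by positivity) ?_
    have : F * (q ^ 7) ^ 2 ≤ q ^ 4 * (q ^ 7) ^ 2 := mul_le_mul_of_nonneg_right hFle (by positivity)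
    have e3 : q ^ 4 * (q ^ 7) ^ 2 = q ^ 18 := by ring
    linarith
  have g4 : q ^ 3 / D ≤ 1 / (4 * q ^ 18) := by
    rw [h.hD, div_le_div_iff₀ (by positivity) (by positivity)]
    have h3 := h.le_pow 2 21
    have h4 := h.mono (show 23 ≤ 50 by norm_num)
    norm_num at h3
    calc q ^ 3 * (4 * q ^ 18) = 4 * q ^ 21 := by ring
      _ ≤ 1 * q ^ 50 := by linarith
  have g5 : 1 / (2 * q ^ 18) = 1 / (4 * q ^ 18) + 1 / (4 * q ^ 18) := by field_simp; norm_num
  calc _ ≤ ‖1 - A * (F⁻¹ • Aᵀ)‖ + ‖D⁻¹ • (A * Th)‖ := norm_add_le _ _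
    _ ≤ _ := by linarith

/-- the state after the Newton iteration -/
theorem newton_state {n K : ℕ} {q D : ℝ} (h : Num n K q D)
    {A : Matrix (Fin n) (Fin n) ℝ} (hA : LowB A (q ^ 7)) (hAe : ∀ i j, |A i j| ≤ q) (s : Mem)
    (hsT : s.i iT = 100 * K)
    (hs : NSt n (140 * K) A D (1 - 1 / (4 * q ^ 18)) s) :
    NSt n (140 * K) A D (1 / 2) ((Cmd.loop iS (.var iT) newtonC).run s) := by
  have h2 := h.hq2
  have hq0 : (0 : ℝ) < q := by linarith
  have hD0 : (0 : ℝ) < D := by rw [h.hD]; positivity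
  have hp := h.par hA hAe
  set η : ℝ := 1 / (4 * q ^ 18) with hη
  have hη0 : 0 < η := by positivity
  set δ : ℝ := 7 * q ^ 3 * (q ^ 7) ^ 2 / D with hδ
  have hδ0 : 0 ≤ δ := by positivity
  have hq18 : 1 ≤ q ^ 18 := one_le_pow₀ (by linarith)
  have hη1 : η ≤ 1 / 4 := by
    rw [hη]
    exact one_div_le_one_div_of_le (by norm_num) (by linarith)
  have hδη : δ ≤ η / 4 := by
    rw [hδ, hη, h.hD, div_div, div_le_div_iff₀ (by positivity) (by positivity)]
    have h3 := h.le_pow 7 35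
    have h4 := h.mono (show 42 ≤ 50 by norm_num)
    have h5 : 0 < q ^ 35 := by positivity
    norm_num at h3
    calc 7 * q ^ 3 * (q ^ 7) ^ 2 * (4 * q ^ 18 * 4) = 112 * q ^ 35 := by ring
      _ ≤ 1 * q ^ 50 := by linarith
  have key := loop_inv iS (.var iT) newtonC s (100 * K) hsT
    (fun j s' => ∃ ρ : ℝ, 0 ≤ ρ ∧ ρ ≤ 1 ∧ NSt n (140 * K) A D ρ s' ∧
      min (1 / 2) ((5 / 4) ^ j * η) ≤ 1 - ρ)
    ⟨1 - η, by linarith, by linarith, hs, by simp⟩ (by
      intro j hj s' hfr hP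
      obtain ⟨ρ, p1, p2, p3, p4⟩ := hP
      have hst : NSt n (140 * K) A D ρ (s'.seti iS j) := by
        refine ⟨p3.c.congr (seti_ne _ _ (by decide)) rfl rfl (seti_ne _ _ (by decide)) rfl rfl,
          p3.hD, p3.hAr, p3.hYi, p3.hρ⟩
      have h3 := newton_spec hp hst p2
      have h4 := recursion hη0 hδ0 hδη (by linarith) p1 j p4
      refine ⟨ρ ^ 2 + δ, by positivity, ?_, h3, h4⟩
      have h5 : 0 < min (1 / 2 : ℝ) ((5 / 4) ^ (j + 1) * η) := lt_min (by norm_num) (by positivity)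
      linarith)
  obtain ⟨ρ, p1, p2, p3, p4⟩ := key
  have h3 : (1 : ℝ) / 2 ≤ (5 / 4) ^ (100 * K) * η := by
    have h4 : (q : ℝ) ^ 25 ≤ (5 / 4) ^ (100 * K) := by
      have h5 : (100 * K) = 4 * (25 * K) := by ring
      rw [h5, pow_mul, h.hq, ← pow_mul, mul_comm K 25]
      exact pow_le_pow_left₀ (by norm_num) (by norm_num) _
    have h6 : (5 / 4 : ℝ) ^ (100 * K) * η = (5 / 4) ^ (100 * K) / (4 * q ^ 18) := by
      rw [hη]; ring
    rw [h6, le_div_iff₀ (by positivity)]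
    have h7 := h.le_pow 1 18
    have h8 := h.mono (show 19 ≤ 25 by norm_num)
    norm_num at h7
    linarith
  rw [min_eq_left h3] at p4
  exact ⟨p3.c, p3.hD, p3.hAr, p3.hYi, p3.hρ.trans (by linarith)⟩

/-! ### the whole algorithm -/

/-- total size of the program parts that run once -/
def sz1 : ℕ := sizeC.size + startC.size + (Cmd.loop iS (.var iT) newtonC).size + prepC.size

/-- bound for the number of operations -/
def costF (n K J : ℕ) : ℕ :=
  sz1 * ((n + 1) ^ 2 * (140 * K + 140 + 1) ^ 2) + (3 + J * (3 + refineC.size * (n + 1) ^ 2))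

/-- bounds for the index variables -/
def beta (n K : ℕ) : ℕ → ℕ := fun x =>
  if x = iN then n else if x = iM then 140 * K else if x = iL then 50 * K
    else if x = iT then 100 * K else 0

lemma part_cost (c : Cmd) (p : ℕ → Bool) (n K : ℕ) (s : Mem) (hg : c.good p = true)
    (hp : ∀ x, p x = true → s.i x ≤ beta n K x) (hk : c.kB (beta n K) (140 * K + 140))
    (hdn : c.dn ≤ 2) (hdk : c.dk ≤ 2) :
    c.cost s ≤ ((c.size * ((n + 1) ^ 2 * (140 * K + 140 + 1) ^ 2) : ℕ) : ℕ∞) := by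
  refine (c.cost_le p (beta n K) hg s hp).trans (Nat.cast_le.2 ?_)
  refine (c.costB_le (beta n K) (140 * K + 140) hk).trans (Nat.mul_le_mul_left _ ?_)
  have hb : beta n K iN = n := by simp [beta]
  rw [hb]
  exact Nat.mul_le_mul (Nat.pow_le_pow_right (by omega) hdn)
    (Nat.pow_le_pow_right (by omega) hdk)

theorem algorithm_spec {n : ℕ} (hn : 2 ≤ n) (A : Fin n → Fin n → ℝ) (b : Fin n → ℝ) (ε : ℝ)
    (hAe : ∀ i j, |A i j| ≤ n) (hA : LowB (Matrix.of A) ((n : ℝ) ^ 7)) (hε : 0 < ε)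
    (J : ℕ) (hJ : (1 / 2) ^ J ≤ ε) :
    nrm (Matrix.of A *ᵥ output A b ε - b) ≤ ε * nrm b ∧
    ∃ K : ℕ, 2 ^ K < 2 * n ∧ algorithm.cost (input A b ε) ≤ (costF n K J : ℕ∞) := by
  set s0 := input A b ε with hs0
  have h0n : s0.i iN = n := by simp [hs0, input]
  have h0E : s0.r rE = ε := by simp [hs0, input]
  obtain ⟨K, k1, k2, k3, k4, k5⟩ := size_spec s0 n h0n (by omega)
  have hK : 1 ≤ K := by
    by_contra hK
    have : K = 0 := by omega
    rw [this] at k1
    omega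
  have hnum : Num n K (2 ^ K) ((2 ^ K) ^ 50) := by
    refine ⟨rfl, rfl, ?_, by exact_mod_cast k1⟩
    calc (2 : ℝ) = 2 ^ 1 := by norm_num
      _ ≤ 2 ^ K := pow_le_pow_right₀ (by norm_num) hK
  set q : ℝ := 2 ^ K with hq
  set D : ℝ := q ^ 50 with hD
  have hA' : LowB (Matrix.of A) (q ^ 7) := by
    intro v
    refine (hA v).trans (mul_le_mul_of_nonneg_right ?_ (nrm_nonneg _))
    exact pow_le_pow_left₀ (Nat.cast_nonneg _) hnum.hn 7
  have hAe' : ∀ i j, |Matrix.of A i j| ≤ q := fun i j => (hAe i j).trans hnum.hn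
  -- run
  have f1 := Fr.run sizeC s0
  set s1 := sizeC.run s0 with hs1
  have h1A : mat n (s1.a aA) = Matrix.of A := by
    rw [f1.a aA (by rfl)]; exact input_A A b ε
  have h2 := start_state hnum (by omega) hA' hAe' s1 ((f1.i iN (by rfl)).trans h0n) k3 k4 hK h1A
  have f2 := Fr.run startC s1
  set s2 := startC.run s1 with hs2
  have h3 := newton_state hnum hA' hAe' s2 ((f2.i iT (by rfl)).trans k5) h2
  have f3 := Fr.run (.loop iS (.var iT) newtonC) s2
  set s3 := (Cmd.loop iS (.var iT) newtonC).run s2 with hs3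
  have h3n : s3.i iN = n := h3.c.hn
  have h3E : s3.r rE = ε := by rw [f3.r rE (by rfl), f2.r rE (by rfl), f1.r rE (by rfl), h0E]
  have h3B : vec n (s3.a aB) = b := by
    rw [f3.a aB (by rfl), f2.a aB (by rfl), f1.a aB (by rfl)]; exact input_B A b ε
  have h3A : mat n (s3.a aA) = Matrix.of A := by
    rw [f3.a aA (by rfl), f2.a aA (by rfl), h1A]
  obtain ⟨p1, p2, p3, p4, p5⟩ := prep_spec s3 n h3n
  have f4 := Fr.run prepC s3
  set s4 := prepC.run s3 with hs4
  have h4n : s4.i iN = n := (f4.i iN (by rfl)).trans h3n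
  have hinv0 : RInv n (Matrix.of A) (D⁻¹ • mat n (s3.a aY)) b ε 0 s4 := by
    refine ⟨h4n, by rw [f4.a aA (by rfl), h3A], by rw [p1, h3.hD], ?_, ?_, ?_, ?_⟩
    · rw [p5, h3E, h3B]
    · rw [p3, h3B, p2]; simp
    · rw [p4, p3]
    · rw [p3, h3B]; simp
  have hcR : ∀ j s', RInv n (Matrix.of A) (D⁻¹ • mat n (s3.a aY)) b ε j s' →
      refineC.cost s' ≤ ((refineC.size * (n + 1) ^ 2 : ℕ) : ℕ∞) := by
    intro j s' hs'
    refine (refineC.cost_le (fun x => x == iN) (fun _ => n) (by decide) s' ?_).trans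
      (Nat.cast_le.2 ?_)
    · intro x hx
      simp only [beq_iff_eq] at hx
      rw [hx, hs'.hn]
    · refine (refineC.costB_le (fun _ => n) 0 ?_).trans ?_
      · simp [refineC, normC, dotC, block, Cmd.kB, Ix.isN]
      · have h5 : refineC.dn = 2 := by decide
        have h6 : refineC.dk = 0 := by decide
        rw [h5, h6]; simp
  obtain ⟨⟨j, hj, w1⟩, w2, w3⟩ := while_rule (.var rBB) (.var rRR) refineC s4 J
    (RInv n (Matrix.of A) (D⁻¹ • mat n (s3.a aY)) b ε) hinv0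
    (fun j s' hs' _ => refine_inv h3.hρ hs')
    (fun s' hs' => by
      simp only [Rx.val]
      rw [hs'.hBB, hs'.hRR, not_lt, ← mul_pow]
      refine pow_le_pow_left₀ (nrm_nonneg _) (hs'.hle.trans ?_) 2
      exact mul_le_mul_of_nonneg_right hJ (nrm_nonneg _))
    (refineC.size * (n + 1) ^ 2) hcR
  have hout : output A b ε =
      vec n (((Cmd.whileLt (.var rBB) (.var rRR) refineC).run s4).a aOut) := by
    funext i
    simp only [output, algorithm, block, run_seq]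
    rfl
  set s5 := (Cmd.whileLt (.var rBB) (.var rRR) refineC).run s4 with hs5
  refine ⟨?_, K, k2, ?_⟩
  · rw [hout]
    simp only [Rx.val] at w2
    rw [w1.hBB, w1.hRR, w1.hR, not_lt, ← mul_pow] at w2
    have e1 : nrm (Matrix.of A *ᵥ vec n (s5.a aOut) - b) =
        nrm (b - Matrix.of A *ᵥ vec n (s5.a aOut)) := by
      rw [nrm_eq, nrm_eq]
      refine congrArg Real.sqrt (Finset.sum_congr rfl fun i _ => ?_)
      rw [Pi.sub_apply, Pi.sub_apply, ← neg_sub, neg_sq]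
    rw [e1]
    exact abs_le_of_sq_le_sq' w2 (mul_nonneg hε.le (nrm_nonneg _)) |>.2
  · have c1 := part_cost sizeC (fun x => x == iN) n K s0 (by decide) (by
      intro x hx
      simp only [beq_iff_eq] at hx
      rw [hx, h0n]; simp [beta]) (by
      simp [sizeC, block, Cmd.kB, Ix.isN, Ix.bnd]) (by decide) (by decide)
    have c2 := part_cost startC (fun x => x == iN || x == iM || x == iL) n K s1 (by decide) (by
      intro x hx
      simp only [Bool.or_eq_true, beq_iff_eq] at hx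
      rcases hx with (rfl | rfl) | rfl
      · rw [f1.i iN (by rfl), h0n]; simp [beta]
      · rw [k3]; simp [beta]
      · rw [k4]; simp [beta]) (by
      simp [startC, roundC, floorC, for2, block, Cmd.kB, Ix.isN, Ix.bnd, beta]
      omega) (by decide) (by decide)
    have c3 := part_cost (.loop iS (.var iT) newtonC) (fun x => x == iN || x == iM || x == iT) n K
      s2 (by decide) (by
      intro x hx
      simp only [Bool.or_eq_true, beq_iff_eq] at hx
      rcases hx with (rfl | rfl) | rfl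
      · rw [f2.i iN (by rfl), f1.i iN (by rfl), h0n]; simp [beta]
      · rw [f2.i iM (by rfl), k3]; simp [beta]
      · rw [f2.i iT (by rfl), k5]; simp [beta]) (by
      simp [newtonC, prodC, packC, unpackC, roundC, floorC, for2, block, Cmd.kB, Ix.isN, Ix.bnd,
        beta]
      omega) (by decide) (by decide)
    have c4 := part_cost prepC (fun x => x == iN) n K s3 (by decide) (by
      intro x hx
      simp only [beq_iff_eq] at hx
      rw [hx, h3n]; simp [beta]) (by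
      simp [prepC, normC, for2, block, Cmd.kB, Ix.isN]) (by decide) (by decide)
    have hcost : algorithm.cost s0 = sizeC.cost s0 + (startC.cost s1 +
        ((Cmd.loop iS (.var iT) newtonC).cost s2 + (prepC.cost s3 +
          (Cmd.whileLt (.var rBB) (.var rRR) refineC).cost s4))) := by
      simp only [algorithm, block, Cmd.cost]
      rfl
    rw [hcost]
    have hw : (Cmd.whileLt (.var rBB) (.var rRR) refineC).cost s4 ≤
        ((3 + J * (3 + refineC.size * (n + 1) ^ 2) : ℕ) : ℕ∞) := w3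
    refine (add_le_add c1 (add_le_add c2 (add_le_add c3 (add_le_add c4 hw)))).trans ?_
    rw [← Nat.cast_add, ← Nat.cast_add, ← Nat.cast_add, ← Nat.cast_add]
    refine Nat.cast_le.2 (le_of_eq ?_)
    unfold costF sz1
    ring

end Pool.Agent.H87.RL
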