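import Pool.Agent.H87.RL.Prod
import Pool.Agent.H87.RL.Newton

namespace Pool.Agent.H87.RL

open Matrix
open scoped Matrix.Norms.L2Operator

/-- the `n × n` matrix stored in an array -/
def mat (n : ℕ) (f : ℕ → ℕ → ℝ) : Matrix (Fin n) (Fin n) ℝ := Matrix.of fun i j => f i j

lemma mat_apply (n : ℕ) (f : ℕ → ℕ → ℝ) (i j : Fin n) : mat n f i j = f i j := rfl

/-- all entries are integers -/
def IntM {n : ℕ} (M : Matrix (Fin n) (Fin n) ℝ) : Prop := ∀ i j, ∃ z : ℤ, M i j = z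

/-- entrywise floor -/
noncomputable def flo {n : ℕ} (M : Matrix (Fin n) (Fin n) ℝ) : Matrix (Fin n) (Fin n) ℝ :=
  Matrix.of fun i j => (⌊M i j⌋ : ℝ)

lemma flo_int {n : ℕ} (M : Matrix (Fin n) (Fin n) ℝ) : IntM (flo M) := fun i j => ⟨⌊M i j⌋, rfl⟩

lemma flo_sub {n : ℕ} (M : Matrix (Fin n) (Fin n) ℝ) (i j : Fin n) : |(M - flo M) i j| ≤ 1 := by
  have h1 := Int.floor_le (M i j)
  have h2 := Int.lt_floor_add_one (M i j)
  change |M i j - (⌊M i j⌋ : ℝ)| ≤ 1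
  rw [abs_le]; constructor <;> linarith

lemma IntM.mul {n : ℕ} {M N : Matrix (Fin n) (Fin n) ℝ} (hM : IntM M) (hN : IntM N) :
    IntM (M * N) := by
  intro i j
  choose f hf using hM
  choose g hg using hN
  refine ⟨∑ k, f i k * g k j, ?_⟩
  rw [Matrix.mul_apply]
  push_cast
  exact Finset.sum_congr rfl fun k _ => by rw [hf, hg]

theorem prod_mat (dst p q : ℕ) (hp : p ≠ dst) (hq : aQ ≠ dst) (hpq : p ≠ aQ) (hqq : q ≠ aQ)
    (s : Mem) (n m : ℕ) (hc : Cst2 n m s) (h1 : IntM (mat n (s.a p))) (h2 : IntM (mat n (s.a q)))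
    (hb : ‖mat n (s.a p) * mat n (s.a q)‖ < 2 ^ m / 2) :
    mat n (((prodC dst p q).run s).a dst) = mat n (s.a p) * mat n (s.a q) := by
  have hsum : ∀ i < n, ∀ j < n, ∀ (hi : i < n) (hj : j < n),
      ∑ k ∈ Finset.range n, s.a p i k * s.a q k j =
        (mat n (s.a p) * mat n (s.a q)) ⟨i, hi⟩ ⟨j, hj⟩ := by
    intro i _ j _ hi hj
    rw [Matrix.mul_apply, Finset.sum_range]
    rfl
  have hint := h1.mul h2
  choose C hC using hint
  have key := prod_spec dst p q hp hq hpq hqq s n m hc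
    (fun i j => if h : i < n ∧ j < n then C ⟨i, h.1⟩ ⟨j, h.2⟩ else 0)
    (by
      intro i hi j hj
      rw [dif_pos ⟨hi, hj⟩, hsum i hi j hj hi hj, hC])
    (by
      intro i hi j hj
      rw [dif_pos ⟨hi, hj⟩, ← hC]
      exact (entry_le_norm _ _ _).trans_lt hb)
  ext i j
  rw [mat_apply, key i i.2 j j.2, dif_pos ⟨i.2, j.2⟩, hC]

theorem round_mat (b c : ℕ) (hbc : c ≠ b) (s : Mem) (n m : ℕ) (hn : s.i iN = n) (hc : Cst m s)
    (hb : ‖(s.r rD)⁻¹ • mat n (s.a c)‖ < 2 ^ m / 2) :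
    mat n (((for2 (roundC b (.var iU) (.var iV) (.div (.get c (.var iU) (.var iV))
      (.var rD)))).run s).a b) = flo ((s.r rD)⁻¹ • mat n (s.a c)) := by
  have key := for2_round b (.div (.get c (.var iU) (.var iV)) (.var rD)) s n m hn hc
    (fun i j => s.a c i j / s.r rD) (by
      intro i hi j hj s' h1 h2 h3 h4
      simp only [Rx.val, Ix.val]
      rw [h1 rD (by decide) (by decide) (by decide), h2 c hbc, h3, h4])
    (by
      intro i hi j hj
      refine lt_of_le_of_lt ?_ hb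
      have := entry_le_norm ((s.r rD)⁻¹ • mat n (s.a c)) ⟨i, hi⟩ ⟨j, hj⟩
      rw [Matrix.smul_apply, mat_apply, smul_eq_mul, inv_mul_eq_div] at this
      exact this)
  ext i j
  rw [mat_apply, key i i.2 j j.2]
  simp [flo, mat_apply, div_eq_inv_mul]

/-- The state between two Newton steps. -/
structure NSt (n m : ℕ) (A : Matrix (Fin n) (Fin n) ℝ) (D ρ : ℝ) (s : Mem) : Prop where
  c : Cst2 n m s
  hD : s.r rD = D
  hAr : mat n (s.a aAr) = flo (D • A)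
  hYi : IntM (mat n (s.a aY))
  hρ : ‖1 - A * (D⁻¹ • mat n (s.a aY))‖ ≤ ρ

/-- numerical parameters -/
structure Par (n m : ℕ) (A : Matrix (Fin n) (Fin n) ℝ) (D L q : ℝ) : Prop where
  hA : LowB A L
  hL : 1 ≤ L
  hq : (n : ℝ) ≤ q
  hq1 : 1 ≤ q
  hD : 1 ≤ D
  hAe : ∀ i j, |A i j| ≤ q
  hbig : 10 * L ^ 2 * D ^ 2 * q ^ 2 < 2 ^ m / 2

lemma alg_id {n : ℕ} (A X Th Ph Ps : Matrix (Fin n) (Fin n) ℝ) {D : ℝ} (hD : D ≠ 0) :
    D⁻¹ • ((2 : ℝ) • (D • X) -
      (D⁻¹ • ((D • X) * (D⁻¹ • ((D • A - Th) * (D • X)) - Ph)) - Ps)) =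
    (2 : ℝ) • X - X * A * X + D⁻¹ • (X * (Th * X + Ph) + Ps) := by
  have h4 : D⁻¹ • ((D • A - Th) * (D • X)) = D • (A * X) - Th * X := by
    rw [Matrix.sub_mul, Matrix.mul_smul, Matrix.smul_mul, Matrix.mul_smul, smul_sub,
      smul_smul, smul_smul, smul_smul, inv_mul_cancel₀ hD, one_smul, one_mul]
  have h5 : D⁻¹ • ((D • X) * (D • (A * X) - Th * X - Ph)) =
      D • (X * A * X) - X * (Th * X + Ph) := by
    rw [Matrix.smul_mul, smul_smul, inv_mul_cancel₀ hD, one_smul,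
      Matrix.mul_sub, Matrix.mul_sub, Matrix.mul_smul, Matrix.mul_add, Matrix.mul_assoc]
    abel
  rw [h4, h5, smul_sub, smul_sub, smul_sub, smul_smul, smul_smul, smul_smul,
    inv_mul_cancel₀ hD, one_smul, smul_add]
  have h6 : D⁻¹ * 2 * D = 2 := by field_simp
  rw [h6]
  abel

theorem newton_spec {n m : ℕ} {A : Matrix (Fin n) (Fin n) ℝ} {D L q ρ : ℝ} {s : Mem}
    (hp : Par n m A D L q) (hs : NSt n m A D ρ s) (hρ1 : ρ ≤ 1) :
    NSt n m A D (ρ ^ 2 + 7 * q ^ 3 * L ^ 2 / D) (newtonC.run s) := by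
  have hD0 : (0 : ℝ) < D := by linarith [hp.hD]
  have hL := hp.hL
  have hq1 := hp.hq1
  have hD1 := hp.hD
  set Y := mat n (s.a aY) with hY
  set X := D⁻¹ • Y with hX
  have hYX : Y = D • X := by rw [hX, smul_smul, mul_inv_cancel₀ hD0.ne', one_smul]
  set At := flo (D • A) with hAt
  set Th := D • A - At with hTh
  have hThe : ∀ i j, |Th i j| ≤ 1 := flo_sub (D • A)
  have hnq : ∀ M : Matrix (Fin n) (Fin n) ℝ, (∀ i j, |M i j| ≤ 1) → ‖M‖ ≤ q := by
    intro M hM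
    have := norm_le_of_entries M zero_le_one hM
    rw [mul_one] at this; exact this.trans hp.hq
  have hAn : ‖A‖ ≤ q ^ 2 := by
    refine (norm_le_of_entries A (by linarith) hp.hAe).trans ?_
    rw [sq]; exact mul_le_mul_of_nonneg_right hp.hq (by linarith)
  have hXn : ‖X‖ ≤ 2 * L := by
    have := (hp.hA.norm_le' (by linarith) X hs.hρ).2
    nlinarith
  have hYn : ‖Y‖ ≤ 2 * L * D := by
    rw [hYX, norm_smul, Real.norm_of_nonneg hD0.le]
    nlinarith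
  have hq2 : q ≤ q ^ 2 := by nlinarith
  have hAtn : ‖At‖ ≤ 2 * D * q ^ 2 := by
    have h1 : At = D • A - Th := by rw [hTh]; abel
    rw [h1]
    refine (norm_sub_le _ _).trans ?_
    rw [norm_smul, Real.norm_of_nonneg hD0.le]
    have h2 := hnq Th hThe
    have h3 : D * ‖A‖ ≤ D * q ^ 2 := mul_le_mul_of_nonneg_left hAn hD0.le
    have h4 : q ^ 2 ≤ D * q ^ 2 := by nlinarith [sq_nonneg q]
    linarith
  have hW : ‖At * Y‖ ≤ 4 * D ^ 2 * q ^ 2 * L := by
    refine (norm_mul_le _ _).trans ?_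
    calc ‖At‖ * ‖Y‖ ≤ (2 * D * q ^ 2) * (2 * L * D) :=
          mul_le_mul hAtn hYn (norm_nonneg _) (by positivity)
      _ = _ := by ring
  have hDi : ∀ M : Matrix (Fin n) (Fin n) ℝ, ‖D⁻¹ • M‖ ≤ ‖M‖ := by
    intro M
    rw [norm_smul, Real.norm_of_nonneg (by positivity)]
    have : D⁻¹ ≤ 1 := inv_le_one_of_one_le₀ hD1
    nlinarith [norm_nonneg M]
  have hWD : ‖D⁻¹ • (At * Y)‖ ≤ 4 * D * q ^ 2 * L := by
    rw [norm_smul, Real.norm_of_nonneg (by positivity)]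
    calc D⁻¹ * ‖At * Y‖ ≤ D⁻¹ * (4 * D ^ 2 * q ^ 2 * L) :=
          mul_le_mul_of_nonneg_left hW (by positivity)
      _ = _ := by field_simp
  set Z := flo (D⁻¹ • (At * Y)) with hZ
  set Ph := D⁻¹ • (At * Y) - Z with hPh
  have hPhe : ∀ i j, |Ph i j| ≤ 1 := flo_sub _
  have hZn : ‖Z‖ ≤ 5 * D * q ^ 2 * L := by
    have h1 : Z = D⁻¹ • (At * Y) - Ph := by rw [hPh]; abel
    rw [h1]
    refine (norm_sub_le _ _).trans ?_
    have h2 := hnq Ph hPhe
    have h4 : q ^ 2 ≤ D * q ^ 2 * L := by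
      have : q ^ 2 * 1 ≤ q ^ 2 * (D * L) :=
        mul_le_mul_of_nonneg_left (by nlinarith) (sq_nonneg q)
      nlinarith
    linarith
  have hV : ‖Y * Z‖ ≤ 10 * L ^ 2 * D ^ 2 * q ^ 2 := by
    refine (norm_mul_le _ _).trans ?_
    calc ‖Y‖ * ‖Z‖ ≤ (2 * L * D) * (5 * D * q ^ 2 * L) :=
          mul_le_mul hYn hZn (norm_nonneg _) (by positivity)
      _ = _ := by ring
  have hWb : 4 * D ^ 2 * q ^ 2 * L ≤ 10 * L ^ 2 * D ^ 2 * q ^ 2 := by
    have h1 : 0 ≤ D ^ 2 * q ^ 2 * L := by positivity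
    have h2 : D ^ 2 * q ^ 2 * L * 1 ≤ D ^ 2 * q ^ 2 * L * L := mul_le_mul_of_nonneg_left hL h1
    nlinarith
  set P := flo (D⁻¹ • (Y * Z)) with hP
  set Ps := D⁻¹ • (Y * Z) - P with hPs
  have hPse : ∀ i j, |Ps i j| ≤ 1 := flo_sub _
  -- run the program
  simp only [newtonC, block, run_seq]
  have hc := hs.c
  -- step 1
  have hAr' : mat n (s.a aAr) = At := hs.hAr
  have r1 := prod_mat aP aAr aY (by decide) (by decide) (by decide) (by decide) s n m hc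
    (by rw [hAr']; exact flo_int _) hs.hYi (by rw [hAr']; exact hW.trans_lt (hWb.trans_lt hp.hbig))
  rw [hAr', ← hY] at r1
  have f1 := Fr.run (prodC aP aAr aY) s
  set s1 := (prodC aP aAr aY).run s with hs1
  clear_value s1
  have hc1 : Cst2 n m s1 := hc.congr (f1.i _ (by rfl)) (f1.r _ (by rfl)) (f1.r _ (by rfl))
    (f1.i _ (by rfl)) (f1.r _ (by rfl)) (f1.r _ (by rfl))
  have hD1' : s1.r rD = D := (f1.r _ (by rfl)).trans hs.hD
  have hY1 : s1.a aY = s.a aY := f1.a _ (by rfl)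
  have hA1 : s1.a aAr = s.a aAr := f1.a _ (by rfl)
  -- step 2
  have r2 := round_mat aZ aP (by decide) s1 n m hc1.hn hc1.toCst
    (by rw [hD1', r1]; exact (hDi _).trans_lt (hW.trans_lt (hWb.trans_lt hp.hbig)))
  rw [hD1', r1, ← hZ] at r2
  have f2 := Fr.run (for2 (roundC aZ (.var iU) (.var iV) (.div (.get aP (.var iU) (.var iV))
    (.var rD)))) s1
  set s2 := (for2 (roundC aZ (.var iU) (.var iV) (.div (.get aP (.var iU) (.var iV))
    (.var rD)))).run s1 with hs2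
  clear_value s2
  have hc2 : Cst2 n m s2 := hc1.congr (f2.i _ (by rfl)) (f2.r _ (by rfl)) (f2.r _ (by rfl))
    (f2.i _ (by rfl)) (f2.r _ (by rfl)) (f2.r _ (by rfl))
  have hD2 : s2.r rD = D := (f2.r _ (by rfl)).trans hD1'
  have hY2 : s2.a aY = s.a aY := (f2.a _ (by rfl)).trans hY1
  have hA2 : s2.a aAr = s.a aAr := (f2.a _ (by rfl)).trans hA1
  -- step 3
  have r3 := prod_mat aV aY aZ (by decide) (by decide) (by decide) (by decide) s2 n m hc2
    (by rw [hY2]; exact hs.hYi) (by rw [r2]; exact flo_int _)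
    (by rw [hY2, r2, ← hY]; exact hV.trans_lt hp.hbig)
  rw [hY2, r2, ← hY] at r3
  have f3 := Fr.run (prodC aV aY aZ) s2
  set s3 := (prodC aV aY aZ).run s2 with hs3
  clear_value s3
  have hc3 : Cst2 n m s3 := hc2.congr (f3.i _ (by rfl)) (f3.r _ (by rfl)) (f3.r _ (by rfl))
    (f3.i _ (by rfl)) (f3.r _ (by rfl)) (f3.r _ (by rfl))
  have hD3 : s3.r rD = D := (f3.r _ (by rfl)).trans hD2
  have hY3 : s3.a aY = s.a aY := (f3.a _ (by rfl)).trans hY2
  have hA3 : s3.a aAr = s.a aAr := (f3.a _ (by rfl)).trans hA2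
  -- step 4
  have r4 := round_mat aP aV (by decide) s3 n m hc3.hn hc3.toCst
    (by rw [hD3, r3]; exact (hDi _).trans_lt (hV.trans_lt hp.hbig))
  rw [hD3, r3, ← hP] at r4
  have f4 := Fr.run (for2 (roundC aP (.var iU) (.var iV) (.div (.get aV (.var iU) (.var iV))
    (.var rD)))) s3
  set s4 := (for2 (roundC aP (.var iU) (.var iV) (.div (.get aV (.var iU) (.var iV))
    (.var rD)))).run s3 with hs4
  clear_value s4
  have hc4 : Cst2 n m s4 := hc3.congr (f4.i _ (by rfl)) (f4.r _ (by rfl)) (f4.r _ (by rfl))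
    (f4.i _ (by rfl)) (f4.r _ (by rfl)) (f4.r _ (by rfl))
  have hD4 : s4.r rD = D := (f4.r _ (by rfl)).trans hD3
  have hY4 : s4.a aY = s.a aY := (f4.a _ (by rfl)).trans hY3
  have hA4 : s4.a aAr = s.a aAr := (f4.a _ (by rfl)).trans hA3
  -- step 5
  have r5 := for2_map (.put aY (.var iU) (.var iV)
    (.sub (.add (.get aY (.var iU) (.var iV)) (.get aY (.var iU) (.var iV)))
      (.get aP (.var iU) (.var iV)))) (by rfl) (by rfl) s4 n hc4.hn aY
    (fun i j => s4.a aY i j + s4.a aY i j - s4.a aP i j) (by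
      intro i hi j hj s' hfr h1 h2 h3 i' j'
      rw [run_put, seta_a]
      simp only [Ix.val, Rx.val, h1, h2, h3, true_and]
      rw [hfr.a aP (by rfl)])
  have f5 := Fr.run (for2 (.put aY (.var iU) (.var iV)
    (.sub (.add (.get aY (.var iU) (.var iV)) (.get aY (.var iU) (.var iV)))
      (.get aP (.var iU) (.var iV))))) s4
  set s5 := (for2 (.put aY (.var iU) (.var iV)
    (.sub (.add (.get aY (.var iU) (.var iV)) (.get aY (.var iU) (.var iV)))
      (.get aP (.var iU) (.var iV))))).run s4 with hs5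
  clear_value s5
  have hc5 : Cst2 n m s5 := hc4.congr (f5.i _ (by rfl)) (f5.r _ (by rfl)) (f5.r _ (by rfl))
    (f5.i _ (by rfl)) (f5.r _ (by rfl)) (f5.r _ (by rfl))
  have hD5 : s5.r rD = D := (f5.r _ (by rfl)).trans hD4
  have hA5 : s5.a aAr = s.a aAr := (f5.a _ (by rfl)).trans hA4
  have hY5 : mat n (s5.a aY) = (2 : ℝ) • Y - P := by
    ext i j
    rw [mat_apply, r5 i i.2 j j.2, hY4, Matrix.sub_apply, ← r4, Matrix.smul_apply, hY, mat_apply,
      mat_apply, smul_eq_mul]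
    ring
  have hXn' : D⁻¹ • mat n (s5.a aY) =
      (2 : ℝ) • X - X * A * X + D⁻¹ • (X * (Th * X + Ph) + Ps) := by
    have h1 : P = D⁻¹ • (Y * Z) - Ps := by rw [hPs]; abel
    have h2 : Z = D⁻¹ • (At * Y) - Ph := by rw [hPh]; abel
    have h3 : At = D • A - Th := by rw [hTh]; abel
    rw [← alg_id A X Th Ph Ps hD0.ne', ← hYX, ← h3, ← h2, ← h1, hY5]
  refine ⟨hc5, hD5, by rw [hA5]; exact hs.hAr, ?_, ?_⟩
  · rw [hY5]
    intro i j
    obtain ⟨z1, hz1⟩ := hs.hYi i j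
    obtain ⟨z2, hz2⟩ := flo_int (D⁻¹ • (Y * Z)) i j
    refine ⟨2 * z1 - z2, ?_⟩
    rw [Matrix.sub_apply, Matrix.smul_apply, hY, hz1, hP, hz2]
    push_cast; simp
  · rw [hXn']
    exact step_bound hp.hA hL hp.hq hq1 hD0 hp.hAe hThe hPhe hPse hρ1 hs.hρ

end Pool.Agent.H87.RL
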