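import Pool.Agent.H87.RL.Gauss

namespace Pool.Agent.H87.RL

open MeasureTheory ProbabilityTheory Matrix Set Filter Topology
open scoped ENNReal

/-! ### the uniform measure on `Bool` and the cube -/

/-- fair coin -/
noncomputable def mB : Measure Bool := (2⁻¹ : ℝ≥0∞) • (Measure.dirac false + Measure.dirac true)

instance : IsProbabilityMeasure mB := by
  refine ⟨?_⟩
  simp only [mB, Measure.smul_apply, Measure.add_apply, measure_univ, smul_eq_mul]
  rw [one_add_one_eq_two, ENNReal.inv_mul_cancel (by norm_num) (by norm_num)]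

lemma mB_singleton (x : Bool) : mB {x} = 2⁻¹ := by
  cases x <;> simp [mB]

lemma mB_le {T : Set Bool} (h : ¬ (false ∈ T ∧ true ∈ T)) : mB T ≤ 2⁻¹ := by
  by_cases h1 : false ∈ T
  · have : T ⊆ {false} := by
      intro x hx
      cases x with
      | false => rfl
      | true => exact absurd ⟨h1, hx⟩ h
    exact (measure_mono this).trans (mB_singleton _).le
  · have : T ⊆ {true} := by
      intro x hx
      cases x with
      | false => exact absurd hx h1
      | true => rfl
    exact (measure_mono this).trans (mB_singleton _).le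

/-- uniform measure on the cube -/
noncomputable def mC (ι : Type) [Fintype ι] : Measure (ι → Bool) := Measure.pi fun _ => mB

instance (ι : Type) [Fintype ι] : IsProbabilityMeasure (mC ι) := by unfold mC; infer_instance

lemma mC_finset {ι : Type} [Fintype ι] [DecidableEq ι] (s : Finset (ι → Bool)) :
    mC ι (s : Set (ι → Bool)) = s.card * (2⁻¹ : ℝ≥0∞) ^ Fintype.card ι := by
  rw [← sum_measure_singleton]
  have : ∀ x : ι → Bool, mC ι {x} = (2⁻¹ : ℝ≥0∞) ^ Fintype.card ι := by
    intro x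
    rw [mC, Measure.pi_singleton]
    simp [mB_singleton]
  simp only [this, Finset.sum_const, nsmul_eq_mul]

lemma pi_section_set_le {n : ℕ} (p : Fin n → Prop) [DecidablePred p] {T : Set (Fin n → Bool)}
    (c : ℝ≥0∞)
    (h : ∀ g : {i // ¬ p i} → Bool, mC {i // p i}
      {f | (fun i => if hi : p i then f ⟨i, hi⟩ else g ⟨i, hi⟩) ∈ T} ≤ c) :
    mC (Fin n) T ≤ c := by
  have hmp := measurePreserving_piEquivPiSubtypeProd (fun _ : Fin n => mB) p
  set e := MeasurableEquiv.piEquivPiSubtypeProd (fun _ : Fin n => Bool) p with he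
  have hT : MeasurableSet T := MeasurableSet.of_discrete
  have h1 : mC (Fin n) T =
      ((mC {i // p i}).prod (mC {i // ¬ p i})) (e.symm ⁻¹' T) := by
    unfold mC
    rw [← hmp.measure_preimage (e.symm.measurable hT).nullMeasurableSet, ← preimage_comp]
    congr 1
    ext x
    simp
  rw [h1, Measure.prod_apply_symm (e.symm.measurable hT)]
  calc ∫⁻ y, mC {i // p i} ((fun x => (x, y)) ⁻¹' (e.symm ⁻¹' T)) ∂(mC {i // ¬ p i})
      ≤ ∫⁻ _, c ∂(mC {i // ¬ p i}) := by
        refine lintegral_mono fun y => ?_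
        exact h y
    _ = c := by simp

/-! ### Littlewood–Offord -/

/-- entry values -/
def vl (a w : ℝ) (x : Bool) : ℝ := if x then a + w else a

lemma sperner_count {ι : Type} [Fintype ι] [DecidableEq ι] {m : ℕ} (hι : Fintype.card ι = 2 * m)
    (a w : ℝ) (hw : 1 ≤ w) (u : ι → ℝ) {ρ τ c : ℝ} (hρ : ∀ i, ρ ≤ |u i|) (hτ : 2 * τ ≤ ρ)
    (T : Finset (ι → Bool)) (hT : ∀ f ∈ T, |∑ i, vl a w (f i) * u i + c| < τ) :
    T.card ≤ m.centralBinom := by
  classical
  set F : (ι → Bool) → Finset ι := fun f => Finset.univ.filter fun i => (f i = true) ≠ (u i < 0)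
    with hF
  have hmem : ∀ f i, i ∈ F f ↔ ¬ (f i = true ↔ u i < 0) := by
    intro f i
    simp only [hF, Finset.mem_filter, Finset.mem_univ, true_and, ne_eq, eq_iff_iff]
  have hinj : Function.Injective F := by
    intro f g hfg
    funext i
    have h1 := hmem f i
    rw [hfg, hmem g i] at h1
    by_cases hu : u i < 0 <;> cases hf : f i <;> cases hg : g i <;> simp [hf, hg, hu] at h1 ⊢
  set b : ι → ℝ := fun i => if u i < 0 then (a + w) * u i else a * u i with hb
  have hval : ∀ f i, vl a w (f i) * u i = b i + if i ∈ F f then w * |u i| else 0 := by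
    intro f i
    simp only [hmem, hb, vl]
    by_cases hu : u i < 0
    · rw [if_pos hu, abs_of_neg hu]
      cases f i <;> simp [hu] <;> ring
    · rw [if_neg hu, abs_of_nonneg (not_lt.1 hu)]
      cases f i <;> simp [hu] <;> ring
  have hsum : ∀ f, ∑ i, vl a w (f i) * u i = ∑ i, b i + ∑ i ∈ F f, w * |u i| := by
    intro f
    rw [Finset.sum_congr rfl fun i _ => hval f i, Finset.sum_add_distrib, Finset.sum_ite_mem,
      Finset.univ_inter]
  have hanti : IsAntichain (· ⊆ ·) (SetLike.coe (T.image F)) := by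
    intro A hA B hB hAB hsub
    simp only [Finset.mem_image, SetLike.mem_coe] at hA hB
    obtain ⟨f, hf, rfl⟩ := hA
    obtain ⟨g, hg, rfl⟩ := hB
    have h1 := abs_lt.1 (hT f hf)
    have h2 := abs_lt.1 (hT g hg)
    rw [hsum f] at h1
    rw [hsum g] at h2
    have hss : F f ⊂ F g := Finset.ssubset_iff_subset_ne.2 ⟨hsub, hAB⟩
    obtain ⟨i, hi, hi'⟩ := Finset.exists_of_ssubset hss
    have h3 : ∑ j ∈ F f, w * |u j| + w * |u i| ≤ ∑ j ∈ F g, w * |u j| := by
      rw [add_comm, ← Finset.sum_insert (f := fun j => w * |u j|) hi']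
      refine Finset.sum_le_sum_of_subset_of_nonneg ?_ fun j _ _ => by positivity
      intro j hj
      rcases Finset.mem_insert.1 hj with rfl | hj
      · exact hi
      · exact hsub hj
    have h4 : ρ ≤ w * |u i| := by
      have := hρ i
      nlinarith [abs_nonneg (u i)]
    linarith
  have hcard := hanti.sperner
  rw [Finset.card_image_of_injective _ hinj, hι] at hcard
  refine hcard.trans (le_of_eq ?_)
  rw [Nat.centralBinom, Nat.mul_div_cancel_left _ (by norm_num)]

lemma centralBinom_sq (m : ℕ) : m.centralBinom ^ 2 * (2 * m + 1) ≤ 16 ^ m := by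
  induction m with
  | zero => simp
  | succ m ih =>
    have h1 := Nat.succ_mul_centralBinom_succ m
    have h2 : (m + 1) ^ 2 * ((m + 1).centralBinom ^ 2 * (2 * (m + 1) + 1)) ≤
        (m + 1) ^ 2 * 16 ^ (m + 1) := by
      calc (m + 1) ^ 2 * ((m + 1).centralBinom ^ 2 * (2 * (m + 1) + 1))
          = ((m + 1) * (m + 1).centralBinom) ^ 2 * (2 * m + 3) := by ring
        _ = 4 * ((2 * m + 1) * (2 * m + 3)) * (m.centralBinom ^ 2 * (2 * m + 1)) := by
            rw [h1]; ring
        _ ≤ 4 * (4 * (m + 1) ^ 2) * 16 ^ m := by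
            refine Nat.mul_le_mul (Nat.mul_le_mul_left _ ?_) ih
            nlinarith
        _ = _ := by ring
    exact Nat.le_of_mul_le_mul_left h2 (by positivity)

lemma centralBinom_real (m : ℕ) : (m.centralBinom : ℝ) / 4 ^ m ≤ 1 / √(2 * m + 1) := by
  have h1 : ((m.centralBinom : ℝ) ^ 2 * (2 * m + 1)) ≤ 16 ^ m := by exact_mod_cast centralBinom_sq m
  have h0 : (0 : ℝ) < 2 * m + 1 := by positivity
  rw [div_le_div_iff₀ (by positivity) (Real.sqrt_pos.2 h0), one_mul]
  refine abs_le_of_sq_le_sq' ?_ (by positivity) |>.2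
  rw [mul_pow, Real.sq_sqrt h0.le]
  refine h1.trans (le_of_eq ?_)
  rw [← pow_mul, mul_comm m 2, pow_mul]
  norm_num

/-- probability bound for a linear form with many large coefficients -/
theorem lo_bound' {n m : ℕ} (a w : ℝ) (hw : 1 ≤ w) (u : Fin n → ℝ) {ρ τ : ℝ} (p : Fin n → Prop)
    [DecidablePred p] (hS : Fintype.card {i // p i} = 2 * m) (hρ : ∀ i, p i → ρ ≤ |u i|)
    (hτ : 2 * τ ≤ ρ) :
    mC (Fin n) {r | |∑ i, vl a w (r i) * u i| < τ} ≤ ENNReal.ofReal (1 / √(2 * m + 1)) := by
  classical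
  refine pi_section_set_le p _ fun g => ?_
  set c : ℝ := ∑ i : {i // ¬ p i}, vl a w (g i) * u i with hc
  set T : Finset ({i // p i} → Bool) :=
    Finset.univ.filter fun f => |∑ i, vl a w (f i) * u i + c| < τ with hT
  have e : {f : {i // p i} → Bool | (fun i => if hi : p i then f ⟨i, hi⟩ else g ⟨i, hi⟩) ∈
      {r : Fin n → Bool | |∑ i, vl a w (r i) * u i| < τ}} = (T : Set ({i // p i} → Bool)) := by
    ext f
    simp only [mem_ofPred_eq, hT, Finset.coe_filter, Finset.mem_univ, true_and]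
    have e1 : ∑ i, vl a w ((fun i => if hi : p i then f ⟨i, hi⟩ else g ⟨i, hi⟩) i) * u i =
        ∑ i, vl a w (f i) * u i + c := by
      rw [hc, ← Fintype.sum_subtype_add_sum_subtype p]
      congr 1
      · refine Finset.sum_congr rfl fun i _ => ?_
        simp [i.2]
      · refine Finset.sum_congr rfl fun i _ => ?_
        simp [i.2]
    rw [e1]
  rw [e, mC_finset]
  have h1 := sperner_count hS a w hw (fun i => u i) (ρ := ρ) (τ := τ) (c := c)
    (fun i => hρ i i.2) hτ T (fun f hf => (Finset.mem_filter.1 hf).2)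
  calc (T.card : ℝ≥0∞) * 2⁻¹ ^ Fintype.card {i // p i}
      ≤ (m.centralBinom : ℝ≥0∞) * 2⁻¹ ^ (2 * m) := by
        rw [hS]; gcongr
    _ = ENNReal.ofReal ((m.centralBinom : ℝ) / 4 ^ m) := by
        rw [ENNReal.ofReal_div_of_pos (by positivity), ENNReal.ofReal_natCast,
          ENNReal.ofReal_pow (by norm_num), div_eq_mul_inv]
        congr 1
        rw [pow_mul, ENNReal.inv_pow]
        congr 1
        rw [← ENNReal.inv_pow]
        congr 1
        norm_num
    _ ≤ _ := ENNReal.ofReal_le_ofReal (centralBinom_real m)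

theorem lo_bound {n m : ℕ} (a w : ℝ) (hw : 1 ≤ w) (u : Fin n → ℝ) {ρ τ : ℝ} (S : Finset (Fin n))
    (hS : S.card = 2 * m) (hρ : ∀ i ∈ S, ρ ≤ |u i|) (hτ : 2 * τ ≤ ρ) :
    mC (Fin n) {r | |∑ i, vl a w (r i) * u i| < τ} ≤ ENNReal.ofReal (1 / √(2 * m + 1)) := by
  classical
  refine lo_bound' a w hw u (fun i => i ∈ S) ?_ hρ hτ
  rw [← hS, Fintype.card_subtype]
  congr 1
  ext x
  simp

end Pool.Agent.H87.RL
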